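import Mathlib

set_option autoImplicit false
set_option linter.unusedSectionVars false
open scoped Manifold ContDiff Topology
open Set Complex

namespace Pool.Agent.H676R3

/-- The model space `ℂ³`. -/
abbrev E3 : Type := EuclideanSpace ℂ (Fin 3)

/-- The integer Heisenberg group, with coordinates `(m, n, k)`. -/
@[ext] structure Heis where
  m : ℤ
  n : ℤ
  k : ℤ

namespace Heis

instance : One Heis := ⟨⟨0, 0, 0⟩⟩
instance : Mul Heis := ⟨fun a b => ⟨a.m + b.m, a.n + b.n, a.k + b.k + a.n * b.m⟩⟩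
instance : Inv Heis := ⟨fun a => ⟨-a.m, -a.n, -a.k + a.n * a.m⟩⟩

@[simp] lemma one_m : (1 : Heis).m = 0 := rfl
@[simp] lemma one_n : (1 : Heis).n = 0 := rfl
@[simp] lemma one_k : (1 : Heis).k = 0 := rfl
@[simp] lemma mul_m (a b : Heis) : (a * b).m = a.m + b.m := rfl
@[simp] lemma mul_n (a b : Heis) : (a * b).n = a.n + b.n := rfl
@[simp] lemma mul_k (a b : Heis) : (a * b).k = a.k + b.k + a.n * b.m := rfl
@[simp] lemma inv_m (a : Heis) : (a⁻¹).m = -a.m := rfl
@[simp] lemma inv_n (a : Heis) : (a⁻¹).n = -a.n := rfl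
@[simp] lemma inv_k (a : Heis) : (a⁻¹).k = -a.k + a.n * a.m := rfl

instance : Group Heis :=
  Group.ofLeftAxioms
    (by intro a b c; ext <;> simp <;> ring)
    (by intro a; ext <;> simp)
    (by intro a; ext <;> simp)

end Heis

/-- the complex translation `m + n i` -/
noncomputable def tr (g : Heis) : ℂ := (g.m : ℂ) + (g.n : ℂ) * I

/-- the multiplier `exp (2 π (n z + k))` -/
noncomputable def mu (g : Heis) (z : ℂ) : ℂ := cexp (2 * Real.pi * (g.n * z + g.k))

/-- the action of the Heisenberg group on `ℂ³` -/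
noncomputable def act (g : Heis) (v : E3) : E3 :=
  !₂[v 0 + tr g, mu g (v 0) * v 1, mu g (v 0) * v 2]

@[simp] lemma act_0 (g : Heis) (v : E3) : act g v 0 = v 0 + tr g := by simp [act]
@[simp] lemma act_1 (g : Heis) (v : E3) : act g v 1 = mu g (v 0) * v 1 := by simp [act]
@[simp] lemma act_2 (g : Heis) (v : E3) : act g v 2 = mu g (v 0) * v 2 := by simp [act]

lemma E3_ext {v w : E3} (h0 : v 0 = w 0) (h1 : v 1 = w 1) (h2 : v 2 = w 2) : v = w := by
  ext i; fin_cases i <;> assumption

lemma exp_int_two_pi_I (n : ℤ) : cexp (2 * Real.pi * n * I) = 1 := by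
  rw [show (2 * Real.pi * n * I : ℂ) = n * (2 * Real.pi * I) by ring, Complex.exp_int_mul_two_pi_mul_I]

lemma mu_mul (g h : Heis) (z : ℂ) : mu (g * h) z = mu g (z + tr h) * mu h z := by
  rw [mu, mu, mu, ← Complex.exp_add, tr]
  have : (2 * Real.pi * ((g.n : ℂ) * (z + ((h.m : ℂ) + (h.n : ℂ) * I)) + g.k) + 2 * Real.pi * (h.n * z + h.k) : ℂ)
      = 2 * Real.pi * (((g * h).n : ℤ) * z + ((g * h).k : ℤ)) + 2 * Real.pi * ((g.n * h.n : ℤ) : ℂ) * I := by
    simp only [Heis.mul_n, Heis.mul_k]; push_cast; ring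
  rw [this, Complex.exp_add, exp_int_two_pi_I, mul_one]

@[simp] lemma mu_one (z : ℂ) : mu 1 z = 1 := by simp [mu]

lemma mu_ne_zero (g : Heis) (z : ℂ) : mu g z ≠ 0 := Complex.exp_ne_zero _

lemma tr_mul (g h : Heis) : tr (g * h) = tr g + tr h := by
  simp only [tr, Heis.mul_m, Heis.mul_n]; push_cast; ring

@[simp] lemma tr_one : tr 1 = 0 := by simp [tr]

lemma act_mul (g h : Heis) (v : E3) : act (g * h) v = act g (act h v) := by
  apply E3_ext
  · simp [tr_mul]; ring
  · simp [mu_mul]; ring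
  · simp [mu_mul]; ring

lemma act_one (v : E3) : act 1 v = v := by
  apply E3_ext <;> simp

/-- the squared norm of the fibre coordinate -/
noncomputable def rho (v : E3) : ℝ := ‖v 1‖ ^ 2 + ‖v 2‖ ^ 2

lemma rho_nonneg (v : E3) : 0 ≤ rho v := by unfold rho; positivity

lemma norm_mu (g : Heis) (z : ℂ) : ‖mu g z‖ = Real.exp (2 * Real.pi * (g.n * z.re + g.k)) := by
  rw [mu, Complex.norm_exp]
  congr 1
  simp

lemma rho_act (g : Heis) (v : E3) :
    rho (act g v) = Real.exp (4 * Real.pi * (g.n * (v 0).re + g.k)) * rho v := by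
  have h : Real.exp (4 * Real.pi * (g.n * (v 0).re + g.k)) = ‖mu g (v 0)‖ ^ 2 := by
    rw [norm_mu, ← Real.exp_nat_mul]; congr 1; push_cast; ring
  rw [h, rho, rho, act_1, act_2, norm_mul, norm_mul]; ring

lemma continuous_rho : Continuous rho := by unfold rho; fun_prop

/-- the open set `ℂ × (ℂ² ∖ 0)` -/
def UU : TopologicalSpace.Opens E3 := ⟨{v | 0 < rho v}, isOpen_lt continuous_const continuous_rho⟩

lemma mem_UU {v : E3} : v ∈ UU ↔ 0 < rho v := Iff.rfl

lemma act_mem (g : Heis) {v : E3} (hv : v ∈ UU) : act g v ∈ UU := by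
  rw [mem_UU] at *
  rw [rho_act]; positivity

/-- the universal cover `ℂ × (ℂ² ∖ 0)` as a type -/
abbrev UT : Type := UU

noncomputable instance : MulAction Heis UT where
  smul g x := ⟨act g x.1, act_mem g x.2⟩
  one_smul x := Subtype.ext (act_one x.1)
  mul_smul g h x := Subtype.ext (act_mul g h x.1)

lemma coe_smul (g : Heis) (x : UT) : ((g • x : UT) : E3) = act g x.1 := rfl

lemma contDiff_act (g : Heis) : ContDiff ℂ ω (act g) := by
  rw [contDiff_euclidean]
  intro i
  fin_cases i
  · simp only [Fin.zero_eta, act_0]; fun_prop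
  · simp only [Fin.mk_one, act_1, mu]; fun_prop
  · simp only [Fin.reduceFinMk, act_2, mu]; fun_prop

instance : ContinuousConstSMul Heis UT where
  continuous_const_smul g := by
    apply Continuous.subtype_mk
    exact (contDiff_act g).continuous.comp continuous_subtype_val

lemma tr_re (g : Heis) : (tr g).re = g.m := by simp [tr]
lemma tr_im (g : Heis) : (tr g).im = g.n := by simp [tr]

lemma act_eq_imp {g h : Heis} {v : E3} (hv : v ∈ UU) (e : act g v = act h v) : g = h := by
  have h0 := congrArg (fun x : E3 => x 0) e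
  simp only [act_0, add_right_inj] at h0
  have hm : g.m = h.m := by
    have := congrArg Complex.re h0
    rw [tr_re, tr_re] at this; exact_mod_cast this
  have hn : g.n = h.n := by
    have := congrArg Complex.im h0
    rw [tr_im, tr_im] at this; exact_mod_cast this
  have hr := congrArg rho e
  rw [rho_act, rho_act] at hr
  have hr' := mul_right_cancel₀ (ne_of_gt (mem_UU.1 hv)) hr
  have hr2 := Real.exp_injective hr'
  have hk : g.k = h.k := by
    have hpi := Real.pi_pos
    rw [hn] at hr2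
    have : (g.k : ℝ) = h.k := by
      have h4 : (4 * Real.pi) ≠ 0 := by positivity
      have := mul_left_cancel₀ h4 hr2
      linarith
    exact_mod_cast this
  ext <;> assumption

instance : IsCancelSMul Heis UT where
  left_cancel' g p p' h := by
    have := congrArg (fun x => g⁻¹ • x) h
    simpa using this
  right_cancel' g h p hgh := act_eq_imp p.2 (congrArg Subtype.val hgh)

lemma int_mem_Icc {k : ℤ} {R : ℝ} (h : |(k : ℝ)| ≤ R) : k ∈ Set.Icc (-⌈R⌉) ⌈R⌉ := by
  have h' := abs_le.1 h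
  have hc := Int.le_ceil R
  constructor
  · have : (-(⌈R⌉ : ℝ)) ≤ k := by linarith
    exact_mod_cast this
  · have : (k : ℝ) ≤ ⌈R⌉ := by linarith
    exact_mod_cast this

/-- only finitely many deck transformations move a bounded set near a bounded set -/
lemma finite_return (C a b : ℝ) (ha : 0 < a) (hab : a ≤ b) : Set.Finite {g : Heis | ∃ v : E3,
    ‖v 0‖ ≤ C ∧ ‖act g v 0‖ ≤ C ∧ a ≤ rho v ∧ rho v ≤ b ∧ a ≤ rho (act g v) ∧ rho (act g v) ≤ b} := by
  set B : ℝ := 2 * C * C + (Real.log (b / a)) / (4 * Real.pi) with hB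
  apply Set.Finite.subset (s := (fun x : ℤ × ℤ × ℤ => (⟨x.1, x.2.1, x.2.2⟩ : Heis)) ''
    (Set.Icc (-⌈2 * C⌉) ⌈2 * C⌉ ×ˢ Set.Icc (-⌈2 * C⌉) ⌈2 * C⌉ ×ˢ Set.Icc (-⌈B⌉) ⌈B⌉))
  · exact ((Set.finite_Icc _ _).prod ((Set.finite_Icc _ _).prod (Set.finite_Icc _ _))).image _
  · rintro g ⟨v, h1, h2, h3, h4, h5, h6⟩
    rw [act_0] at h2
    have htr : ‖tr g‖ ≤ 2 * C := by
      have : tr g = (v 0 + tr g) - v 0 := by ring
      rw [this]
      exact (norm_sub_le _ _).trans (by linarith)
    have hm : |(g.m : ℝ)| ≤ 2 * C := by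
      rw [← tr_re]; exact (Complex.abs_re_le_norm _).trans htr
    have hn : |(g.n : ℝ)| ≤ 2 * C := by
      rw [← tr_im]; exact (Complex.abs_im_le_norm _).trans htr
    have hC : 0 ≤ C := (norm_nonneg _).trans h1
    have hre : |(v 0).re| ≤ C := (Complex.abs_re_le_norm _).trans h1
    have hk : |(g.k : ℝ)| ≤ B := by
      have hb : 0 < b := ha.trans_le hab
      have hrho : 0 < rho v := ha.trans_le h3
      set s : ℝ := g.n * (v 0).re + g.k with hs
      have he : Real.exp (4 * Real.pi * s) = rho (act g v) / rho v := by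
        rw [rho_act, mul_div_assoc, div_self hrho.ne', mul_one]
      have hup : 4 * Real.pi * s ≤ Real.log (b / a) := by
        rw [Real.le_log_iff_exp_le (by positivity), he]
        gcongr
      have hdown : -(4 * Real.pi * s) ≤ Real.log (b / a) := by
        rw [Real.le_log_iff_exp_le (by positivity), Real.exp_neg, he, inv_div]
        have : 0 < rho (act g v) := ha.trans_le h5
        gcongr
      have hs' : |s| ≤ Real.log (b / a) / (4 * Real.pi) := by
        have h4 : |s| * (4 * Real.pi) = |4 * Real.pi * s| := by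
          rw [abs_mul, abs_of_pos (show 0 < 4 * Real.pi by positivity), mul_comm]
        rw [le_div_iff₀ (by positivity), h4, abs_le]
        constructor <;> linarith
      calc |(g.k : ℝ)| = |s - g.n * (v 0).re| := by rw [hs]; ring_nf
        _ ≤ |s| + |g.n * (v 0).re| := abs_sub _ _
        _ ≤ Real.log (b / a) / (4 * Real.pi) + 2 * C * C := by
            rw [abs_mul]; gcongr
        _ = B := by rw [hB]; ring
    exact ⟨(g.m, g.n, g.k), ⟨int_mem_Icc hm, int_mem_Icc hn, int_mem_Icc hk⟩, rfl⟩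

instance : ProperlyDiscontinuousSMul Heis UT where
  finite_disjoint_inter_image := by
    intro K L hK hL
    rcases (K ∪ L).eq_empty_or_nonempty with he | hne
    · have hK0 : K = ∅ := by
        have := Set.union_empty_iff.1 he; exact this.1
      simp [hK0]
    have hKL := hK.union hL
    obtain ⟨C, hC⟩ : ∃ C, ∀ x ∈ K ∪ L, ‖(x : E3) 0‖ ≤ C := by
      have hc : Continuous fun x : UT => ‖(x : E3) 0‖ := by fun_prop
      obtain ⟨x, hx, hx'⟩ := hKL.exists_isMaxOn hne hc.continuousOn
      exact ⟨_, fun y hy => hx' hy⟩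
    have hcr : Continuous fun x : UT => rho (x : E3) := continuous_rho.comp continuous_subtype_val
    obtain ⟨x1, hx1, hx1'⟩ := hKL.exists_isMaxOn hne hcr.continuousOn
    obtain ⟨x2, hx2, hx2'⟩ := hKL.exists_isMinOn hne hcr.continuousOn
    apply (finite_return C (rho (x2 : E3)) (rho (x1 : E3)) (mem_UU.1 x2.2) (hx2' hx1)).subset
    rintro g ⟨p', ⟨p, hp, hgp⟩, hp'⟩
    have hgp' : g • p = p' := hgp
    have hpKL : p ∈ K ∪ L := Or.inl hp
    have hpKL' : p' ∈ K ∪ L := Or.inr hp'
    have hcoe : act g (p : E3) = (p' : E3) := by rw [← hgp']; rfl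
    refine ⟨p, hC p hpKL, ?_, hx2' hpKL, hx1' hpKL, ?_, ?_⟩
    · rw [hcoe]; exact hC p' hpKL'
    · rw [hcoe]; exact hx2' hpKL'
    · rw [hcoe]; exact hx1' hpKL'

instance : LocallyCompactSpace UT := UU.isOpen.locallyCompactSpace

end Pool.Agent.H676R3
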