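import Pool.Agent.H676R3.Lift

set_option autoImplicit false
set_option linter.unusedSectionVars false
set_option linter.unusedSimpArgs false
open scoped Manifold ContDiff Topology ComplexConjugate
open Set Complex

namespace Pool.Agent.H676R3

/-- the test disc -/
noncomputable def pt (z : ℂ) : E3 := !₂[z, 1, 0]

@[simp] lemma pt_0 (z : ℂ) : pt z 0 = z := by simp [pt]
@[simp] lemma pt_1 (z : ℂ) : pt z 1 = 1 := by simp [pt]
@[simp] lemma pt_2 (z : ℂ) : pt z 2 = 0 := by simp [pt]

lemma pt_mem (z : ℂ) : pt z ∈ UU := by rw [mem_UU, rho]; simp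

lemma continuous_pt : Continuous pt := by
  apply (PiLp.continuous_toLp 2 _).comp
  apply continuous_pi
  intro i
  fin_cases i <;> simp <;> fun_prop

/-- the closed unit disc -/
abbrev DD : Type := Metric.closedBall (0 : ℂ) 1

instance : PreconnectedSpace DD :=
  Subtype.preconnectedSpace (convex_closedBall (0 : ℂ) 1).isPreconnected

instance : CompactSpace DD := isCompact_iff_compactSpace.1 (isCompact_closedBall (0 : ℂ) 1)

lemma T1_pt : act ⟨1, 0, 0⟩ (pt 0) = pt 1 := by
  apply E3_ext <;> simp [tr, mu]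

lemma T2_pt : act ⟨0, 1, 0⟩ (pt 0) = pt I := by
  apply E3_ext <;> simp [tr, mu]

/-- closeness of `g` to a map with lift `F₀`, on the test disc -/
def Near (F₀ : E3 → E3) (g : M3 → M3) : Prop :=
  ∀ z : DD, ∃ w ∈ UU, Nb (F₀ (pt z)) w ∧ Q w = g (Q (pt z))

theorem near_eq {F₀ F : E3 → E3} {g₀ g : M3 → M3} (h₀ : IsLift F₀ g₀) (h : IsLift F g)
    {a₀ b₀ a b : ℤ} (e₀ : ∀ v ∈ UU, F₀ v 0 = v 0 + ((a₀ : ℂ) + b₀ * I))
    (e : ∀ v ∈ UU, F v 0 = v 0 + ((a : ℂ) + b * I)) (hn : Near F₀ g) : a = a₀ ∧ b = b₀ := by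
  have hex : ∀ z : DD, ∃ δ : Heis, Nb (F₀ (pt z)) (act δ (F (pt z))) := by
    intro z
    obtain ⟨w, hw, hN, hQ⟩ := hn z
    rw [← h.lifts _ (pt_mem z), Q_eq_iff hw (h.equiv.mem _ (pt_mem z))] at hQ
    obtain ⟨δ, hδ⟩ := hQ
    exact ⟨δ, by rw [hδ]; exact hN⟩
  choose δ hδ using hex
  have hcF : Continuous fun z : DD => F (pt z) :=
    h.cont.comp_continuous (continuous_pt.comp continuous_subtype_val) (fun z => pt_mem z)
  have hcF₀ : Continuous fun z : DD => F₀ (pt z) :=
    h₀.cont.comp_continuous (continuous_pt.comp continuous_subtype_val) (fun z => pt_mem z)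
  have hloc : IsLocallyConstant δ := by
    rw [IsLocallyConstant.iff_eventually_eq]
    intro z
    have hc : Continuous fun z' : DD => (F₀ (pt z'), act (δ z) (F (pt z'))) :=
      hcF₀.prodMk ((contDiff_act (δ z)).continuous.comp hcF)
    have := hc.continuousAt.preimage_mem_nhds (isOpen_Nb.mem_nhds (x := _) (hδ z))
    filter_upwards [this] with z' hz'
    exact Nb_unique (h₀.equiv.mem _ (pt_mem z')) (h.equiv.mem _ (pt_mem z')) (hδ z') hz'
  have m0 : (0 : ℂ) ∈ Metric.closedBall (0 : ℂ) 1 := by simp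
  have m1 : (1 : ℂ) ∈ Metric.closedBall (0 : ℂ) 1 := by simp
  have mI : (I : ℂ) ∈ Metric.closedBall (0 : ℂ) 1 := by simp
  have c1 := hloc.apply_eq_of_preconnectedSpace ⟨1, m1⟩ ⟨0, m0⟩
  have cI := hloc.apply_eq_of_preconnectedSpace ⟨I, mI⟩ ⟨0, m0⟩
  have N0 := hδ ⟨0, m0⟩
  have N1 := hδ ⟨1, m1⟩
  have N2 := hδ ⟨I, mI⟩
  rw [c1] at N1
  rw [cI] at N2
  set D := δ ⟨0, m0⟩ with hD
  simp only at N0 N1 N2
  rw [← T1_pt, h₀.equiv.act _ _ (pt_mem 0), h.equiv.act _ _ (pt_mem 0)] at N1
  rw [← T2_pt, h₀.equiv.act _ _ (pt_mem 0), h.equiv.act _ _ (pt_mem 0)] at N2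
  obtain ⟨z0, p0, q0⟩ := N0
  obtain ⟨-, p1, q1⟩ := N1
  obtain ⟨-, p2, q2⟩ := N2
  have hr0 := mem_UU.1 (h₀.equiv.mem _ (pt_mem 0))
  have hr := mem_UU.1 (h.equiv.mem _ (pt_mem 0))
  have v0 := e _ (pt_mem 0)
  have v00 := e₀ _ (pt_mem 0)
  simp only [pt_0, zero_add] at v0 v00
  rw [act_0, v0, v00] at z0
  simp only [rho_act, act_0, v0, v00, tr] at p0 p1 p2 q0 q1 q2
  simp only [Int.cast_one, Int.cast_zero, zero_mul, one_mul, add_zero, zero_add, mul_zero,
    Real.exp_zero, add_re, mul_re, I_re, I_im, intCast_re, intCast_im, mul_one, sub_self, one_re,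
    sub_zero] at p0 p1 p2 q0 q1 q2
  set R0 := rho (F₀ (pt 0)) with hR0
  set R := rho (F (pt 0)) with hR
  set E := Real.exp (Real.pi / 4) with hE
  set X := Real.exp (4 * Real.pi * (D.n * a + D.k)) * R with hX
  have hXpos : 0 < X := by positivity
  have hpi := Real.pi_pos
  have hEpos : 0 < E := Real.exp_pos _
  -- step 1 : D.n = 0
  have s1 : Real.exp (4 * Real.pi * (D.n * (a + 1) + D.k)) * R = Real.exp (4 * Real.pi * D.n) * X := by
    rw [hX, ← mul_assoc, ← Real.exp_add]; congr 2; ring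
  rw [s1] at p1 q1
  have hn0 : D.n = 0 := by
    have u1 : Real.exp (4 * Real.pi * D.n) < E * E := by
      have : Real.exp (4 * Real.pi * D.n) * X < (E * E) * X := by
        calc _ < E * R0 := p1
          _ < E * (E * X) := by gcongr
          _ = _ := by ring
      exact lt_of_mul_lt_mul_right this hXpos.le
    have u2 : 1 < E * E * Real.exp (4 * Real.pi * D.n) := by
      have : 1 * X < (E * E * Real.exp (4 * Real.pi * D.n)) * X := by
        calc 1 * X = X := one_mul _
          _ < E * R0 := p0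
          _ < E * (E * (Real.exp (4 * Real.pi * D.n) * X)) := by gcongr
          _ = _ := by ring
      exact lt_of_mul_lt_mul_right this hXpos.le
    rw [hE, ← Real.exp_add, Real.exp_lt_exp] at u1
    rw [hE, ← Real.exp_add, ← Real.exp_add, Real.one_lt_exp_iff] at u2
    have h3 : |D.n| < 1 := by
      have : |(D.n : ℝ)| < 1 := by
        rw [abs_lt]
        constructor
        · by_contra hcon
          push Not at hcon
          nlinarith
        · by_contra hcon
          push Not at hcon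
          nlinarith
      exact_mod_cast this
    exact Int.abs_lt_one_iff.1 h3
  -- step 2 : a = a₀
  have s2 : Real.exp (4 * Real.pi * (D.n * a + D.k)) * (Real.exp (4 * Real.pi * a) * R) =
      Real.exp (4 * Real.pi * a) * X := by
    rw [hX]; ring
  rw [s2] at p2 q2
  have ha : a = a₀ := by
    have u1 : Real.exp (4 * Real.pi * a) < E * E * Real.exp (4 * Real.pi * a₀) := by
      have : Real.exp (4 * Real.pi * a) * X < (E * E * Real.exp (4 * Real.pi * a₀)) * X := by
        calc _ < E * (Real.exp (4 * Real.pi * a₀) * R0) := p2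
          _ < E * (Real.exp (4 * Real.pi * a₀) * (E * X)) := by gcongr
          _ = _ := by ring
      exact lt_of_mul_lt_mul_right this hXpos.le
    have u2 : Real.exp (4 * Real.pi * a₀) < E * E * Real.exp (4 * Real.pi * a) := by
      have : Real.exp (4 * Real.pi * a₀) * R0 < (E * E * Real.exp (4 * Real.pi * a)) * R0 := by
        calc _ < E * (Real.exp (4 * Real.pi * a) * X) := q2
          _ < E * (Real.exp (4 * Real.pi * a) * (E * R0)) := by gcongr
          _ = _ := by ring
      exact lt_of_mul_lt_mul_right this hr0.le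
    rw [hE, ← Real.exp_add, ← Real.exp_add, Real.exp_lt_exp] at u1 u2
    have h3 : |a - a₀| < 1 := by
      have : |((a - a₀ : ℤ) : ℝ)| < 1 := by
        push_cast
        rw [abs_lt]
        constructor
        · by_contra hcon
          push Not at hcon
          nlinarith
        · by_contra hcon
          push Not at hcon
          nlinarith
      exact_mod_cast this
    have := Int.abs_lt_one_iff.1 h3
    omega
  refine ⟨ha, ?_⟩
  have him := (Complex.abs_im_le_norm _).trans_lt z0
  rw [sub_im, add_im, add_im, add_im, tr_im, hn0] at him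
  simp only [intCast_im, mul_im, intCast_re, I_im, mul_one, I_re, mul_zero, zero_add,
    Int.cast_zero, add_zero] at him
  have h3 : |b - b₀| < 1 := by
    have : |((b - b₀ : ℤ) : ℝ)| < 1 := by push_cast; linarith
    exact_mod_cast this
  have := Int.abs_lt_one_iff.1 h3
  omega

lemma near_self {F₀ : E3 → E3} {g₀ : M3 → M3} (h₀ : IsLift F₀ g₀) : Near F₀ g₀ := fun z =>
  ⟨F₀ (pt z), h₀.equiv.mem _ (pt_mem z), Nb_self (h₀.equiv.mem _ (pt_mem z)), h₀.lifts _ (pt_mem z)⟩

lemma isOpen_near {F₀ : E3 → E3} {g₀ : M3 → M3} (h₀ : IsLift F₀ g₀) :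
    IsOpen {g : C(M3, M3) | Near F₀ g} := by
  have hcF₀ : Continuous fun z : DD => F₀ (pt z) :=
    h₀.cont.comp_continuous (continuous_pt.comp continuous_subtype_val) (fun z => pt_mem z)
  have hκ : Continuous fun z : DD => Q (pt z) :=
    continuousOn_Q.comp_continuous (continuous_pt.comp continuous_subtype_val) (fun z => pt_mem z)
  set O : Set (DD × M3) := (Prod.map id pr) '' {p : DD × UT | Nb (F₀ (pt p.1)) p.2} with hO
  have hOo : IsOpen O := by
    apply (IsOpenMap.id.prodMap isOpenMap_pr)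
    have : Continuous fun p : DD × UT => (F₀ (pt p.1), (p.2 : E3)) :=
      (hcF₀.comp continuous_fst).prodMk (continuous_subtype_val.comp continuous_snd)
    exact isOpen_Nb.preimage this
  have hcont : ∀ g : C(M3, M3), Continuous fun z : DD => (z, g (Q (pt z))) := fun g =>
    continuous_id.prodMk (g.continuous.comp hκ)
  set Ψ : C(M3, M3) → C(DD, DD × M3) := fun g => ⟨_, hcont g⟩ with hΨ
  have hΨc : Continuous Ψ := by
    apply ContinuousMap.continuous_of_continuous_uncurry
    have : Continuous fun p : C(M3, M3) × DD => (p.2, p.1 (Q (pt p.2))) := by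
      apply continuous_snd.prodMk
      exact continuous_fst.eval (hκ.comp continuous_snd)
    exact this
  have hset : {g : C(M3, M3) | Near F₀ g} = Ψ ⁻¹' {f | MapsTo f univ O} := by
    ext g
    constructor
    · intro hg z _
      obtain ⟨w, hw, hN, hQ⟩ := hg z
      refine ⟨(z, ⟨w, hw⟩), hN, ?_⟩
      show (z, pr ⟨w, hw⟩) = (z, g (Q (pt z)))
      rw [← hQ, Q_mk hw]
    · intro hg z
      obtain ⟨⟨z', w⟩, hN, he⟩ := hg (mem_univ z)
      have he' : (z', pr w) = (z, g (Q (pt z))) := he
      have e1 : z' = z := congrArg Prod.fst he'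
      have e2 : pr w = g (Q (pt z)) := congrArg Prod.snd he'
      subst e1
      exact ⟨w, w.2, hN, by rw [Q_coe, e2]⟩
  rw [hset]
  exact (ContinuousMap.isOpen_setOfPred_mapsTo isCompact_univ hOo).preimage hΨc

end Pool.Agent.H676R3
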