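import Pool.Agent.H676R3.Mfd

set_option autoImplicit false
set_option linter.unusedSectionVars false
open scoped Manifold ContDiff Topology
open Set Complex

namespace Pool.Agent.H676R3

lemma Q_surj (y : M3) : ∃ v ∈ UU, Q v = y := by
  obtain ⟨x, rfl⟩ := pr_cov.surjective y
  exact ⟨x, x.2, Q_coe x⟩

/-- a section of the projection -/
noncomputable def sec (y : M3) : E3 := (Q_surj y).choose
lemma sec_mem (y : M3) : sec y ∈ UU := (Q_surj y).choose_spec.1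
lemma Q_sec (y : M3) : Q (sec y) = y := (Q_surj y).choose_spec.2

/-- descend a map of `ℂ³` to the quotient -/
noncomputable def dsc (F : E3 → E3) (y : M3) : M3 := Q (F (sec y))

/-- equivariance of a map of the universal cover -/
structure Equiv1 (F : E3 → E3) : Prop where
  mem : ∀ v ∈ UU, F v ∈ UU
  act : ∀ (g : Heis), ∀ v ∈ UU, F (act g v) = act g (F v)

lemma dsc_Q {F : E3 → E3} (hF : Equiv1 F) {v : E3} (hv : v ∈ UU) : dsc F (Q v) = Q (F v) := by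
  rw [dsc]
  obtain ⟨g, hg⟩ := (Q_eq_iff (sec_mem (Q v)) hv).1 (Q_sec (Q v))
  rw [← hg, hF.act g v hv, Q_act g (hF.mem v hv)]

lemma dsc_comp {F G : E3 → E3} (hF : Equiv1 F) (hG : Equiv1 G) (y : M3) :
    dsc F (dsc G y) = dsc (F ∘ G) y := by
  obtain ⟨v, hv, rfl⟩ := Q_surj y
  have hFG : Equiv1 (F ∘ G) := ⟨fun v hv => hF.mem _ (hG.mem v hv), fun g v hv => by
    rw [Function.comp_apply, hG.act g v hv, hF.act g _ (hG.mem v hv)]; rfl⟩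
  rw [dsc_Q hG hv, dsc_Q hF (hG.mem v hv), dsc_Q hFG hv]; rfl

lemma dsc_id_of {F : E3 → E3} (hF : Equiv1 F) (h : ∀ v ∈ UU, F v = v) (y : M3) : dsc F y = y := by
  obtain ⟨v, hv, rfl⟩ := Q_surj y
  rw [dsc_Q hF hv, h v hv]

lemma ch_mem_max_real (x : UT) :
    ch x ∈ IsManifold.maximalAtlas 𝓘(ℝ, E3) ((⊤ : ℕ∞) : WithTop ℕ∞) M3 :=
  IsManifold.subset_maximalAtlas ⟨x, rfl⟩

lemma ch_mem_max_complex (x : UT) :
    ch x ∈ IsManifold.maximalAtlas 𝓘(ℂ, E3) ((⊤ : ℕ∞) : WithTop ℕ∞) M3 :=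
  IsManifold.subset_maximalAtlas ⟨x, rfl⟩

lemma mem_ch_target (x : UT) : (x : E3) ∈ (ch x).target := by
  have := (ch x).map_source (pr_mem_ch_source x)
  rwa [ch_pr] at this

lemma Q_smooth_real {v : E3} (hv : v ∈ UU) :
    ContMDiffAt 𝓘(ℝ, E3) 𝓘(ℝ, E3) ((⊤ : ℕ∞) : WithTop ℕ∞) Q v := by
  have h := contMDiffOn_symm_of_mem_maximalAtlas (ch_mem_max_real ⟨v, hv⟩)
  have h2 := h.contMDiffAt ((ch ⟨v, hv⟩).open_target.mem_nhds (mem_ch_target ⟨v, hv⟩))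
  have e : ((ch ⟨v, hv⟩).symm : E3 → M3) = Q := by ext1 u; exact ch_symm _ u
  rwa [e] at h2

lemma Q_smooth_complex {v : E3} (hv : v ∈ UU) :
    ContMDiffAt 𝓘(ℂ, E3) 𝓘(ℂ, E3) ((⊤ : ℕ∞) : WithTop ℕ∞) Q v := by
  have h := contMDiffOn_symm_of_mem_maximalAtlas (ch_mem_max_complex ⟨v, hv⟩)
  have h2 := h.contMDiffAt ((ch ⟨v, hv⟩).open_target.mem_nhds (mem_ch_target ⟨v, hv⟩))
  have e : ((ch ⟨v, hv⟩).symm : E3 → M3) = Q := by ext1 u; exact ch_symm _ u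
  rwa [e] at h2

lemma ch_smooth_real (x : UT) :
    ContMDiffAt 𝓘(ℝ, E3) 𝓘(ℝ, E3) ((⊤ : ℕ∞) : WithTop ℕ∞) (ch x) (pr x) :=
  (contMDiffOn_of_mem_maximalAtlas (ch_mem_max_real x)).contMDiffAt
    ((ch x).open_source.mem_nhds (pr_mem_ch_source x))

lemma ch_smooth_complex (x : UT) :
    ContMDiffAt 𝓘(ℂ, E3) 𝓘(ℂ, E3) ((⊤ : ℕ∞) : WithTop ℕ∞) (ch x) (pr x) :=
  (contMDiffOn_of_mem_maximalAtlas (ch_mem_max_complex x)).contMDiffAt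
    ((ch x).open_source.mem_nhds (pr_mem_ch_source x))

lemma desc_smooth_complex {F : E3 → E3} (hF : ContDiffOn ℂ ((⊤ : ℕ∞) : WithTop ℕ∞) F UU)
    (hFU : ∀ v ∈ UU, F v ∈ UU) {f : M3 → M3} (hf : ∀ v ∈ UU, f (Q v) = Q (F v)) :
    ContMDiff 𝓘(ℂ, E3) 𝓘(ℂ, E3) ((⊤ : ℕ∞) : WithTop ℕ∞) f := by
  intro y
  obtain ⟨x, rfl⟩ := pr_cov.surjective y
  have h1 : f =ᶠ[𝓝 (pr x)] fun y => Q (F (ch x y)) := by
    filter_upwards [(ch x).open_source.mem_nhds (pr_mem_ch_source x)] with y hy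
    rw [← hf _ (ch_mem x), Q_ch x hy]
  refine ContMDiffAt.congr_of_eventuallyEq ?_ h1
  have h2 : ContMDiffAt 𝓘(ℂ, E3) 𝓘(ℂ, E3) ((⊤ : ℕ∞) : WithTop ℕ∞) F (ch x (pr x)) := by
    rw [contMDiffAt_iff_contDiffAt, ch_pr]
    exact hF.contDiffAt (UU.isOpen.mem_nhds x.2)
  have h3 : ContMDiffAt 𝓘(ℂ, E3) 𝓘(ℂ, E3) ((⊤ : ℕ∞) : WithTop ℕ∞) Q (F (ch x (pr x))) :=
    Q_smooth_complex (hFU _ (ch_mem x))
  exact ContMDiffAt.comp (g := Q) (f := fun y => F (ch x y)) (pr x) h3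
    (ContMDiffAt.comp (g := F) (f := ch x) (pr x) h2 (ch_smooth_complex x))

lemma desc_smooth_real {F : E3 → E3} (hF : ContDiffOn ℝ ((⊤ : ℕ∞) : WithTop ℕ∞) F UU)
    (hFU : ∀ v ∈ UU, F v ∈ UU) {f : M3 → M3} (hf : ∀ v ∈ UU, f (Q v) = Q (F v)) :
    ContMDiff 𝓘(ℝ, E3) 𝓘(ℝ, E3) ((⊤ : ℕ∞) : WithTop ℕ∞) f := by
  intro y
  obtain ⟨x, rfl⟩ := pr_cov.surjective y
  have h1 : f =ᶠ[𝓝 (pr x)] fun y => Q (F (ch x y)) := by
    filter_upwards [(ch x).open_source.mem_nhds (pr_mem_ch_source x)] with y hy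
    rw [← hf _ (ch_mem x), Q_ch x hy]
  refine ContMDiffAt.congr_of_eventuallyEq ?_ h1
  have h2 : ContMDiffAt 𝓘(ℝ, E3) 𝓘(ℝ, E3) ((⊤ : ℕ∞) : WithTop ℕ∞) F (ch x (pr x)) := by
    rw [contMDiffAt_iff_contDiffAt, ch_pr]
    exact hF.contDiffAt (UU.isOpen.mem_nhds x.2)
  have h3 : ContMDiffAt 𝓘(ℝ, E3) 𝓘(ℝ, E3) ((⊤ : ℕ∞) : WithTop ℕ∞) Q (F (ch x (pr x))) :=
    Q_smooth_real (hFU _ (ch_mem x))
  exact ContMDiffAt.comp (g := Q) (f := fun y => F (ch x y)) (pr x) h3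
    (ContMDiffAt.comp (g := F) (f := ch x) (pr x) h2 (ch_smooth_real x))

lemma desc_smooth_param {F : ℝ × E3 → E3}
    (hF : ContDiff ℝ ((⊤ : ℕ∞) : WithTop ℕ∞) F)
    (hFU : ∀ t, ∀ v ∈ UU, F (t, v) ∈ UU) {f : ℝ → M3 → M3}
    (hf : ∀ t, ∀ v ∈ UU, f t (Q v) = Q (F (t, v))) :
    ContMDiff (𝓘(ℝ, ℝ).prod 𝓘(ℝ, E3)) 𝓘(ℝ, E3) ((⊤ : ℕ∞) : WithTop ℕ∞)
      (fun p : ℝ × M3 => f p.1 p.2) := by
  rintro ⟨t, y⟩
  obtain ⟨x, rfl⟩ := pr_cov.surjective y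
  have h1 : (fun p : ℝ × M3 => f p.1 p.2) =ᶠ[𝓝 (t, pr x)]
      fun p => Q (F (p.1, ch x p.2)) := by
    have : ∀ᶠ p : ℝ × M3 in 𝓝 (t, pr x), p.2 ∈ (ch x).source :=
      continuous_snd.continuousAt.preimage_mem_nhds
        ((ch x).open_source.mem_nhds (pr_mem_ch_source x))
    filter_upwards [this] with p hp
    rw [← hf _ _ (ch_mem x), Q_ch x hp]
  refine ContMDiffAt.congr_of_eventuallyEq ?_ h1
  have h0 : ContMDiffAt (𝓘(ℝ, ℝ).prod 𝓘(ℝ, E3)) 𝓘(ℝ, ℝ × E3) ((⊤ : ℕ∞) : WithTop ℕ∞)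
      (fun p : ℝ × M3 => (p.1, ch x p.2)) (t, pr x) := by
    apply ContMDiffAt.prodMk_space
    · exact contMDiffAt_fst
    · exact ContMDiffAt.comp (t, pr x) (I' := 𝓘(ℝ, E3)) (g := ch x) (f := Prod.snd)
        (ch_smooth_real x) contMDiffAt_snd
  have h2 : ContMDiffAt 𝓘(ℝ, ℝ × E3) 𝓘(ℝ, E3) ((⊤ : ℕ∞) : WithTop ℕ∞) F (t, ch x (pr x)) := by
    rw [contMDiffAt_iff_contDiffAt]
    exact hF.contDiffAt
  have h3 : ContMDiffAt 𝓘(ℝ, E3) 𝓘(ℝ, E3) ((⊤ : ℕ∞) : WithTop ℕ∞) Q (F (t, ch x (pr x))) :=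
    Q_smooth_real (hFU _ _ (ch_mem x))
  exact ContMDiffAt.comp (g := Q) (f := fun p : ℝ × M3 => F (p.1, ch x p.2)) (t, pr x) h3
    (ContMDiffAt.comp (g := F) (f := fun p : ℝ × M3 => (p.1, ch x p.2)) (t, pr x) h2 h0)

end Pool.Agent.H676R3
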