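import Pool.Agent.H676R3.Comp

set_option autoImplicit false
set_option linter.unusedSectionVars false
set_option linter.unusedSimpArgs false
open scoped Manifold ContDiff Topology ComplexConjugate
open Set Complex

namespace Pool.Agent.H676R3

lemma contDiff_sh (N : ℤ) : ContDiff ℂ ((⊤ : ℕ∞) : WithTop ℕ∞) (sh N) := by
  rw [contDiff_piLp 2]
  have hc : ∀ i : Fin 3, ContDiff ℂ ((⊤ : ℕ∞) : WithTop ℕ∞) (fun v : E3 => v i) := fun i =>
    (contDiff_piLp (𝕜 := ℂ) 2).1 contDiff_id i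
  intro i
  fin_cases i
  · simp only [Fin.zero_eta, sh_0]
    exact (hc 0).add contDiff_const
  · simp only [Fin.mk_one, sh_1]
    exact hc 1
  · simp only [Fin.reduceFinMk, sh_2]
    exact hc 2

/-- the translation by `N i` on the quotient, a biholomorphism -/
noncomputable def shC (N : ℤ) :
    Diffeomorph (𝓘(ℂ, E3)) (𝓘(ℂ, E3)) M3 M3 ((⊤ : ℕ∞) : WithTop ℕ∞) where
  toFun := dsc (sh N)
  invFun := dsc (sh (-N))
  left_inv y := by
    rw [dsc_comp (sh_equiv _) (sh_equiv _)]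
    refine dsc_id_of ⟨fun v hv => (sh_equiv _).mem _ ((sh_equiv _).mem v hv), fun g v hv => ?_⟩ ?_ y
    · rw [(sh_equiv N).act g v hv, (sh_equiv (-N)).act g _ ((sh_equiv _).mem v hv)]
    · intro v _
      apply E3_ext <;> simp
  right_inv y := by
    rw [dsc_comp (sh_equiv _) (sh_equiv _)]
    refine dsc_id_of ⟨fun v hv => (sh_equiv _).mem _ ((sh_equiv _).mem v hv), fun g v hv => ?_⟩ ?_ y
    · rw [(sh_equiv (-N)).act g v hv, (sh_equiv N).act g _ ((sh_equiv _).mem v hv)]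
    · intro v _
      apply E3_ext <;> simp
  contMDiff_toFun := desc_smooth_complex (contDiff_sh N).contDiffOn (sh_equiv N).mem
    (fun _ hv => dsc_Q (sh_equiv N) hv)
  contMDiff_invFun := desc_smooth_complex (contDiff_sh (-N)).contDiffOn (sh_equiv (-N)).mem
    (fun _ hv => dsc_Q (sh_equiv (-N)) hv)

/-- the isotopy on the quotient -/
noncomputable def HH (N : ℤ) (t : ℝ) : M3 → M3 := dsc (fun v => FF N (t, v))

lemma HH_Q (N : ℤ) (t : ℝ) {v : E3} (hv : v ∈ UU) : HH N t (Q v) = Q (FF N (t, v)) :=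
  dsc_Q (FF_equiv N t) hv

lemma HH_smooth (N : ℤ) : ContMDiff (𝓘(ℝ, ℝ).prod 𝓘(ℝ, E3)) 𝓘(ℝ, E3) ((⊤ : ℕ∞) : WithTop ℕ∞)
    (fun p : ℝ × M3 => HH N p.1 p.2) :=
  desc_smooth_param (contDiff_FF N) (fun t v hv => (FF_equiv N t).mem v hv)
    (fun t _ hv => HH_Q N t hv)

lemma HH_zero (N : ℤ) : HH N 0 = id := by
  ext1 y
  exact dsc_id_of (FF_equiv N 0) (fun v _ => FF_zero N v) y

lemma HH_one (N : ℤ) : HH N 1 = shC N := by
  ext1 y
  show dsc (fun v => FF N (1, v)) y = dsc (sh N) y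
  congr 1
  ext1 v; exact FF_one N v

/-- the diffeomorphism at time `t` -/
noncomputable def HD (N : ℤ) (t : ℝ) :
    Diffeomorph (𝓘(ℝ, E3)) (𝓘(ℝ, E3)) M3 M3 ((⊤ : ℕ∞) : WithTop ℕ∞) where
  toFun := HH N t
  invFun := dsc (GG N t)
  left_inv y := by
    rw [HH, dsc_comp (GG_equiv N t) (FF_equiv N t)]
    refine dsc_id_of ⟨fun v hv => (GG_equiv N t).mem _ ((FF_equiv N t).mem v hv), fun g v hv => ?_⟩ ?_ y
    · rw [FF_act, GG_act]
    · intro v _
      exact GG_FF N t v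
  right_inv y := by
    rw [HH, dsc_comp (FF_equiv N t) (GG_equiv N t)]
    refine dsc_id_of ⟨fun v hv => (FF_equiv N t).mem _ ((GG_equiv N t).mem v hv), fun g v hv => ?_⟩ ?_ y
    · rw [GG_act, FF_act]
    · intro v _
      exact FF_GG N t v
  contMDiff_toFun := desc_smooth_real (F := fun v => FF N (t, v))
    ((contDiff_FF N).comp (contDiff_const.prodMk contDiff_id)).contDiffOn (FF_equiv N t).mem
    (fun _ hv => HH_Q N t hv)
  contMDiff_invFun := desc_smooth_real (contDiff_GG N t).contDiffOn (GG_equiv N t).mem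
    (fun _ hv => dsc_Q (GG_equiv N t) hv)

/-- the set of biholomorphisms smoothly isotopic to the identity -/
def SS : Set C(M3, M3) := {g : C(M3, M3) |
          ∃ φ : Diffeomorph (𝓘(ℂ, E3)) (𝓘(ℂ, E3)) M3 M3 ((⊤ : ℕ∞) : WithTop ℕ∞),
            (⇑φ = ⇑g) ∧
            ∃ H : ℝ → M3 → M3,
              ContMDiff ((𝓘(ℝ, ℝ)).prod (𝓘(ℝ, E3)))
                (𝓘(ℝ, E3)) ((⊤ : ℕ∞) : WithTop ℕ∞)
                (fun p : ℝ × M3 => H p.1 p.2) ∧
              H 0 = id ∧ H 1 = ⇑g ∧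
              ∀ t : ℝ, ∃ ψ : Diffeomorph (𝓘(ℝ, E3)) (𝓘(ℝ, E3)) M3 M3 ((⊤ : ℕ∞) : WithTop ℕ∞),
                ⇑ψ = H t}

lemma exists_data (g : SS) : ∃ (F : E3 → E3) (a b : ℤ), IsLift F g.1 ∧
    ∀ v ∈ UU, F v 0 = v 0 + ((a : ℂ) + b * I) := by
  obtain ⟨φ, hφ, H, hH, h0, h1, -⟩ := g.2
  obtain ⟨F, hF⟩ := exists_lift hH.continuous h0
  rw [h1] at hF
  have hg : ContMDiff 𝓘(ℂ, E3) 𝓘(ℂ, E3) ((⊤ : ℕ∞) : WithTop ℕ∞) g.1 := by
    rw [← hφ]; exact φ.contMDiff
  obtain ⟨a, b, hab⟩ := hF.exists_int hg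
  exact ⟨F, a, b, hF, hab⟩

/-- the lift -/
noncomputable def LF (g : SS) : E3 → E3 := (exists_data g).choose
noncomputable def La (g : SS) : ℤ := (exists_data g).choose_spec.choose
noncomputable def Lb (g : SS) : ℤ := (exists_data g).choose_spec.choose_spec.choose
lemma LF_lift (g : SS) : IsLift (LF g) g.1 :=
  (exists_data g).choose_spec.choose_spec.choose_spec.1
lemma LF_eq (g : SS) : ∀ v ∈ UU, LF g v 0 = v 0 + ((La g : ℂ) + Lb g * I) :=
  (exists_data g).choose_spec.choose_spec.choose_spec.2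

lemma continuous_Lb : Continuous Lb := by
  rw [continuous_discrete_rng]
  intro b
  rw [isOpen_iff_mem_nhds]
  intro g₀ hg₀
  have h1 : IsOpen {g : SS | Near (LF g₀) g.1} := (isOpen_near (LF_lift g₀)).preimage continuous_subtype_val
  filter_upwards [h1.mem_nhds (near_self (LF_lift g₀))] with g hg
  have := (near_eq (LF_lift g₀) (LF_lift g) (LF_eq g₀) (LF_eq g) hg).2
  rw [mem_preimage, mem_singleton_iff] at hg₀ ⊢
  rw [this, hg₀]

/-- the translation as a point of `SS` -/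
noncomputable def sN (N : ℤ) : SS :=
  ⟨⟨shC N, (shC N).continuous⟩, shC N, rfl, HH N, HH_smooth N, HH_zero N, HH_one N,
    fun t => ⟨HD N t, rfl⟩⟩

lemma sN_lift (N : ℤ) : IsLift (sh N) (sN N).1 :=
  ⟨sh_equiv N, fun _ hv => (dsc_Q (sh_equiv N) hv).symm, (contDiff_sh N).continuous.continuousOn⟩

lemma Lb_sN (N : ℤ) : Lb (sN N) = N := by
  refine (near_eq (sN_lift N) (LF_lift (sN N)) (a₀ := 0) (b₀ := N) ?_ (LF_eq (sN N))
    (near_self (sN_lift N))).2
  intro v _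
  simp

theorem infinite_components : Infinite (ConnectedComponents SS) := by
  apply Infinite.of_surjective (continuous_Lb.connectedComponentsLift)
  intro N
  exact ⟨(sN N : SS), by rw [Continuous.connectedComponentsLift_apply_coe, Lb_sN]⟩

end Pool.Agent.H676R3
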