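import Pool.Agent.H676R3.Desc

set_option autoImplicit false
set_option linter.unusedSectionVars false
set_option linter.unusedSimpArgs false
open scoped Manifold ContDiff Topology ComplexConjugate
open Set Complex

namespace Pool.Agent.H676R3

/-- `exp (2 π i r)` -/
noncomputable def ee (r : ℝ) : ℂ := cexp (2 * Real.pi * r * I)

lemma ee_add (r s : ℝ) : ee (r + s) = ee r * ee s := by
  rw [ee, ee, ee, ← Complex.exp_add]; congr 1; push_cast; ring

lemma ee_int (n : ℤ) : ee (n : ℝ) = 1 := by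
  rw [ee, ← exp_int_two_pi_I n]; congr 1

lemma ee_zero : ee 0 = 1 := by simp [ee]

lemma ee_neg_mul (r : ℝ) : ee (-r) * ee r = 1 := by
  rw [← ee_add, neg_add_cancel, ee_zero]

lemma conj_ee (r : ℝ) : conj (ee r) = ee (-r) := by
  rw [ee, ee, ← Complex.exp_conj]; congr 1
  simp only [map_mul, conj_ofReal, conj_I, map_ofNat]; push_cast; ring

lemma contDiff_ee : ContDiff ℝ ((⊤ : ℕ∞) : WithTop ℕ∞) ee := by
  unfold ee
  have h1 : ContDiff ℝ ((⊤ : ℕ∞) : WithTop ℕ∞) (fun r : ℝ => (2 * Real.pi * r * I : ℂ)) :=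
    (contDiff_const.mul Complex.ofRealCLM.contDiff).mul contDiff_const
  exact h1.cexp

/-- the untwisting function -/
noncomputable def uu (y : ℝ) : ℂ := ee (y * (y - 1) / 2)

lemma int_half (n : ℤ) : ∃ k : ℤ, (n : ℝ) * (n - 1) / 2 = k := by
  obtain ⟨k, hk⟩ := Int.even_mul_pred_self n
  refine ⟨k, ?_⟩
  have : ((n * (n - 1) : ℤ) : ℝ) = ((k + k : ℤ) : ℝ) := by rw [hk]
  push_cast at this
  rw [this]; ring

lemma uu_add_int (y : ℝ) (n : ℤ) : uu (y + n) = uu y * ee (n * y) := by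
  obtain ⟨k, hk⟩ := int_half n
  rw [uu, uu]
  have : (y + n) * (y + n - 1) / 2 = y * (y - 1) / 2 + n * y + k := by rw [← hk]; ring
  rw [this, ee_add, ee_add, ee_int, mul_one]

lemma contDiff_uu : ContDiff ℝ ((⊤ : ℕ∞) : WithTop ℕ∞) uu := by
  unfold uu
  exact contDiff_ee.comp (by fun_prop)

lemma uu_conj (y : ℝ) : uu y * conj (uu y) = 1 := by
  rw [uu, conj_ee, mul_comm, ee_neg_mul]

/-- real parameters of the isotopy -/
noncomputable def cs (t : ℝ) : ℝ := Real.cos (Real.pi * t / 2)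
noncomputable def sn (t : ℝ) : ℝ := Real.sin (Real.pi * t / 2)

lemma cs_sn (t : ℝ) : cs t ^ 2 + sn t ^ 2 = 1 := Real.cos_sq_add_sin_sq _

noncomputable def al (N : ℤ) (t y : ℝ) : ℂ := (cs t : ℂ) ^ 2 + (sn t : ℂ) ^ 2 * ee (-(N * y))
noncomputable def be (N : ℤ) (t y : ℝ) : ℂ := (sn t : ℂ) * (cs t : ℂ) * (ee (-(N * y)) - 1)

lemma al_be (N : ℤ) (t y : ℝ) :
    al N t y * conj (al N t y) + be N t y * conj (be N t y) = 1 := by
  have h : (cs t : ℂ) ^ 2 + (sn t : ℂ) ^ 2 = 1 := by exact_mod_cast cs_sn t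
  have h2 : ee (-(N * y)) * ee (N * y) = 1 := ee_neg_mul _
  simp only [al, be, map_add, map_mul, map_pow, conj_ofReal, map_sub, map_one, conj_ee, neg_neg]
  have h3 : ((cs t : ℂ) ^ 2 + (sn t : ℂ) ^ 2) ^ 2 = 1 := by rw [h]; ring
  linear_combination h3 + ((sn t : ℂ) ^ 4 + (sn t : ℂ) ^ 2 * (cs t : ℂ) ^ 2) * h2

noncomputable def PP (N : ℤ) (t y : ℝ) : ℂ := uu (y + N * t) * conj (uu y) * al N t y
noncomputable def RR (N : ℤ) (t y : ℝ) : ℂ := uu (y + N * t) * uu y * be N t y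

lemma PP_RR (N : ℤ) (t y : ℝ) :
    PP N t y * conj (PP N t y) + RR N t y * conj (RR N t y) = 1 := by
  have h1 := uu_conj (y + N * t)
  have h2 := uu_conj y
  have h3 := al_be N t y
  simp only [PP, RR, map_mul, conj_conj]
  calc _ = (uu (y + N * t) * conj (uu (y + N * t))) * (uu y * conj (uu y)) *
      (al N t y * conj (al N t y) + be N t y * conj (be N t y)) := by ring
    _ = 1 := by rw [h1, h2, h3]; ring

lemma al_add_int (N : ℤ) (t y : ℝ) (n : ℤ) : al N t (y + n) = al N t y := by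
  have : -(N * (y + n)) = -(N * y) + ((-(N * n) : ℤ) : ℝ) := by push_cast; ring
  rw [al, al, this, ee_add, ee_int, mul_one]

lemma be_add_int (N : ℤ) (t y : ℝ) (n : ℤ) : be N t (y + n) = be N t y := by
  have : -(N * (y + n)) = -(N * y) + ((-(N * n) : ℤ) : ℝ) := by push_cast; ring
  rw [be, be, this, ee_add, ee_int, mul_one]

lemma PP_add_int (N : ℤ) (t y : ℝ) (n : ℤ) :
    PP N t (y + n) = PP N t y * ee (n * (N * t)) := by
  rw [PP, PP, al_add_int, show y + (n : ℝ) + N * t = (y + N * t) + n by ring, uu_add_int, uu_add_int,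
    map_mul, conj_ee, mul_add, ee_add]
  linear_combination (uu (y + N * t) * ee (n * (N * t)) * conj (uu y) * al N t y) *
    (ee_neg_mul (n * y))

lemma RR_add_int (N : ℤ) (t y : ℝ) (n : ℤ) :
    RR N t (y + n) = RR N t y * (ee (n * (N * t)) * ee (2 * (n * y))) := by
  rw [RR, RR, be_add_int, show y + (n : ℝ) + N * t = (y + N * t) + n by ring, uu_add_int, uu_add_int,
    mul_add, ee_add, two_mul, ee_add]
  ring

/-- the isotopy on the universal cover -/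
noncomputable def FF (N : ℤ) (p : ℝ × E3) : E3 :=
  !₂[p.2 0 + (N : ℂ) * p.1 * I,
    PP N p.1 (p.2 0).im * p.2 1 - RR N p.1 (p.2 0).im * conj (p.2 2),
    PP N p.1 (p.2 0).im * p.2 2 + RR N p.1 (p.2 0).im * conj (p.2 1)]

/-- the inverse isotopy -/
noncomputable def GG (N : ℤ) (t : ℝ) (v : E3) : E3 :=
  !₂[v 0 - (N : ℂ) * t * I,
    conj (PP N t ((v 0).im - N * t)) * v 1 + RR N t ((v 0).im - N * t) * conj (v 2),
    conj (PP N t ((v 0).im - N * t)) * v 2 - RR N t ((v 0).im - N * t) * conj (v 1)]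

@[simp] lemma FF_0 (N : ℤ) (t : ℝ) (v : E3) : FF N (t, v) 0 = v 0 + (N : ℂ) * t * I := by simp [FF]
@[simp] lemma FF_1 (N : ℤ) (t : ℝ) (v : E3) :
    FF N (t, v) 1 = PP N t (v 0).im * v 1 - RR N t (v 0).im * conj (v 2) := by simp [FF]
@[simp] lemma FF_2 (N : ℤ) (t : ℝ) (v : E3) :
    FF N (t, v) 2 = PP N t (v 0).im * v 2 + RR N t (v 0).im * conj (v 1) := by simp [FF]
@[simp] lemma GG_0 (N : ℤ) (t : ℝ) (v : E3) : GG N t v 0 = v 0 - (N : ℂ) * t * I := by simp [GG]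
@[simp] lemma GG_1 (N : ℤ) (t : ℝ) (v : E3) :
    GG N t v 1 = conj (PP N t ((v 0).im - N * t)) * v 1 + RR N t ((v 0).im - N * t) * conj (v 2) := by
  simp [GG]
@[simp] lemma GG_2 (N : ℤ) (t : ℝ) (v : E3) :
    GG N t v 2 = conj (PP N t ((v 0).im - N * t)) * v 2 - RR N t ((v 0).im - N * t) * conj (v 1) := by
  simp [GG]

lemma im_FF_0 (N : ℤ) (t : ℝ) (v : E3) : (FF N (t, v) 0).im = (v 0).im + N * t := by simp
lemma im_GG_0 (N : ℤ) (t : ℝ) (v : E3) : (GG N t v 0).im = (v 0).im - N * t := by simp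

lemma GG_FF (N : ℤ) (t : ℝ) (v : E3) : GG N t (FF N (t, v)) = v := by
  have h := PP_RR N t (v 0).im
  apply E3_ext
  · simp
  · rw [GG_1, im_FF_0, add_sub_cancel_right, FF_1, FF_2, map_add, map_mul, map_mul, conj_conj]
    linear_combination (v 1) * h
  · rw [GG_2, im_FF_0, add_sub_cancel_right, FF_1, FF_2, map_sub, map_mul, map_mul, conj_conj]
    linear_combination (v 2) * h

lemma FF_GG (N : ℤ) (t : ℝ) (v : E3) : FF N (t, GG N t v) = v := by
  have h := PP_RR N t ((v 0).im - N * t)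
  apply E3_ext
  · simp
  · rw [FF_1, im_GG_0, GG_1, GG_2, map_sub, map_mul, map_mul, conj_conj, conj_conj]
    linear_combination (v 1) * h
  · rw [FF_2, im_GG_0, GG_1, GG_2, map_add, map_mul, map_mul, conj_conj, conj_conj]
    linear_combination (v 2) * h

lemma rho_eq (v : E3) : ((rho v : ℝ) : ℂ) = v 1 * conj (v 1) + v 2 * conj (v 2) := by
  rw [rho, Complex.mul_conj, Complex.mul_conj, Complex.normSq_eq_norm_sq, Complex.normSq_eq_norm_sq]
  push_cast; ring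

lemma rho_FF (N : ℤ) (t : ℝ) (v : E3) : rho (FF N (t, v)) = rho v := by
  have h := PP_RR N t (v 0).im
  have : ((rho (FF N (t, v)) : ℝ) : ℂ) = (rho v : ℝ) := by
    rw [rho_eq, rho_eq, FF_1, FF_2]
    simp only [map_add, map_sub, map_mul, conj_conj]
    linear_combination (v 1 * conj (v 1) + v 2 * conj (v 2)) * h
  exact_mod_cast this

lemma rho_GG (N : ℤ) (t : ℝ) (v : E3) : rho (GG N t v) = rho v := by
  rw [← rho_FF N t (GG N t v), FF_GG]

lemma mu_shift (g : Heis) (z : ℂ) (N : ℤ) (t : ℝ) :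
    mu g (z + (N : ℂ) * t * I) = mu g z * ee (g.n * (N * t)) := by
  rw [mu, mu, ee, ← Complex.exp_add]; congr 1; push_cast; ring

lemma conj_mu (g : Heis) (z : ℂ) : conj (mu g z) * ee (2 * (g.n * z.im)) = mu g z := by
  rw [mu, ← Complex.exp_conj, ee, ← Complex.exp_add]
  congr 1
  simp only [map_mul, map_add, conj_ofReal, map_ofNat, map_intCast]
  have : conj z = z - 2 * z.im * I := by
    apply Complex.ext <;> simp
    ring
  rw [this]; push_cast; ring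

lemma act_im (g : Heis) (v : E3) : (act g v 0).im = (v 0).im + g.n := by
  rw [act_0, add_im, tr_im]

lemma FF_act (N : ℤ) (t : ℝ) (g : Heis) (v : E3) : FF N (t, act g v) = act g (FF N (t, v)) := by
  have h1 := mu_shift g (v 0) N t
  have h2 := conj_mu g (v 0)
  apply E3_ext
  · simp; ring
  · rw [act_1, FF_1, FF_1, FF_0, act_im, act_1, act_2, PP_add_int, RR_add_int, h1, map_mul]
    linear_combination (-RR N t (v 0).im * ee (g.n * (N * t)) * conj (v 2)) * h2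
  · rw [act_2, FF_2, FF_2, FF_0, act_im, act_1, act_2, PP_add_int, RR_add_int, h1, map_mul]
    linear_combination (RR N t (v 0).im * ee (g.n * (N * t)) * conj (v 1)) * h2

lemma GG_act (N : ℤ) (t : ℝ) (g : Heis) (v : E3) : GG N t (act g v) = act g (GG N t v) := by
  have h := FF_act N t g (GG N t v)
  rw [FF_GG] at h
  rw [← h, GG_FF]

lemma FF_equiv (N : ℤ) (t : ℝ) : Equiv1 (fun v => FF N (t, v)) :=
  ⟨fun v hv => by rw [mem_UU] at *; rwa [rho_FF], fun g v _ => FF_act N t g v⟩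

lemma GG_equiv (N : ℤ) (t : ℝ) : Equiv1 (GG N t) :=
  ⟨fun v hv => by rw [mem_UU] at *; rwa [rho_GG], fun g v _ => GG_act N t g v⟩

/-- the translation by `N i` -/
noncomputable def sh (N : ℤ) (v : E3) : E3 := !₂[v 0 + (N : ℂ) * I, v 1, v 2]

@[simp] lemma sh_0 (N : ℤ) (v : E3) : sh N v 0 = v 0 + (N : ℂ) * I := by simp [sh]
@[simp] lemma sh_1 (N : ℤ) (v : E3) : sh N v 1 = v 1 := by simp [sh]
@[simp] lemma sh_2 (N : ℤ) (v : E3) : sh N v 2 = v 2 := by simp [sh]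

lemma PP_zero (N : ℤ) (y : ℝ) : PP N 0 y = 1 := by
  simp [PP, al, cs, sn, uu_conj]
lemma RR_zero (N : ℤ) (y : ℝ) : RR N 0 y = 0 := by
  simp [RR, be, cs, sn]
lemma RR_one (N : ℤ) (y : ℝ) : RR N 1 y = 0 := by
  simp [RR, be, cs, sn]
lemma PP_one (N : ℤ) (y : ℝ) : PP N 1 y = 1 := by
  have h : al N 1 y = ee (-(N * y)) := by simp [al, cs, sn]
  rw [PP, h, mul_one, uu_add_int]
  linear_combination (ee (-(N * y)) * ee (N * y)) * uu_conj y + ee_neg_mul (N * y)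

lemma FF_zero (N : ℤ) (v : E3) : FF N (0, v) = v := by
  apply E3_ext
  · simp
  · rw [FF_1, PP_zero, RR_zero]; ring
  · rw [FF_2, PP_zero, RR_zero]; ring

lemma FF_one (N : ℤ) (v : E3) : FF N (1, v) = sh N v := by
  apply E3_ext
  · simp
  · rw [FF_1, PP_one, RR_one, sh_1]; ring
  · rw [FF_2, PP_one, RR_one, sh_2]; ring

lemma sh_equiv (N : ℤ) : Equiv1 (sh N) := by
  have h : sh N = fun v => FF N (1, v) := by ext1 v; exact (FF_one N v).symm
  rw [h]; exact FF_equiv N 1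

lemma contDiff_cs : ContDiff ℝ ((⊤ : ℕ∞) : WithTop ℕ∞) cs := by unfold cs; fun_prop
lemma contDiff_sn : ContDiff ℝ ((⊤ : ℕ∞) : WithTop ℕ∞) sn := by unfold sn; fun_prop

section smooth
variable {E' : Type} [NormedAddCommGroup E'] [NormedSpace ℝ E']

lemma contDiff_ofReal {f : E' → ℝ} (hf : ContDiff ℝ ((⊤ : ℕ∞) : WithTop ℕ∞) f) :
    ContDiff ℝ ((⊤ : ℕ∞) : WithTop ℕ∞) (fun x => (f x : ℂ)) :=
  Complex.ofRealCLM.contDiff.comp hf

lemma contDiff_conj' {f : E' → ℂ} (hf : ContDiff ℝ ((⊤ : ℕ∞) : WithTop ℕ∞) f) :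
    ContDiff ℝ ((⊤ : ℕ∞) : WithTop ℕ∞) (fun x => conj (f x)) :=
  Complex.conjCLE.contDiff.comp hf

lemma contDiff_PP (N : ℤ) {t y : E' → ℝ} (ht : ContDiff ℝ ((⊤ : ℕ∞) : WithTop ℕ∞) t)
    (hy : ContDiff ℝ ((⊤ : ℕ∞) : WithTop ℕ∞) y) :
    ContDiff ℝ ((⊤ : ℕ∞) : WithTop ℕ∞) (fun x => PP N (t x) (y x)) := by
  unfold PP al
  refine ((contDiff_uu.comp ?_).mul (contDiff_conj' (contDiff_uu.comp hy))).mul
    (((contDiff_ofReal (contDiff_cs.comp ht)).pow 2).add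
      (((contDiff_ofReal (contDiff_sn.comp ht)).pow 2).mul (contDiff_ee.comp ?_)))
  · exact hy.add (contDiff_const.mul ht)
  · exact (contDiff_const.mul hy).neg

lemma contDiff_RR (N : ℤ) {t y : E' → ℝ} (ht : ContDiff ℝ ((⊤ : ℕ∞) : WithTop ℕ∞) t)
    (hy : ContDiff ℝ ((⊤ : ℕ∞) : WithTop ℕ∞) y) :
    ContDiff ℝ ((⊤ : ℕ∞) : WithTop ℕ∞) (fun x => RR N (t x) (y x)) := by
  unfold RR be
  refine ((contDiff_uu.comp ?_).mul (contDiff_uu.comp hy)).mul
    (((contDiff_ofReal (contDiff_sn.comp ht)).mul (contDiff_ofReal (contDiff_cs.comp ht))).mul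
      ((contDiff_ee.comp ?_).sub contDiff_const))
  · exact hy.add (contDiff_const.mul ht)
  · exact (contDiff_const.mul hy).neg

end smooth

lemma contDiff_coord (i : Fin 3) :
    ContDiff ℝ ((⊤ : ℕ∞) : WithTop ℕ∞) (fun v : E3 => v i) :=
  (contDiff_piLp (𝕜 := ℝ) 2).1 contDiff_id i

lemma contDiff_FF (N : ℤ) : ContDiff ℝ ((⊤ : ℕ∞) : WithTop ℕ∞) (FF N) := by
  rw [contDiff_piLp 2]
  have c0 : ContDiff ℝ ((⊤ : ℕ∞) : WithTop ℕ∞) (fun p : ℝ × E3 => p.2 0) :=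
    (contDiff_coord 0).comp contDiff_snd
  have c1 : ContDiff ℝ ((⊤ : ℕ∞) : WithTop ℕ∞) (fun p : ℝ × E3 => p.2 1) :=
    (contDiff_coord 1).comp contDiff_snd
  have c2 : ContDiff ℝ ((⊤ : ℕ∞) : WithTop ℕ∞) (fun p : ℝ × E3 => p.2 2) :=
    (contDiff_coord 2).comp contDiff_snd
  have ct : ContDiff ℝ ((⊤ : ℕ∞) : WithTop ℕ∞) (fun p : ℝ × E3 => p.1) := contDiff_fst
  have cy : ContDiff ℝ ((⊤ : ℕ∞) : WithTop ℕ∞) (fun p : ℝ × E3 => (p.2 0).im) :=
    Complex.imCLM.contDiff.comp c0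
  intro i
  fin_cases i
  · simp only [Fin.zero_eta, FF_0]
    exact c0.add ((contDiff_const.mul (contDiff_ofReal ct)).mul contDiff_const)
  · simp only [Fin.mk_one, FF_1]
    exact ((contDiff_PP N ct cy).mul c1).sub ((contDiff_RR N ct cy).mul (contDiff_conj' c2))
  · simp only [Fin.reduceFinMk, FF_2]
    exact ((contDiff_PP N ct cy).mul c2).add ((contDiff_RR N ct cy).mul (contDiff_conj' c1))

lemma contDiff_GG (N : ℤ) (t : ℝ) : ContDiff ℝ ((⊤ : ℕ∞) : WithTop ℕ∞) (GG N t) := by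
  rw [contDiff_piLp 2]
  have c0 := contDiff_coord 0
  have c1 := contDiff_coord 1
  have c2 := contDiff_coord 2
  have cy : ContDiff ℝ ((⊤ : ℕ∞) : WithTop ℕ∞) (fun v : E3 => (v 0).im - N * t) :=
    (Complex.imCLM.contDiff.comp c0).sub contDiff_const
  have ct : ContDiff ℝ ((⊤ : ℕ∞) : WithTop ℕ∞) (fun _ : E3 => t) := contDiff_const
  intro i
  fin_cases i
  · simp only [Fin.zero_eta, GG_0]
    exact c0.sub contDiff_const
  · simp only [Fin.mk_one, GG_1]
    exact ((contDiff_conj' (contDiff_PP N ct cy)).mul c1).add ((contDiff_RR N ct cy).mul (contDiff_conj' c2))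
  · simp only [Fin.reduceFinMk, GG_2]
    exact ((contDiff_conj' (contDiff_PP N ct cy)).mul c2).sub ((contDiff_RR N ct cy).mul (contDiff_conj' c1))

end Pool.Agent.H676R3
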