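import Pool.Agent.H676R3.Tens2

set_option autoImplicit false
set_option linter.unusedSectionVars false
set_option linter.unusedSimpArgs false
open IsLocalRing

namespace Pool.Agent.H676R3.Tens

universe u

section L
variable {R : Type u} [CommRing R] {P : Type u} [AddCommGroup P] [Module R P]

/-- additivity along `A ≤ B ≤ P` -/
theorem length_quot_add {A B : Submodule R P} (h : A ≤ B) :
    Module.length R (P ⧸ A) = Module.length R (B ⧸ A.comap B.subtype) + Module.length R (P ⧸ B) := by
  refine Module.length_eq_add_of_exact (Submodule.mapQ (A.comap B.subtype) A B.subtype le_rfl)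
    (Submodule.factor h) ?_ (Submodule.factor_surjective h) ?_
  · rw [← LinearMap.ker_eq_bot, Submodule.ker_mapQ]
    exact Submodule.mkQ_map_self _
  · intro y
    obtain ⟨y, rfl⟩ := Submodule.mkQ_surjective _ y
    constructor
    · intro hy
      have hy' : y ∈ B := by
        rw [Submodule.factor_mk] at hy
        exact (Submodule.Quotient.mk_eq_zero B).1 hy
      exact ⟨Submodule.Quotient.mk ⟨y, hy'⟩, rfl⟩
    · rintro ⟨z, hz⟩
      obtain ⟨z, rfl⟩ := Submodule.mkQ_surjective _ z
      rw [← hz]
      show (Submodule.factor h) (Submodule.mkQ A (z : P)) = 0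
      rw [Submodule.factor_mk]
      exact (Submodule.Quotient.mk_eq_zero B).2 z.2

/-- image of an injective endomorphism -/
theorem length_quot_map (Y : P →ₗ[R] P) (hY : Function.Injective Y) (L : Submodule R P) :
    Module.length R (P ⧸ L.map Y) = Module.length R (P ⧸ L) +
      Module.length R (P ⧸ LinearMap.range Y) := by
  have hle : L.map Y ≤ LinearMap.range Y := LinearMap.map_le_range
  have hle' : L ≤ (L.map Y).comap Y := Submodule.le_comap_map _ _
  refine Module.length_eq_add_of_exact (Submodule.mapQ L (L.map Y) Y hle')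
    (Submodule.factor hle) ?_ (Submodule.factor_surjective hle) ?_
  · rw [← LinearMap.ker_eq_bot, Submodule.ker_mapQ]
    rw [Submodule.comap_map_eq_of_injective hY, Submodule.mkQ_map_self]
  · intro y
    obtain ⟨y, rfl⟩ := Submodule.mkQ_surjective _ y
    constructor
    · intro hy
      rw [Submodule.factor_mk] at hy
      obtain ⟨z, rfl⟩ := (Submodule.Quotient.mk_eq_zero _).1 hy
      exact ⟨Submodule.Quotient.mk z, rfl⟩
    · rintro ⟨z, hz⟩
      obtain ⟨z, rfl⟩ := Submodule.mkQ_surjective _ z
      rw [← hz]
      show (Submodule.factor hle) (Submodule.mkQ _ (Y z)) = 0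
      rw [Submodule.factor_mk]
      exact (Submodule.Quotient.mk_eq_zero _).2 ⟨z, rfl⟩

theorem length_sub_quot (Y : P →ₗ[R] P) (hY : Function.Injective Y) (L : Submodule R P)
    (hL : Module.length R (P ⧸ L) ≠ ⊤) (hYL : L.map Y ≤ L) :
    Module.length R (L ⧸ (L.map Y).comap L.subtype) = Module.length R (P ⧸ LinearMap.range Y) := by
  have h1 := length_quot_add hYL
  rw [length_quot_map Y hY L, add_comm] at h1
  exact (ENat.add_left_injective_of_ne_top hL h1).symm

end L

section D
variable {R : Type u} [CommRing R] [IsDomain R] [IsLocalRing R] [IsNoetherianRing R]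

theorem length_quot_ne_top [Ring.KrullDimLE 1 R] (I : Ideal R) (hI : I ≠ ⊥) :
    Module.length R (R ⧸ I) ≠ ⊤ := by
  have h0 : Ring.KrullDimLE 0 (R ⧸ I) := by
    refine Ring.KrullDimLE.mk₀ fun J hJ => ?_
    have hp : (J.comap (Ideal.Quotient.mk I)).IsPrime := inferInstance
    have hne : J.comap (Ideal.Quotient.mk I) ≠ ⊥ := by
      intro h
      apply hI
      rw [eq_bot_iff, ← h]
      intro x hx
      rw [Ideal.mem_comap, Ideal.Quotient.eq_zero_iff_mem.2 hx]
      exact J.zero_mem
    have hmax := Ring.krullDimLE_one_iff_of_noZeroDivisors.1 (inferInstance : Ring.KrullDimLE 1 R) _ hne hp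
    have := Ideal.map_eq_top_or_isMaximal_of_surjective (Ideal.Quotient.mk I)
      Ideal.Quotient.mk_surjective hmax
    rw [Ideal.map_comap_of_surjective _ Ideal.Quotient.mk_surjective] at this
    rcases this with h | h
    · exact absurd h hJ.ne_top
    · exact h
  have h1 : IsArtinianRing (R ⧸ I) := isArtinianRing_iff_krullDimLE_zero.2 h0
  have h2 : IsArtinian R (R ⧸ I) := isArtinian_of_surjective_algebraMap
    (R := R ⧸ I) (S := R) (M := R ⧸ I) Ideal.Quotient.mk_surjective
  exact Module.length_ne_top

/-- number of generators of an ideal bounded by the length of `I / mI` -/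
theorem length_quot_smul (I : Ideal R) :
    Module.length R (I ⧸ ((maximalIdeal R) • (⊤ : Submodule R I))) = I.spanFinrank := by
  rw [IsLocalRing.spanFinrank_eq_finrank_quotient I (IsNoetherian.noetherian I)]
  rw [Module.length_eq_of_surjective (R := R ⧸ maximalIdeal R) (S := R)
    (M := (I ⧸ ((maximalIdeal R) • (⊤ : Submodule R I)))) Ideal.Quotient.mk_surjective]
  let _ : Field (R ⧸ maximalIdeal R) := Ideal.Quotient.field _
  have : Module.Finite (R ⧸ maximalIdeal R) (I ⧸ ((maximalIdeal R) • (⊤ : Submodule R I))) :=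
    Module.Finite.of_restrictScalars_finite R _ _
  exact Module.length_eq_finrank (R ⧸ maximalIdeal R) _

/-- an ideal with `spanFinrank ≤ N` has `N` generators -/
theorem exists_gens {N : ℕ} (I : Ideal R) (h : I.spanFinrank ≤ N) :
    ∃ g : Fin N → R, I = Ideal.span (Set.range g) := by
  have hfg : I.FG := IsNoetherian.noetherian I
  have hf := Submodule.FG.finite_generators hfg
  have hcard : hf.toFinset.card = I.spanFinrank := by
    rw [← Set.ncard_eq_toFinset_card _ hf]
    exact Submodule.FG.generators_ncard hfg
  have e : Fin (hf.toFinset.card) ≃ hf.toFinset := (hf.toFinset.equivFin).symm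
  refine ⟨fun i => if hi : (i : ℕ) < hf.toFinset.card then (e ⟨i, hi⟩ : R) else 0, ?_⟩
  apply le_antisymm
  · refine (Submodule.span_generators I).ge.trans (Submodule.span_le.2 ?_)
    intro x hx
    apply Ideal.subset_span
    have hx' : x ∈ hf.toFinset := hf.mem_toFinset.2 hx
    refine ⟨⟨e.symm ⟨x, hx'⟩, lt_of_lt_of_le (e.symm ⟨x, hx'⟩).2 (hcard.trans_le h)⟩, ?_⟩
    simp
  · rw [Ideal.span_le]
    rintro _ ⟨i, rfl⟩
    by_cases hi : (i : ℕ) < hf.toFinset.card
    · simp only [hi, dif_pos]
      have : (e ⟨i, hi⟩ : R) ∈ Submodule.generators I := hf.mem_toFinset.1 (e ⟨i, hi⟩).2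
      have h2 : (e ⟨i, hi⟩ : R) ∈ Submodule.span R (Submodule.generators I) := Submodule.subset_span this
      rwa [Submodule.span_generators I] at h2
    · simp only [hi, dif_neg, not_false_iff]
      exact I.zero_mem

/-- comparison with an endomorphism with image in `m P` -/
theorem spanFinrank_le_of_mul [Ring.KrullDimLE 1 R] {x : R} (hx : x ∈ maximalIdeal R) (hx0 : x ≠ 0)
    (I : Ideal R) : (I.spanFinrank : ℕ∞) ≤ Module.length R (R ⧸ Ideal.span {x}) := by
  by_cases hI : I = ⊥
  · subst hI
    simp
  · have hinj : Function.Injective (LinearMap.lsmul R R x) := by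
      intro a b hab
      simpa [hx0] using hab
    have hle : (Submodule.map (LinearMap.lsmul R R x) I) ≤ I := by
      rintro _ ⟨a, ha, rfl⟩
      exact I.mul_mem_left x ha
    have h1 := length_sub_quot (R := R) (P := R) (LinearMap.lsmul R R x) hinj I (length_quot_ne_top I hI) hle
    have hr : LinearMap.range (LinearMap.lsmul R R x) = Ideal.span {x} := by
      ext y
      rw [LinearMap.mem_range, Ideal.mem_span_singleton']
      constructor
      · rintro ⟨a, ha⟩
        exact ⟨a, by rw [← ha]; simp [mul_comm]⟩
      · rintro ⟨a, ha⟩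
        exact ⟨a, by rw [← ha]; simp [mul_comm]⟩
    rw [hr] at h1
    rw [← h1, ← length_quot_smul I]
    have hle2 : Submodule.comap (Submodule.subtype I) (Submodule.map (LinearMap.lsmul R R x) I) ≤
        (maximalIdeal R) • (⊤ : Submodule R I) := by
      rintro i ⟨j, hj, hij⟩
      have : i = x • (⟨j, hj⟩ : I) := by
        apply Subtype.ext
        exact hij.symm
      rw [this]
      exact Submodule.smul_mem_smul hx trivial
    exact Module.length_le_of_surjective (Submodule.factor hle2) (Submodule.factor_surjective hle2)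

theorem testExponent_of_length [Ring.KrullDimLE 1 R] {x : R} (hx : x ∈ maximalIdeal R) (hx0 : x ≠ 0)
    {e : ℕ} (he : Module.length R (R ⧸ Ideal.span {x}) ≤ e) : TestExponent R e := by
  refine testExponent_of_gens (N := e) (fun I => exists_gens I ?_) le_rfl
  exact_mod_cast (spanFinrank_le_of_mul hx hx0 I).trans he

end D

end Pool.Agent.H676R3.Tens
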