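import Pool.Agent.H676R3.Rigid

set_option autoImplicit false
set_option linter.unusedSectionVars false
set_option linter.unusedSimpArgs false
open scoped Manifold ContDiff Topology ComplexConjugate unitInterval
open Set Complex

namespace Pool.Agent.H676R3

/-- An equivariant lift of a self map of the quotient. -/
structure IsLift (F : E3 → E3) (g : M3 → M3) : Prop where
  equiv : Equiv1 F
  lifts : ∀ v ∈ UU, Q (F v) = g (Q v)
  cont : ContinuousOn F UU

lemma exists_lift {H : ℝ → M3 → M3} (hc : Continuous fun p : ℝ × M3 => H p.1 p.2) (h0 : H 0 = id) :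
    ∃ F : E3 → E3, IsLift F (H 1) := by
  have hcov := pr_cov.isCoveringMap
  have hHc : Continuous fun p : I × UT => H p.1 (pr p.2) :=
    hc.comp ((continuous_subtype_val.comp continuous_fst).prodMk (continuous_pr.comp continuous_snd))
  set Hc : C(I × UT, M3) := ⟨fun p => H p.1 (pr p.2), hHc⟩ with hHcdef
  have hH0 : ∀ a : UT, Hc (0, a) = pr ((ContinuousMap.id UT) a) := by
    intro a
    show H ((0 : I) : ℝ) (pr a) = pr a
    rw [Set.Icc.coe_zero, h0]; rfl
  set L := hcov.liftHomotopy Hc (ContinuousMap.id UT) hH0 with hL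
  have hlift : ∀ s a, pr (L (s, a)) = H s (pr a) := by
    intro s a
    have := congrFun (hcov.liftHomotopy_lifts Hc (ContinuousMap.id UT) hH0) (s, a)
    exact this
  have hzero : ∀ a, L (0, a) = a := fun a => hcov.liftHomotopy_zero Hc (ContinuousMap.id UT) hH0 a
  have hequiv : ∀ (g : Heis) (s : I) (a : UT), L (s, g • a) = g • L (s, a) := by
    intro g s a
    have c1 : Continuous fun s : I => L (s, g • a) := L.continuous.comp (by fun_prop)
    have c2 : Continuous fun s : I => g • L (s, a) :=
      (continuous_const_smul g).comp (L.continuous.comp (by fun_prop))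
    have he : pr ∘ (fun s : I => L (s, g • a)) = pr ∘ (fun s : I => g • L (s, a)) := by
      ext1 s
      simp only [Function.comp_apply]
      rw [hlift, pr_smul, pr_smul, hlift]
    have := hcov.eq_of_comp_eq c1 c2 he 0 (by simp only [hzero])
    exact congrFun this s
  refine ⟨fun v => (L (1, coeU.symm v) : E3), ?_, ?_, ?_⟩
  · constructor
    · intro v _; exact (L (1, coeU.symm v)).2
    · intro g v hv
      have e1 : coeU.symm (act g v) = g • (⟨v, hv⟩ : UT) := coeU_symm_mk (act_mem g hv)
      simp only [e1, coeU_symm_mk hv, hequiv]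
      rfl
  · intro v hv
    simp only [Q_coe, hlift, Q_mk hv, coeU_symm_mk hv, Set.Icc.coe_one]
  · have h1 : ContinuousOn coeU.symm (UU : Set E3) := by
      have := coeU.continuousOn_symm
      rwa [coeU_target] at this
    have h2 : Continuous fun x : UT => (L (1, x) : E3) :=
      continuous_subtype_val.comp (L.continuous.comp (by fun_prop))
    exact h2.comp_continuousOn h1

lemma IsLift.differentiableOn {F : E3 → E3} {g : M3 → M3} (h : IsLift F g)
    (hg : ContMDiff 𝓘(ℂ, E3) 𝓘(ℂ, E3) ((⊤ : ℕ∞) : WithTop ℕ∞) g) : DifferentiableOn ℂ F UU := by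
  intro v hv
  set x : UT := ⟨F v, h.equiv.mem v hv⟩ with hx
  have hQv : g (Q v) = pr x := by rw [← h.lifts v hv, Q_mk (h.equiv.mem v hv)]
  have h1 : ContMDiffAt 𝓘(ℂ, E3) 𝓘(ℂ, E3) ((⊤ : ℕ∞) : WithTop ℕ∞) (fun u => ch x (g (Q u))) v := by
    have a1 := Q_smooth_complex hv
    have a2 := hg (Q v)
    have a3 := ch_smooth_complex x
    rw [← hQv] at a3
    exact ContMDiffAt.comp (g := ch x) (f := fun u => g (Q u)) v a3
      (ContMDiffAt.comp (g := g) (f := Q) v a2 a1)
  rw [contMDiffAt_iff_contDiffAt] at h1
  have h2 : DifferentiableAt ℂ (fun u => ch x (g (Q u))) v := h1.differentiableAt (by simp)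
  apply DifferentiableAt.differentiableWithinAt
  refine h2.congr_of_eventuallyEq ?_
  have hcat : ContinuousAt F v := h.cont.continuousAt (UU.isOpen.mem_nhds hv)
  have hFt : F v ∈ (ch x).target := mem_ch_target x
  filter_upwards [hcat.preimage_mem_nhds ((ch x).open_target.mem_nhds hFt), UU.isOpen.mem_nhds hv]
    with u hu huU
  have : (ch x) ((ch x).symm (F u)) = F u := (ch x).right_inv hu
  rw [ch_symm, h.lifts u huU] at this
  exact this.symm

/-- The rotation number of a lift. -/
lemma IsLift.exists_int {F : E3 → E3} {g : M3 → M3} (h : IsLift F g)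
    (hg : ContMDiff 𝓘(ℂ, E3) 𝓘(ℂ, E3) ((⊤ : ℕ∞) : WithTop ℕ∞) g) :
    ∃ a b : ℤ, ∀ v ∈ UU, F v 0 = v 0 + ((a : ℂ) + b * Complex.I) :=
  rigid h.equiv (h.differentiableOn hg)

/-- the neighbourhood relation on the universal cover -/
def Nb (v w : E3) : Prop := ‖w 0 - v 0‖ < 1 / 4 ∧ rho w < Real.exp (Real.pi / 4) * rho v ∧
  rho v < Real.exp (Real.pi / 4) * rho w

lemma isOpen_Nb : IsOpen {p : E3 × E3 | Nb p.1 p.2} := by
  have c0 : Continuous fun p : E3 × E3 => ‖p.2 0 - p.1 0‖ := by fun_prop
  have c1 : Continuous fun p : E3 × E3 => rho p.1 := continuous_rho.comp continuous_fst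
  have c2 : Continuous fun p : E3 × E3 => rho p.2 := continuous_rho.comp continuous_snd
  exact (isOpen_lt c0 continuous_const).inter ((isOpen_lt c2 (continuous_const.mul c1)).inter
    (isOpen_lt c1 (continuous_const.mul c2)))

lemma Nb_self {v : E3} (hv : v ∈ UU) : Nb v v := by
  have h := mem_UU.1 hv
  have h1 : 1 < Real.exp (Real.pi / 4) := Real.one_lt_exp_iff.2 (by have := Real.pi_pos; positivity)
  refine ⟨by simp, ?_, ?_⟩ <;> nlinarith

lemma Nb_unique {v w : E3} {a b : Heis} (hv : v ∈ UU) (hw : w ∈ UU)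
    (h1 : Nb v (act a w)) (h2 : Nb v (act b w)) : a = b := by
  obtain ⟨p1, p2, p3⟩ := h1
  obtain ⟨q1, q2, q3⟩ := h2
  have hrv := mem_UU.1 hv
  have hrw := mem_UU.1 hw
  rw [act_0] at p1 q1
  have hd : ‖tr a - tr b‖ < 1 / 2 := by
    have : tr a - tr b = (w 0 + tr a - v 0) - (w 0 + tr b - v 0) := by ring
    rw [this]
    exact (norm_sub_le _ _).trans_lt (by linarith)
  have hm : a.m = b.m := by
    have := (Complex.abs_re_le_norm (tr a - tr b)).trans_lt hd
    rw [sub_re, tr_re, tr_re] at this
    have h3 : |a.m - b.m| < 1 := by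
      have : |((a.m - b.m : ℤ) : ℝ)| < 1 := by push_cast; linarith
      exact_mod_cast this
    have := Int.abs_lt_one_iff.1 h3
    omega
  have hn : a.n = b.n := by
    have := (Complex.abs_im_le_norm (tr a - tr b)).trans_lt hd
    rw [sub_im, tr_im, tr_im] at this
    have h3 : |a.n - b.n| < 1 := by
      have : |((a.n - b.n : ℤ) : ℝ)| < 1 := by push_cast; linarith
      exact_mod_cast this
    have := Int.abs_lt_one_iff.1 h3
    omega
  have hk : a.k = b.k := by
    rw [rho_act] at p2 p3 q2 q3
    rw [hn] at p2 p3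
    set s : ℝ := b.n * (w 0).re with hs
    set E := Real.exp (Real.pi / 4) with hE
    have hEpos : 0 < E := Real.exp_pos _
    -- a vs b
    have hab : Real.exp (4 * Real.pi * (s + a.k)) < E * E * Real.exp (4 * Real.pi * (s + b.k)) := by
      have h3 : Real.exp (4 * Real.pi * (s + a.k)) * rho w <
          (E * E * Real.exp (4 * Real.pi * (s + b.k))) * rho w := by
        calc _ < E * rho v := p2
          _ < E * (E * (Real.exp (4 * Real.pi * (s + b.k)) * rho w)) := by gcongr
          _ = _ := by ring
      exact lt_of_mul_lt_mul_right h3 hrw.le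
    have hba : Real.exp (4 * Real.pi * (s + b.k)) < E * E * Real.exp (4 * Real.pi * (s + a.k)) := by
      have h3 : Real.exp (4 * Real.pi * (s + b.k)) * rho w <
          (E * E * Real.exp (4 * Real.pi * (s + a.k))) * rho w := by
        calc _ < E * rho v := q2
          _ < E * (E * (Real.exp (4 * Real.pi * (s + a.k)) * rho w)) := by gcongr
          _ = _ := by ring
      exact lt_of_mul_lt_mul_right h3 hrw.le
    rw [hE, ← Real.exp_add, ← Real.exp_add, Real.exp_lt_exp] at hab hba
    have hpi := Real.pi_pos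
    have h4 : |a.k - b.k| < 1 := by
      have : |((a.k - b.k : ℤ) : ℝ)| < 1 := by
        push_cast
        rw [abs_lt]
        constructor
        · by_contra hcon
          push Not at hcon
          nlinarith
        · by_contra hcon
          push Not at hcon
          nlinarith
      exact_mod_cast this
    have := Int.abs_lt_one_iff.1 h4
    omega
  ext <;> assumption

end Pool.Agent.H676R3
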