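import Pool.Agent.H676R3.Basic

set_option autoImplicit false
set_option linter.unusedSectionVars false
open scoped Manifold ContDiff Topology
open Set Complex

namespace Pool.Agent.H676R3

/-- The compact complex threefold. -/
noncomputable def M3 : Type := MulAction.orbitRel.Quotient Heis UT

instance : TopologicalSpace M3 :=
  inferInstanceAs (TopologicalSpace (MulAction.orbitRel.Quotient Heis UT))

/-- the projection -/
noncomputable def pr : UT → M3 := Quotient.mk (MulAction.orbitRel Heis UT)

lemma pr_cov : IsQuotientCoveringMap pr Heis :=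
  isQuotientCoveringMap_quotientMk_of_properlyDiscontinuousSMul

instance : T2Space M3 :=
  inferInstanceAs (T2Space (Quotient (MulAction.orbitRel Heis UT)))

lemma pr_smul (g : Heis) (x : UT) : pr (g • x) = pr x := pr_cov.map_smul g

lemma pr_eq_iff {x y : UT} : pr x = pr y ↔ ∃ g : Heis, g • y = x := by
  rw [pr_cov.apply_eq_iff_mem_orbit]; rfl

lemma continuous_pr : Continuous pr := pr_cov.continuous

lemma isOpenMap_pr : IsOpenMap pr := pr_cov.isCoveringMap.isOpenMap

/-- local homeomorphism -/
lemma hl : IsLocalHomeomorph pr := pr_cov.isCoveringMap.isLocalHomeomorph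

lemma base_mem : (!₂[0, 1, 0] : E3) ∈ UU := by
  rw [mem_UU, rho]; simp

instance : Nonempty UT := ⟨⟨_, base_mem⟩⟩

/-- inclusion as an open partial homeomorphism -/
noncomputable def coeU : OpenPartialHomeomorph UT E3 :=
  UU.openPartialHomeomorphSubtypeCoe inferInstance

lemma coeU_apply (x : UT) : coeU x = (x : E3) := rfl
lemma coeU_source : coeU.source = univ := rfl
lemma coeU_target : coeU.target = (UU : Set E3) := by
  simp [coeU]

lemma coeU_symm_mk {v : E3} (hv : v ∈ UU) : coeU.symm v = ⟨v, hv⟩ := by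
  have h := coeU.left_inv (x := ⟨v, hv⟩) (by rw [coeU_source]; trivial)
  rwa [coeU_apply] at h

lemma coeU_symm_coe (x : UT) : coeU.symm (x : E3) = x := coeU_symm_mk x.2

/-- the projection as a total function on `ℂ³` -/
noncomputable def Q (v : E3) : M3 := pr (coeU.symm v)

lemma Q_mk {v : E3} (hv : v ∈ UU) : Q v = pr ⟨v, hv⟩ := by rw [Q, coeU_symm_mk hv]
lemma Q_coe (x : UT) : Q (x : E3) = pr x := by rw [Q, coeU_symm_coe]

lemma Q_act (g : Heis) {v : E3} (hv : v ∈ UU) : Q (act g v) = Q v := by
  rw [Q_mk hv, Q_mk (act_mem g hv)]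
  exact pr_smul g ⟨v, hv⟩

lemma Q_eq_iff {v w : E3} (hv : v ∈ UU) (hw : w ∈ UU) : Q v = Q w ↔ ∃ g : Heis, act g w = v := by
  rw [Q_mk hv, Q_mk hw, pr_eq_iff]
  constructor
  · rintro ⟨g, hg⟩; exact ⟨g, congrArg Subtype.val hg⟩
  · rintro ⟨g, hg⟩; exact ⟨g, Subtype.ext hg⟩

/-- charts -/
noncomputable def ch (x : UT) : OpenPartialHomeomorph M3 E3 := (hl.localInverseAt x).trans coeU

lemma ch_source (x : UT) : (ch x).source = (hl.localInverseAt x).source := by
  rw [ch, OpenPartialHomeomorph.trans_source, coeU_source, preimage_univ, inter_univ]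

lemma ch_apply (x : UT) (y : M3) : ch x y = (hl.localInverseAt x y : E3) := rfl

lemma ch_symm (x : UT) (v : E3) : (ch x).symm v = Q v := by
  rw [ch, OpenPartialHomeomorph.coe_trans_symm, Function.comp_apply, hl.localInverseAt_symm]; rfl

lemma ch_mem (x : UT) {y : M3} : ch x y ∈ UU := (hl.localInverseAt x y).2

lemma Q_ch (x : UT) {y : M3} (hy : y ∈ (ch x).source) : Q (ch x y) = y := by
  rw [← ch_symm x]; exact (ch x).left_inv hy

lemma pr_mem_ch_source (x : UT) : pr x ∈ (ch x).source := by
  rw [ch_source]; exact hl.apply_self_mem_localInverseAt_source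

lemma ch_pr (x : UT) : ch x (pr x) = (x : E3) := by
  rw [ch_apply, hl.localInverseAt_apply_self]

lemma target_subset (x : UT) {v : E3} (hv : v ∈ (ch x).target) : v ∈ UU := by
  have := (ch x).map_target hv
  rw [← (ch x).right_inv hv]; exact ch_mem x

lemma localInverse_eq_smul (x v : UT) (hv : pr v ∈ (hl.localInverseAt x).source) :
    ∃ g : Heis, ∀ᶠ u in 𝓝 v, hl.localInverseAt x (pr u) = g • u := by
  set w := hl.localInverseAt x (pr v) with hw
  have hqw : pr w = pr v := hl.apply_localInverseAt_of_mem hv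
  obtain ⟨g, hg⟩ := pr_eq_iff.1 hqw
  refine ⟨g, ?_⟩
  have hwt : w ∈ (hl.localInverseAt x).target := (hl.localInverseAt x).map_source hv
  have h1 : ∀ᶠ u in 𝓝 v, g • u ∈ (hl.localInverseAt x).target := by
    have hc : Continuous fun u : UT => g • u := continuous_const_smul g
    have : g • v ∈ (hl.localInverseAt x).target := by rw [hg]; exact hwt
    exact hc.continuousAt.preimage_mem_nhds ((hl.localInverseAt x).open_target.mem_nhds this)
  have h2 : ∀ᶠ u in 𝓝 v, pr u ∈ (hl.localInverseAt x).source :=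
    continuous_pr.continuousAt.preimage_mem_nhds
      ((hl.localInverseAt x).open_source.mem_nhds hv)
  filter_upwards [h1, h2] with u hu1 hu2
  apply hl.injOn_localInverseAt_target (x := x)
  · exact (hl.localInverseAt x).map_source hu2
  · exact hu1
  · rw [hl.apply_localInverseAt_of_mem hu2]
    exact (pr_smul g u).symm

/-- transition maps are locally deck transformations -/
lemma ch_Q (x : UT) {v : E3} (hv : v ∈ UU) (hq : Q v ∈ (ch x).source) :
    ∃ g : Heis, ∀ᶠ u in 𝓝 v, ch x (Q u) = act g u := by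
  rw [ch_source, Q_mk hv] at hq
  obtain ⟨g, hg⟩ := localInverse_eq_smul x ⟨v, hv⟩ hq
  refine ⟨g, ?_⟩
  have h2 := UU.isOpen.isOpenEmbedding_subtypeVal.map_nhds_eq (⟨v, hv⟩ : UT)
  change Filter.map _ _ = 𝓝 v at h2
  rw [← h2, Filter.eventually_map]
  filter_upwards [hg] with u hu
  rw [ch_apply, Q_coe, hu]; rfl

noncomputable instance : ChartedSpace E3 M3 where
  atlas := range ch
  chartAt y := ch (pr_cov.surjective.hasRightInverse.choose y)
  mem_chart_source y := by
    have h := pr_cov.surjective.hasRightInverse.choose_spec y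
    have h2 := pr_mem_ch_source (pr_cov.surjective.hasRightInverse.choose y)
    rwa [h] at h2
  chart_mem_atlas y := ⟨_, rfl⟩

lemma mem_atlas_iff (e : OpenPartialHomeomorph M3 E3) : e ∈ atlas E3 M3 ↔ ∃ x, ch x = e := Iff.rfl

lemma contDiff_act_real (g : Heis) : ContDiff ℝ ω (act g) := (contDiff_act g).restrict_scalars ℝ

instance isManifold_complex : IsManifold 𝓘(ℂ, E3) ((⊤ : ℕ∞) : WithTop ℕ∞) M3 := by
  apply isManifold_of_contDiffOn
  intro e e' he he'
  obtain ⟨x, rfl⟩ := he
  obtain ⟨x', rfl⟩ := he'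
  intro v hv
  simp only [modelWithCornersSelf_coe, modelWithCornersSelf_coe_symm, preimage_id_eq, id_eq,
    range_id, inter_univ, OpenPartialHomeomorph.coe_trans, Function.comp_def, ch_symm] at hv ⊢
  rw [OpenPartialHomeomorph.trans_source] at hv
  have hv1 : v ∈ UU := target_subset x hv.1
  have hv2 : Q v ∈ (ch x').source := by
    have := hv.2
    rwa [mem_preimage, ch_symm] at this
  obtain ⟨g, hg⟩ := ch_Q x' hv1 hv2
  exact (((contDiff_act g).of_le le_top).contDiffAt.congr_of_eventuallyEq hg).contDiffWithinAt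

instance isManifold_real : IsManifold 𝓘(ℝ, E3) ((⊤ : ℕ∞) : WithTop ℕ∞) M3 := by
  apply isManifold_of_contDiffOn
  intro e e' he he'
  obtain ⟨x, rfl⟩ := he
  obtain ⟨x', rfl⟩ := he'
  intro v hv
  simp only [modelWithCornersSelf_coe, modelWithCornersSelf_coe_symm, preimage_id_eq, id_eq,
    range_id, inter_univ, OpenPartialHomeomorph.coe_trans, Function.comp_def, ch_symm] at hv ⊢
  rw [OpenPartialHomeomorph.trans_source] at hv
  have hv1 : v ∈ UU := target_subset x hv.1
  have hv2 : Q v ∈ (ch x').source := by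
    have := hv.2
    rwa [mem_preimage, ch_symm] at this
  obtain ⟨g, hg⟩ := ch_Q x' hv1 hv2
  exact (((contDiff_act_real g).of_le le_top).contDiffAt.congr_of_eventuallyEq hg).contDiffWithinAt

end Pool.Agent.H676R3
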