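import Pool.Agent.H676R3.Iso

set_option autoImplicit false
set_option linter.unusedSectionVars false
set_option linter.unusedSimpArgs false
open scoped Manifold ContDiff Topology ComplexConjugate
open Set Complex

namespace Pool.Agent.H676R3

/-- a compact set meeting every orbit -/
def KK : Set E3 := {v | |(v 0).re| ≤ 1 ∧ |(v 0).im| ≤ 1 ∧ 1 ≤ rho v ∧ rho v ≤ Real.exp (4 * Real.pi)}

lemma KK_sub : KK ⊆ (UU : Set E3) := fun v hv => by
  have := hv.2.2.1
  change 0 < rho v
  linarith

lemma isCompact_KK : IsCompact KK := by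
  apply Metric.isCompact_of_isClosed_isBounded
  · have h1 : Continuous fun v : E3 => |(v 0).re| := by fun_prop
    have h2 : Continuous fun v : E3 => |(v 0).im| := by fun_prop
    exact (isClosed_le h1 continuous_const).inter ((isClosed_le h2 continuous_const).inter
      ((isClosed_le continuous_const continuous_rho).inter (isClosed_le continuous_rho continuous_const)))
  · rw [isBounded_iff_forall_norm_le]
    refine ⟨√(4 + Real.exp (4 * Real.pi)), fun v hv => ?_⟩
    obtain ⟨h1, h2, -, h4⟩ := hv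
    rw [EuclideanSpace.norm_eq]
    apply Real.sqrt_le_sqrt
    rw [Fin.sum_univ_three, add_assoc]
    have h0 : ‖v 0‖ ^ 2 ≤ 4 := by
      have h := Complex.norm_le_abs_re_add_abs_im (v 0)
      have h' : ‖v 0‖ ≤ 2 := by linarith
      nlinarith [norm_nonneg (v 0)]
    have h4' : ‖v 1‖ ^ 2 + ‖v 2‖ ^ 2 ≤ Real.exp (4 * Real.pi) := h4
    linarith

lemma exists_KK {v : E3} (hv : v ∈ UU) : ∃ g : Heis, act g v ∈ KK := by
  have hr : 0 < rho v := mem_UU.1 hv
  have hpi := Real.pi_pos
  set n : ℤ := -⌊(v 0).im⌋ with hn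
  set m : ℤ := -⌊(v 0).re⌋ with hm
  set s : ℝ := n * (v 0).re + Real.log (rho v) / (4 * Real.pi) with hs
  set k : ℤ := -⌊s⌋ with hk
  refine ⟨⟨m, n, k⟩, ?_, ?_, ?_⟩
  · rw [act_0, add_re, tr_re]
    simp only [hm]; push_cast
    rw [abs_le]
    have h1 := Int.floor_le (v 0).re
    have h2 := Int.lt_floor_add_one (v 0).re
    constructor <;> linarith
  · rw [act_0, add_im, tr_im]
    simp only [hn]; push_cast
    rw [abs_le]
    have h1 := Int.floor_le (v 0).im
    have h2 := Int.lt_floor_add_one (v 0).im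
    constructor <;> linarith
  · have he : rho (act ⟨m, n, k⟩ v) = Real.exp (4 * Real.pi * (s + k)) := by
      rw [rho_act]
      have : 4 * Real.pi * (s + k) = 4 * Real.pi * (n * (v 0).re + k) + Real.log (rho v) := by
        rw [hs]; field_simp; ring
      rw [this, Real.exp_add, Real.exp_log hr]
    have h1 := Int.floor_le s
    have h2 := Int.lt_floor_add_one s
    have hk' : (k : ℝ) = -⌊s⌋ := by rw [hk]; push_cast; ring
    rw [he]
    constructor
    · apply Real.one_le_exp
      have : 0 ≤ s + k := by rw [hk']; linarith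
      positivity
    · apply Real.exp_le_exp.2
      have : s + k ≤ 1 := by rw [hk']; linarith
      nlinarith

lemma continuousOn_Q : ContinuousOn Q UU := fun _ hv =>
  (Q_smooth_real hv).continuousAt.continuousWithinAt

instance : CompactSpace M3 := by
  constructor
  have : (univ : Set M3) = Q '' KK := by
    apply Subset.antisymm
    · intro y _
      obtain ⟨v, hv, rfl⟩ := Q_surj y
      obtain ⟨g, hg⟩ := exists_KK hv
      exact ⟨_, hg, Q_act g hv⟩
    · exact subset_univ _
  rw [this]
  exact isCompact_KK.image_of_continuousOn (continuousOn_Q.mono KK_sub)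

lemma isPreconnected_UU : IsPreconnected (UU : Set E3) := by
  have h1 : IsConnected ({(0 : ℂ × ℂ)}ᶜ : Set (ℂ × ℂ)) := by
    apply isConnected_compl_singleton_of_one_lt_rank
    have : Module.rank ℝ (ℂ × ℂ) = 4 := by
      rw [rank_prod', Complex.rank_real_complex]; norm_num
    rw [this]; norm_num
  have h2 : (UU : Set E3) = (fun p : ℂ × (ℂ × ℂ) => (!₂[p.1, p.2.1, p.2.2] : E3)) ''
      (univ ×ˢ ({(0 : ℂ × ℂ)}ᶜ : Set (ℂ × ℂ))) := by
    ext v
    constructor
    · intro hv
      refine ⟨(v 0, (v 1, v 2)), ⟨trivial, ?_⟩, ?_⟩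
      · intro h
        have h' : (v 1, v 2) = (0 : ℂ × ℂ) := h
        have h1 : v 1 = 0 := congrArg Prod.fst h'
        have h2 : v 2 = 0 := congrArg Prod.snd h'
        have : rho v = 0 := by rw [rho, h1, h2]; simp
        exact absurd (mem_UU.1 hv) (by rw [this]; exact lt_irrefl _)
      · apply E3_ext <;> simp
    · rintro ⟨⟨z, a, b⟩, ⟨-, h⟩, rfl⟩
      change 0 < rho _
      have h' : ¬ (a = 0 ∧ b = 0) := fun h'' => h (by
        show (a, b) = 0
        rw [h''.1, h''.2]; rfl)
      rw [rho]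
      simp only [PiLp.toLp_apply, Matrix.cons_val_one, Matrix.cons_val_zero, Matrix.cons_val]
      rcases not_and_or.1 h' with ha | hb
      · have := norm_pos_iff.2 ha; positivity
      · have := norm_pos_iff.2 hb; positivity
  rw [h2]
  apply (isPreconnected_univ.prod h1.isPreconnected).image
  apply Continuous.continuousOn
  apply (PiLp.continuous_toLp 2 _).comp
  apply continuous_pi
  intro i
  fin_cases i <;> simp <;> fun_prop

/-- a function on `ℂ` with doubly periodic norm is constant -/
lemma const_of_norm_periodic {f : ℂ → ℂ} (hf : Differentiable ℂ f)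
    (h1 : ∀ z, ‖f (z + 1)‖ = ‖f z‖) (h2 : ∀ z, ‖f (z + I)‖ = ‖f z‖) (z w : ℂ) : f z = f w := by
  apply hf.apply_eq_apply_of_bounded
  have hK : IsCompact (Icc (0 : ℝ) 1 ×ℂ Icc (0 : ℝ) 1) := isCompact_Icc.reProdIm isCompact_Icc
  have hb := hK.image hf.continuous
  rw [isBounded_iff_forall_norm_le]
  obtain ⟨C, hC⟩ := hb.isBounded.exists_norm_le
  refine ⟨C, ?_⟩
  rintro _ ⟨z, rfl⟩
  have p1 : Function.Periodic (fun z => ‖f z‖) (1 : ℂ) := h1
  have p2 : Function.Periodic (fun z => ‖f z‖) I := h2
  have e : ‖f z‖ = ‖f (z - (⌊z.re⌋ : ℤ) • (1 : ℂ) - (⌊z.im⌋ : ℤ) • I)‖ := by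
    rw [p2.sub_zsmul_eq, p1.sub_zsmul_eq]
  rw [e]
  apply hC
  refine ⟨_, ?_, rfl⟩
  rw [Complex.mem_reProdIm]
  simp only [zsmul_eq_mul, mul_one, sub_re, intCast_re, mul_re, I_re, mul_zero, intCast_im, I_im,
    sub_self, sub_zero, sub_im, mul_im, add_zero, zero_mul, zero_add]
  have a1 := Int.floor_le z.re
  have a2 := Int.lt_floor_add_one z.re
  have a3 := Int.floor_le z.im
  have a4 := Int.lt_floor_add_one z.im
  exact ⟨⟨by linarith, by linarith⟩, ⟨by linarith, by linarith⟩⟩

/-- multiplicatively quasi-periodic entire functions -/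
lemma quasi_periodic {f : ℂ → ℂ} (hf : Differentiable ℂ f) (c : ℂ)
    (h1 : ∀ z, f (z + 1) = f z) (h2 : ∀ z, f (z + I) = cexp (2 * Real.pi * c) * f z)
    (h0 : f 0 ≠ 0) : ∃ a b : ℤ, c = a + b * I := by
  set F : ℂ → ℂ := fun z => cexp (2 * Real.pi * c.re * I * z) * f z with hF
  have hFd : Differentiable ℂ F := by
    apply Differentiable.mul _ hf
    fun_prop
  have n1 : ∀ z, ‖F (z + 1)‖ = ‖F z‖ := by
    intro z
    simp only [hF, norm_mul, h1, Complex.norm_exp]
    congr 2
    simp
  have n2 : ∀ z, ‖F (z + I)‖ = ‖F z‖ := by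
    intro z
    simp only [hF, norm_mul, h2, Complex.norm_exp]
    rw [← mul_assoc, ← Real.exp_add]
    congr 2
    simp
    ring
  have hc := const_of_norm_periodic hFd n1 n2
  have e1 := hc 1 0
  have e2 := hc I 0
  simp only [hF, mul_one, mul_zero, Complex.exp_zero, one_mul] at e1 e2
  have f1 : f 1 = f 0 := by have := h1 0; rwa [zero_add] at this
  have f2 : f I = cexp (2 * Real.pi * c) * f 0 := by have := h2 0; rwa [zero_add] at this
  rw [f1] at e1
  rw [f2, ← mul_assoc, ← Complex.exp_add] at e2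
  have g1 : cexp (2 * Real.pi * c.re * I) = 1 := mul_right_cancel₀ h0 (by rw [e1, one_mul])
  have g2 : cexp (2 * Real.pi * c.re * I * I + 2 * Real.pi * c) = 1 :=
    mul_right_cancel₀ h0 (by rw [e2, one_mul])
  rw [Complex.exp_eq_one_iff] at g1 g2
  obtain ⟨a, ha⟩ := g1
  obtain ⟨b, hb⟩ := g2
  have hpi : (2 * Real.pi * I : ℂ) ≠ 0 := by
    simp [Real.pi_ne_zero, I_ne_zero]
  refine ⟨a, b, ?_⟩
  have ha' : (c.re : ℂ) = a := by
    apply mul_left_cancel₀ hpi
    rw [← mul_comm (a : ℂ)]
    rw [← ha]; ring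
  have hb' : (c.im : ℂ) = b := by
    apply mul_left_cancel₀ hpi
    rw [← mul_comm (b : ℂ), ← hb]
    have hcc : c = c.re + c.im * I := (Complex.re_add_im c).symm
    have hI : I * I = -1 := Complex.I_mul_I
    conv_rhs => rw [mul_assoc _ I I, hI]
    linear_combination (-2 * Real.pi) * hcc
  rw [← ha', ← hb']
  exact (Complex.re_add_im c).symm

/-- Rigidity: an equivariant holomorphic self map of the universal cover moves the first
coordinate by a Gaussian integer. -/
theorem rigid {F : E3 → E3} (hE : Equiv1 F) (hd : DifferentiableOn ℂ F UU) :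
    ∃ a b : ℤ, ∀ v ∈ UU, F v 0 = v 0 + ((a : ℂ) + b * I) := by
  have hcoord : ∀ i : Fin 3, Differentiable ℂ (fun v : E3 => v i) := fun i =>
    ((contDiff_piLp (𝕜 := ℂ) (n := 1) 2).1 contDiff_id i).differentiable (by simp)
  have hFi : ∀ i : Fin 3, DifferentiableOn ℂ (fun v => F v i) UU := fun i =>
    (hcoord i).comp_differentiableOn hd
  -- step 1: constancy
  set h : E3 → ℂ := fun v => F v 0 - v 0 with hh
  have hhd : DifferentiableOn ℂ h UU := (hFi 0).sub (hcoord 0).differentiableOn
  have hinv : ∀ (g : Heis), ∀ v ∈ UU, h (act g v) = h v := by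
    intro g v hv
    simp only [hh]
    rw [hE.act g v hv, act_0, act_0]; ring
  have hKne : KK.Nonempty := by
    obtain ⟨g, hg⟩ := exists_KK base_mem
    exact ⟨_, hg⟩
  obtain ⟨p, hpK, hp⟩ := isCompact_KK.exists_isMaxOn hKne (hhd.continuousOn.mono KK_sub).norm
  have hpU : p ∈ (UU : Set E3) := KK_sub hpK
  have hmax : IsMaxOn (norm ∘ h) UU p := by
    intro v hv
    obtain ⟨g, hg⟩ := exists_KK hv
    have := hp hg
    simp only [mem_ofPred_eq, Function.comp_apply] at this ⊢
    rwa [hinv g v hv] at this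
  have hconst := Complex.eqOn_of_isPreconnected_of_isMaxOn_norm isPreconnected_UU UU.isOpen hhd hpU hmax
  set c : ℂ := h p with hc
  have hF0 : ∀ v ∈ UU, F v 0 = v 0 + c := by
    intro v hv
    have := hconst hv
    simp only [hh, Function.const_apply] at this
    rw [← this]; ring
  -- step 2: quasi-periodic functions
  have hmem : ∀ z η : ℂ, (!₂[z, cexp η, 0] : E3) ∈ UU := by
    intro z η
    rw [mem_UU, rho]
    simp
  have hact : ∀ (g : Heis) (z η : ℂ), act g !₂[z, cexp η, 0] =
      !₂[z + tr g, cexp (2 * Real.pi * (g.n * z + g.k) + η), 0] := by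
    intro g z η
    apply E3_ext
    · simp
    · simp [mu, Complex.exp_add]
    · simp
  have hlin : ∀ z : ℂ, Differentiable ℂ (fun η : ℂ => (!₂[z, cexp η, 0] : E3)) := by
    intro z
    have : ContDiff ℂ 1 (fun η : ℂ => (!₂[z, cexp η, 0] : E3)) := by
      rw [contDiff_piLp 2]
      intro i
      fin_cases i
      · simp only [Fin.zero_eta, PiLp.toLp_apply, Matrix.cons_val_zero]; fun_prop
      · simp only [Fin.mk_one, PiLp.toLp_apply, Matrix.cons_val_one, Matrix.cons_val_zero]; fun_prop
      · simp only [Fin.reduceFinMk, PiLp.toLp_apply, Matrix.cons_val]; fun_prop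
    exact this.differentiable (by simp)
  have hlin2 : Differentiable ℂ (fun z : ℂ => (!₂[z, cexp 0, 0] : E3)) := by
    have : ContDiff ℂ 1 (fun z : ℂ => (!₂[z, cexp 0, 0] : E3)) := by
      rw [contDiff_piLp 2]
      intro i
      fin_cases i
      · simp only [Fin.zero_eta, PiLp.toLp_apply, Matrix.cons_val_zero]; fun_prop
      · simp only [Fin.mk_one, PiLp.toLp_apply, Matrix.cons_val_one]; fun_prop
      · simp only [Fin.reduceFinMk, PiLp.toLp_apply, Matrix.cons_val]; fun_prop
    exact this.differentiable (by simp)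
  have key : ∀ i : Fin 3, (∀ g : Heis, ∀ v ∈ UU, F (act g v) i = mu g (F v 0) * F v i) →
      F !₂[0, cexp 0, 0] i ≠ 0 → ∃ a b : ℤ, c = a + b * I := by
    intro i hi hne
    -- homogeneity
    have hom : ∀ z η : ℂ, F !₂[z, cexp η, 0] i = cexp η * F !₂[z, cexp 0, 0] i := by
      intro z η
      set Φ : ℂ → ℂ := fun η => cexp (-(2 * Real.pi * η)) * F !₂[z, cexp (2 * Real.pi * η), 0] i with hΦ
      have hΦd : Differentiable ℂ Φ := by
        apply Differentiable.mul
        · fun_prop
        · intro η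
          have h1 : DifferentiableAt ℂ (fun v => F v i) (!₂[z, cexp (2 * Real.pi * η), 0] : E3) :=
            (hFi i).differentiableAt (UU.isOpen.mem_nhds (hmem _ _))
          have h2 : DifferentiableAt ℂ (fun η : ℂ => (!₂[z, cexp (2 * Real.pi * η), 0] : E3)) η :=
            ((hlin z).comp (g := fun η : ℂ => (!₂[z, cexp η, 0] : E3))
              (f := fun η : ℂ => 2 * Real.pi * η) (by fun_prop)) η
          exact DifferentiableAt.comp (g := fun v => F v i)
            (f := fun η : ℂ => (!₂[z, cexp (2 * Real.pi * η), 0] : E3)) η h1 h2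
      have hΦ1 : ∀ η, Φ (η + 1) = Φ η := by
        intro η
        have e := hi ⟨0, 0, 1⟩ _ (hmem z (2 * Real.pi * η))
        rw [hact] at e
        simp only [tr, mu, Int.cast_zero, zero_mul, add_zero, zero_add, Int.cast_one, mul_one] at e
        simp only [hΦ]
        rw [show (2 * Real.pi * (η + 1) : ℂ) = 2 * Real.pi + 2 * Real.pi * η by ring, e, neg_add,
          Complex.exp_add, Complex.exp_neg (2 * Real.pi : ℂ)]
        have := Complex.exp_ne_zero (2 * Real.pi : ℂ)
        field_simp
      have hΦI : ∀ η, Φ (η + I) = Φ η := by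
        intro η
        simp only [hΦ]
        have e1 : cexp (2 * Real.pi * (η + I)) = cexp (2 * Real.pi * η) := by
          rw [mul_add, Complex.exp_add, Complex.exp_two_pi_mul_I, mul_one]
        have e2 : cexp (-(2 * Real.pi * (η + I))) = cexp (-(2 * Real.pi * η)) := by
          rw [Complex.exp_neg, e1, ← Complex.exp_neg]
        rw [e1, e2]
      have hcc := const_of_norm_periodic hΦd (fun z => by rw [hΦ1]) (fun z => by rw [hΦI])
        (η / (2 * Real.pi)) 0
      simp only [hΦ, mul_zero, neg_zero] at hcc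
      have hpi : (2 * Real.pi : ℂ) ≠ 0 := by simp [Real.pi_ne_zero]
      rw [mul_div_cancel₀ η hpi, Complex.exp_zero, one_mul] at hcc
      rw [Complex.exp_zero, ← hcc, ← mul_assoc, ← Complex.exp_add, add_neg_cancel, Complex.exp_zero,
        one_mul]
    set q : ℂ → ℂ := fun z => F !₂[z, cexp 0, 0] i with hq
    have hqd : Differentiable ℂ q := by
      intro z
      have h1 : DifferentiableAt ℂ (fun v => F v i) (!₂[z, cexp 0, 0] : E3) :=
        (hFi i).differentiableAt (UU.isOpen.mem_nhds (hmem _ _))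
      exact DifferentiableAt.comp (g := fun v => F v i)
        (f := fun z : ℂ => (!₂[z, cexp 0, 0] : E3)) z h1 (hlin2 z)
    refine quasi_periodic hqd c ?_ ?_ hne
    · intro z
      have e := hi ⟨1, 0, 0⟩ _ (hmem z 0)
      rw [hact] at e
      simpa [hq, tr, mu] using e
    · intro z
      have e := hi ⟨0, 1, 0⟩ _ (hmem z 0)
      rw [hact, hF0 _ (hmem z 0)] at e
      simp only [tr, mu, Int.cast_zero, zero_add, Int.cast_one, one_mul, add_zero,
        PiLp.toLp_apply, Matrix.cons_val_zero] at e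
      rw [hom (z + I) (2 * Real.pi * z)] at e
      have hez := Complex.exp_ne_zero (2 * Real.pi * z)
      apply mul_left_cancel₀ hez
      simp only [hq]
      rw [e, mul_add, Complex.exp_add]; ring
  have hmem0 := hE.mem _ (hmem 0 0)
  have hor : F !₂[0, cexp 0, 0] 1 ≠ 0 ∨ F !₂[0, cexp 0, 0] 2 ≠ 0 := by
    by_contra hcon
    push Not at hcon
    have : rho (F !₂[0, cexp 0, 0]) = 0 := by rw [rho, hcon.1, hcon.2]; simp
    exact absurd (mem_UU.1 hmem0) (by rw [this]; exact lt_irrefl _)
  have hex : ∃ a b : ℤ, c = a + b * I := by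
    rcases hor with h1 | h2
    · exact key 1 (fun g v hv => by rw [hE.act g v hv, act_1]) h1
    · exact key 2 (fun g v hv => by rw [hE.act g v hv, act_2]) h2
  obtain ⟨a, b, hab⟩ := hex
  exact ⟨a, b, fun v hv => by rw [hF0 v hv, hab]⟩

end Pool.Agent.H676R3
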