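import Mathlib

set_option autoImplicit false
set_option linter.unusedSectionVars false
set_option linter.unusedSimpArgs false

namespace Pool.Agent.H676R3.Tens

universe u

section
variable (k : Type u) [Field k] (r : ℕ)

/-- the generators of the module: the negative of `(t, t², ..., t^r)` and the standard vectors -/
noncomputable def gen : Fin (r + 1) → Fin r → PowerSeries k :=
  Fin.cons (fun j => -(PowerSeries.X : PowerSeries k) ^ ((j : ℕ) + 1)) (fun i => Pi.single i 1)

variable {k r}

lemma gen_zero (j : Fin r) : gen k r 0 j = -(PowerSeries.X : PowerSeries k) ^ ((j : ℕ) + 1) := rfl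

lemma gen_succ (i j : Fin r) : gen k r i.succ j = if j = i then 1 else 0 := by
  simp [gen, Pi.single_apply]

lemma expand (H : Fin (r + 1) → PowerSeries k)
    (hH : ∑ i : Fin (r + 1), H i * (PowerSeries.X : PowerSeries k) ^ (i : ℕ) = 0) (w : Fin (r + 1)) :
    H w = ∑ j : Fin r, H j.succ * gen k r w j := by
  refine Fin.cases ?_ (fun i => ?_) w
  · rw [Fin.sum_univ_succ] at hH
    simp only [Fin.val_zero, pow_zero, mul_one, Fin.val_succ] at hH
    simp only [gen_zero, mul_neg, Finset.sum_neg_distrib]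
    exact eq_neg_of_add_eq_zero_left hH
  · simp [gen_succ]

lemma expand_prod {e : ℕ} (H : Fin e → Fin (r + 1) → PowerSeries k)
    (hH : ∀ p, ∑ i : Fin (r + 1), H p i * (PowerSeries.X : PowerSeries k) ^ (i : ℕ) = 0)
    (c : (Fin e → Fin (r + 1)) → k) :
    ∑ w, PowerSeries.C (c w) * ∏ p, H p (w p) =
      ∑ J : Fin e → Fin r, (∏ p, H p (J p).succ) *
        ∑ w, PowerSeries.C (c w) * ∏ p, gen k r (w p) (J p) := by
  simp only [Finset.mul_sum]
  rw [Finset.sum_comm]
  refine Finset.sum_congr rfl fun w _ => ?_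
  have h1 : ∏ p, H p (w p) = ∏ p, ∑ j : Fin r, H p j.succ * gen k r (w p) j :=
    Finset.prod_congr rfl fun p _ => expand (H p) (hH p) (w p)
  rw [h1, Finset.prod_univ_sum, Fintype.piFinset_univ, Finset.mul_sum]
  refine Finset.sum_congr rfl fun J _ => ?_
  rw [Finset.prod_mul_distrib]
  ring

/-- coefficients of `(X - a) q` -/
noncomputable def hq {A : Type*} [CommRing A] [Algebra k A] (q : Polynomial k) (a : A) (i : ℕ) : A :=
  algebraMap k A ((Polynomial.X * q).coeff i) - a * algebraMap k A (q.coeff i)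

lemma hq_sum {A : Type*} [CommRing A] [Algebra k A] (q : Polynomial k) (hq' : q.natDegree < r) (a : A) :
    ∑ i : Fin (r + 1), hq q a i * a ^ (i : ℕ) = 0 := by
  have h1 : ∀ P : Polynomial k, P.natDegree < r + 1 →
      ∑ i : Fin (r + 1), algebraMap k A (P.coeff i) * a ^ (i : ℕ) = Polynomial.aeval a P := by
    intro P hP
    rw [Polynomial.aeval_eq_sum_range' hP, ← Fin.sum_univ_eq_sum_range (fun i => P.coeff i • a ^ i)]
    simp [Algebra.smul_def]
  have h2 : (Polynomial.X * q).natDegree < r + 1 := by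
    refine lt_of_le_of_lt Polynomial.natDegree_mul_le ?_
    have := Polynomial.natDegree_X_le (R := k)
    omega
  have h3 := h1 _ h2
  have h4 := h1 q (by omega)
  simp only [hq, sub_mul, Finset.sum_sub_distrib, mul_assoc]
  rw [h3, ← Finset.mul_sum, h4, map_mul, Polynomial.aeval_X, sub_self]

/-- vanishing at all factorised tuples -/
lemma vanish_hq {e : ℕ} (he : e ≤ r) (c : (Fin e → Fin (r + 1)) → k)
    (hc : ∀ J : Fin e → Fin r, (PowerSeries.X : PowerSeries k) ^ (r + 1) ∣
      ∑ w, PowerSeries.C (c w) * ∏ p, gen k r (w p) (J p))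
    (q : Fin e → Polynomial k) (hdeg : ∀ p, (q p).natDegree < r) (τ : k) :
    ∑ w, c w * ∏ p, hq (q p) τ (w p : ℕ) = 0 := by
  set D : Polynomial k := ∑ w, Polynomial.C (c w) * ∏ p, hq (q p) (Polynomial.X : Polynomial k) (w p : ℕ) with hD
  have hdegD : D.natDegree ≤ e := by
    rw [hD]
    refine Polynomial.natDegree_sum_le_of_forall_le _ _ fun w _ => ?_
    refine (Polynomial.natDegree_C_mul_le _ _).trans ?_
    refine (Polynomial.natDegree_prod_le _ _).trans ?_
    calc ∑ p, (hq (q p) (Polynomial.X : Polynomial k) (w p : ℕ)).natDegree ≤ ∑ _p : Fin e, 1 := by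
          refine Finset.sum_le_sum fun p _ => ?_
          unfold hq
          refine (Polynomial.natDegree_sub_le _ _).trans (max_le ?_ ?_)
          · rw [Polynomial.algebraMap_eq, Polynomial.natDegree_C]; exact Nat.zero_le _
          · refine (Polynomial.natDegree_mul_le).trans ?_
            rw [Polynomial.algebraMap_eq, Polynomial.natDegree_C, add_zero]
            exact Polynomial.natDegree_X_le
      _ = e := by simp
  have hcoe : (PowerSeries.X : PowerSeries k) ^ (r + 1) ∣ (D : PowerSeries k) := by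
    have h1 : (D : PowerSeries k) = ∑ w, PowerSeries.C (c w) *
        ∏ p, hq (q p) (PowerSeries.X : PowerSeries k) (w p : ℕ) := by
      have h0 : (D : PowerSeries k) = Polynomial.coeToPowerSeries.ringHom D := rfl
      rw [h0, hD, map_sum]
      refine Finset.sum_congr rfl fun w _ => ?_
      rw [map_mul, map_prod]
      congr 1
      · simp
      · refine Finset.prod_congr rfl fun p _ => ?_
        unfold hq
        rw [map_sub, map_mul]
        simp [PowerSeries.algebraMap_apply]
    rw [h1, expand_prod _ (fun p => hq_sum (q p) (hdeg p) _) c]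
    exact Finset.dvd_sum fun J _ => (hc J).mul_left _
  have hD0 : D = 0 := by
    ext i
    rw [Polynomial.coeff_zero]
    by_cases hi : i < r + 1
    · have := (PowerSeries.X_pow_dvd_iff.1 hcoe) i hi
      rwa [Polynomial.coeff_coe] at this
    · exact Polynomial.coeff_eq_zero_of_natDegree_lt (by omega)
  have h2 := congrArg (Polynomial.eval τ) hD0
  rw [Polynomial.eval_zero, hD, Polynomial.eval_finsetSum] at h2
  rw [← h2]
  refine Finset.sum_congr rfl fun w _ => ?_
  rw [Polynomial.eval_mul, Polynomial.eval_C, Polynomial.eval_prod]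
  congr 1
  refine Finset.prod_congr rfl fun p _ => ?_
  unfold hq
  simp only [Polynomial.algebraMap_eq, Polynomial.eval_sub, Polynomial.eval_mul, Polynomial.eval_C,
    Polynomial.eval_X, Algebra.algebraMap_self_apply]

/-- a vector vanishing at `τ` is factorised -/
lemma exists_hq (hr : 0 < r) (h : Fin (r + 1) → k) (τ : k)
    (hh : ∑ i : Fin (r + 1), h i * τ ^ (i : ℕ) = 0) :
    ∃ q : Polynomial k, q.natDegree < r ∧ ∀ i : Fin (r + 1), h i = hq q τ (i : ℕ) := by
  set P : Polynomial k := ∑ i : Fin (r + 1), Polynomial.C (h i) * Polynomial.X ^ (i : ℕ) with hP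
  have hcoeff : ∀ i : Fin (r + 1), P.coeff i = h i := by
    intro i
    rw [hP, Polynomial.finsetSum_coeff]
    rw [Finset.sum_eq_single i]
    · simp
    · intro j _ hj
      rw [Polynomial.coeff_C_mul_X_pow, if_neg]
      intro h'
      exact hj (Fin.ext h'.symm)
    · intro h'; exact absurd (Finset.mem_univ _) h'
  have hdegP : P.natDegree ≤ r := by
    rw [hP]
    refine Polynomial.natDegree_sum_le_of_forall_le _ _ fun i _ => ?_
    refine (Polynomial.natDegree_C_mul_X_pow_le _ _).trans ?_
    exact Nat.lt_succ_iff.1 i.2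
  have hroot : P.IsRoot τ := by
    rw [Polynomial.IsRoot, hP, Polynomial.eval_finsetSum]
    simpa using hh
  have hfac := Polynomial.mul_divByMonic_eq_iff_isRoot.2 hroot
  refine ⟨P /ₘ (Polynomial.X - Polynomial.C τ), ?_, ?_⟩
  · rw [Polynomial.natDegree_divByMonic _ (Polynomial.monic_X_sub_C τ), Polynomial.natDegree_X_sub_C]
    omega
  · intro i
    rw [← hcoeff i]
    conv_lhs => rw [← hfac]
    unfold hq
    rw [sub_mul, Polynomial.coeff_sub, Polynomial.coeff_C_mul]
    simp

theorem c_eq_zero {e : ℕ} (he : e ≤ r) (hr : 0 < r) (τ : Fin (r + 1) → k) (hτ : Function.Injective τ)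
    (c : (Fin e → Fin (r + 1)) → k)
    (hc : ∀ J : Fin e → Fin r, (PowerSeries.X : PowerSeries k) ^ (r + 1) ∣
      ∑ w, PowerSeries.C (c w) * ∏ p, gen k r (w p) (J p)) : c = 0 := by
  set V := Matrix.vandermonde τ with hV
  have hdet : IsUnit V.det := by
    rw [isUnit_iff_ne_zero, hV, Matrix.det_vandermonde_ne_zero_iff]
    exact hτ
  have hVV : V * V⁻¹ = 1 := Matrix.mul_nonsing_inv V hdet
  have hVV' : V⁻¹ * V = 1 := Matrix.nonsing_inv_mul V hdet
  -- vanishing on Lagrange words
  have hvan : ∀ m : Fin e → Fin (r + 1), ∑ w, c w * ∏ p, V⁻¹ (w p) (m p) = 0 := by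
    intro m
    obtain ⟨l, hl⟩ : ∃ l, ∀ p, m p ≠ l := by
      by_contra hcon
      push Not at hcon
      have hsurj : Function.Surjective m := hcon
      have := Fintype.card_le_of_surjective m hsurj
      simp at this
      omega
    have h1 : ∀ p, ∑ i : Fin (r + 1), V⁻¹ i (m p) * τ l ^ (i : ℕ) = 0 := by
      intro p
      have := congrFun (congrFun hVV l) (m p)
      rw [Matrix.mul_apply, Matrix.one_apply_ne (Ne.symm (hl p))] at this
      rw [← this]
      refine Finset.sum_congr rfl fun i _ => ?_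
      rw [hV, Matrix.vandermonde_apply, mul_comm]
    choose q hq1 hq2 using fun p => exists_hq hr (fun i => V⁻¹ i (m p)) (τ l) (h1 p)
    have h2 := vanish_hq he c hc q hq1 (τ l)
    rw [← h2]
    refine Finset.sum_congr rfl fun w _ => ?_
    congr 1
    exact Finset.prod_congr rfl fun p _ => hq2 p (w p)
  funext w0
  have h3 : c w0 = ∑ w, c w * ∏ p, (V⁻¹ * V) (w p) (w0 p) := by
    rw [hVV', Finset.sum_eq_single w0]
    · simp
    · intro w _ hw
      obtain ⟨p, hp⟩ : ∃ p, w p ≠ w0 p := by
        by_contra hcon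
        push Not at hcon
        exact hw (funext hcon)
      have h0 : ∏ p, (1 : Matrix (Fin (r + 1)) (Fin (r + 1)) k) (w p) (w0 p) = 0 :=
        Finset.prod_eq_zero (Finset.mem_univ p) (Matrix.one_apply_ne hp)
      rw [h0, mul_zero]
    · intro h'; exact absurd (Finset.mem_univ _) h'
  have h4 : ∀ w : Fin e → Fin (r + 1), ∏ p, (V⁻¹ * V) (w p) (w0 p) =
      ∑ m : Fin e → Fin (r + 1), (∏ p, V (m p) (w0 p)) * ∏ p, V⁻¹ (w p) (m p) := by
    intro w
    simp only [Matrix.mul_apply]
    rw [Finset.prod_univ_sum, Fintype.piFinset_univ]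
    refine Finset.sum_congr rfl fun m _ => ?_
    rw [Finset.prod_mul_distrib, mul_comm]
  rw [h3]
  simp only [h4, Finset.mul_sum]
  rw [Finset.sum_comm]
  refine Finset.sum_eq_zero fun m _ => ?_
  have h5 := hvan m
  calc ∑ w, c w * ((∏ p, V (m p) (w0 p)) * ∏ p, V⁻¹ (w p) (m p))
      = (∏ p, V (m p) (w0 p)) * ∑ w, c w * ∏ p, V⁻¹ (w p) (m p) := by
        rw [Finset.mul_sum]
        exact Finset.sum_congr rfl fun w _ => by ring
    _ = 0 := by rw [h5, mul_zero]

end

end Pool.Agent.H676R3.Tens
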