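import Pool.Agent.H676R3.TMod

set_option autoImplicit false
set_option linter.unusedSectionVars false
set_option linter.unusedSimpArgs false
open IsLocalRing Filter
open scoped TensorProduct Topology

namespace Pool.Agent.H676R3.Tens

universe u

/-- `μ` is the Hilbert-Samuel multiplicity of the local ring `R` of Krull dimension `d`:
`d! * length (R / m ^ n) / n ^ d` tends to `μ`. -/
def IsMultiplicity (R : Type u) [CommRing R] [IsLocalRing R] (d μ : ℕ) : Prop :=
  Tendsto (fun n : ℕ => (d.factorial : ℝ) * ((Module.length R (R ⧸ maximalIdeal R ^ n)).toNat : ℝ) /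
    (n : ℝ) ^ d) atTop (𝓝 (μ : ℝ))

section A
variable {R : Type u} [CommRing R] [IsDomain R] [IsLocalRing R]
variable {M : Type u} [AddCommGroup M] [Module R M]

theorem not_free_of_dual {h : ℕ} (v : Fin h → M) (hv : ¬ LinearIndependent R v)
    (l : Fin h → (M →ₗ[R] ResidueField R)) (hl : ∀ i j, l i (v j) = if i = j then 1 else 0) :
    ¬ Module.Free R M := by
  intro hfree
  apply hv
  refine Module.IsLocalRing.linearIndependent_of_flat v ?_
  rw [Fintype.linearIndependent_iff]
  intro g hg i
  let L : (ResidueField R) ⊗[R] M →ₗ[R] ResidueField R :=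
    TensorProduct.lift ((LinearMap.mul R (ResidueField R)).compl₂ (l i))
  have h1 : L (∑ j, g j • ((TensorProduct.mk R (ResidueField R) M 1 ∘ v) j)) = g i := by
    rw [map_sum]
    simp only [Function.comp_apply, TensorProduct.mk_apply, TensorProduct.smul_tmul', smul_eq_mul,
      mul_one]
    have : ∀ j, L (g j ⊗ₜ[R] v j) = g j * (if i = j then 1 else 0) := by
      intro j
      rw [← hl i j]
      rfl
    simp only [this]
    simp
  rw [← h1]
  have : (∑ j, g j • ((TensorProduct.mk R (ResidueField R) M 1 ∘ v) j)) = 0 := hg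
  rw [this, map_zero]

theorem dep_of_eq {n : ℕ} (v : Fin (n + 1) → M) (t : R) (ht : t ≠ 0) (a : Fin n → R)
    (h : t • v 0 = ∑ j, a j • v j.succ) : ¬ LinearIndependent R v := by
  rw [Fintype.not_linearIndependent_iff]
  refine ⟨Fin.cons t (fun j => -a j), ?_, 0, by simpa using ht⟩
  rw [Fin.sum_univ_succ]
  simp only [Fin.cons_zero, Fin.cons_succ, neg_smul, Finset.sum_neg_distrib, h, add_neg_cancel]

end A

section B
variable {k : Type u} [Field k] {r : ℕ}

lemma coeff_smul (c : Rmu k (r + 1)) (f : PowerSeries k) (i : ℕ) (hi : i < r + 1) :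
    PowerSeries.coeff i (c • f) = PowerSeries.constantCoeff (c : PowerSeries k) * PowerSeries.coeff i f := by
  rw [smul_def', PowerSeries.coeff_mul, Finset.sum_eq_single (0, i)]
  · rw [PowerSeries.coeff_zero_eq_constantCoeff_apply]
  · intro p hp hne
    rw [Finset.HasAntidiagonal.mem_antidiagonal] at hp
    rcases Nat.eq_zero_or_pos p.1 with h | h
    · exact absurd (Prod.ext h (by omega)) hne
    · rw [c.2 p.1 h (by omega), zero_mul]
  · intro h
    exact absurd (Finset.HasAntidiagonal.mem_antidiagonal.2 (Nat.zero_add i)) h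

lemma residue_eq (c : Rmu k (r + 1)) : residue (Rmu k (r + 1)) c =
    residue (Rmu k (r + 1)) (algebraMap k (Rmu k (r + 1)) (PowerSeries.constantCoeff (c : PowerSeries k))) := by
  rw [← sub_eq_zero, ← map_sub, residue_eq_zero_iff, mem_max]
  simp

/-- coefficient functionals -/
noncomputable def toRes (i : ℕ) (hi : i < r + 1) :
    PowerSeries k →ₗ[Rmu k (r + 1)] ResidueField (Rmu k (r + 1)) where
  toFun f := residue (Rmu k (r + 1)) (algebraMap k (Rmu k (r + 1)) (PowerSeries.coeff i f))
  map_add' f g := by rw [map_add, map_add, map_add]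
  map_smul' c f := by
    rw [coeff_smul c f i hi, map_mul, map_mul, RingHom.id_apply, Algebra.smul_def, ← residue_eq]
    rfl

lemma toRes_apply (i : ℕ) (hi : i < r + 1) (f : PowerSeries k) : toRes i hi f =
  residue (Rmu k (r + 1)) (algebraMap k (Rmu k (r + 1)) (PowerSeries.coeff i f)) := rfl

/-- dual functionals -/
noncomputable def dual (hr : 0 < r) : Fin (r + 1) → (Mo k r →ₗ[Rmu k (r + 1)] ResidueField (Rmu k (r + 1))) :=
  Fin.cons (-((toRes 1 (by omega)).comp ((LinearMap.proj (⟨0, hr⟩ : Fin r)).comp (Mo k r).subtype)))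
    (fun j => (toRes 0 (by omega)).comp ((LinearMap.proj j).comp (Mo k r).subtype))

lemma dual_ge (hr : 0 < r) (i j : Fin (r + 1)) : dual (k := k) hr i (ge j) = if i = j then 1 else 0 := by
  refine Fin.cases ?_ (fun i => ?_) i
  · refine Fin.cases ?_ (fun j => ?_) j
    · show -(toRes (k := k) (r := r) 1 (by omega) (gen k r 0 ⟨0, hr⟩)) = _
      rw [gen_zero, toRes_apply]
      simp [PowerSeries.coeff_X]
    · show -(toRes (k := k) (r := r) 1 (by omega) (gen k r j.succ ⟨0, hr⟩)) = _
      rw [gen_succ, toRes_apply, if_neg (Fin.succ_ne_zero j).symm]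
      split_ifs <;> simp [PowerSeries.coeff_one]
  · refine Fin.cases ?_ (fun j => ?_) j
    · show toRes (k := k) (r := r) 0 (by omega) (gen k r 0 i) = _
      rw [gen_zero, toRes_apply, if_neg (Fin.succ_ne_zero i)]
      simp
    · show toRes (k := k) (r := r) 0 (by omega) (gen k r j.succ i) = _
      rw [gen_succ, toRes_apply]
      by_cases h : i = j
      · simp [h]
      · simp [h]

lemma dep_ge : ¬ LinearIndependent (Rmu k (r + 1)) (ge (k := k) (r := r)) :=
  dep_of_eq (R := Rmu k (r + 1)) (M := Mo k r) ge tmu tmu_ne_zero _ (smul_eq (k := k) (r := r) tmu dvd_rfl (ge 0))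

theorem not_free (hr : 0 < r) : ¬ Module.Free (Rmu k (r + 1)) (Mo k r) :=
  not_free_of_dual (R := Rmu k (r + 1)) (M := Mo k r) ge dep_ge (dual hr) (dual_ge hr)

theorem not_testExponent [Infinite k] (hr : 0 < r) {e : ℕ} (he : e ≤ r) :
    ¬ TestExponent (Rmu k (r + 1)) e := by
  intro h
  obtain ⟨τ, hτ⟩ : ∃ τ : Fin (r + 1) → k, Function.Injective τ :=
    ⟨fun i => Infinite.natEmbedding k i, fun a b hab => Fin.ext ((Infinite.natEmbedding k).injective hab)⟩
  exact h (Mo k r) inferInstance torsion_Mo (not_free hr) (torsion_eq_bot he hr τ hτ)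

theorem testExponent_iff [Infinite k] (hr : 0 < r) (e : ℕ) :
    TestExponent (Rmu k (r + 1)) e ↔ r + 1 ≤ e := by
  constructor
  · intro h
    by_contra hcon
    exact not_testExponent hr (by omega) h
  · intro h
    have hdim : Ring.KrullDimLE 1 (Rmu k (r + 1)) := by
      rw [Ring.krullDimLE_iff, ringKrullDim_Rmu (Nat.succ_pos r)]
      exact le_rfl
    refine testExponent_of_length (tmu_mem (Nat.succ_pos r)) tmu_ne_zero
      ((length_quot_tmu (Nat.succ_pos r)).trans ?_)
    exact_mod_cast h

/-- the exact length -/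
theorem length_quot_tmu_eq [Infinite k] (hr : 0 < r) :
    Module.length (Rmu k (r + 1)) (Rmu k (r + 1) ⧸ Ideal.span {(tmu : Rmu k (r + 1))}) = (r + 1 : ℕ) := by
  refine le_antisymm (length_quot_tmu (Nat.succ_pos r)) ?_
  have hdim : Ring.KrullDimLE 1 (Rmu k (r + 1)) := by
    rw [Ring.krullDimLE_iff, ringKrullDim_Rmu (Nat.succ_pos r)]
    exact le_rfl
  by_contra hcon
  rw [not_le] at hcon
  have h1 : Module.length (Rmu k (r + 1)) (Rmu k (r + 1) ⧸ Ideal.span {(tmu : Rmu k (r + 1))}) ≤ (r : ℕ) := by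
    have := Order.le_of_lt_add_one (α := ℕ∞) (by exact_mod_cast hcon :
      Module.length (Rmu k (r + 1)) (Rmu k (r + 1) ⧸ Ideal.span {(tmu : Rmu k (r + 1))}) < (r : ℕ∞) + 1)
    exact this
  have h2 := testExponent_of_length (tmu_mem (k := k) (Nat.succ_pos r)) tmu_ne_zero h1
  exact not_testExponent hr le_rfl h2

end B

section C
variable {k : Type u} [Field k] {μ : ℕ}

lemma max_sq (hμ : 0 < μ) : maximalIdeal (Rmu k μ) * maximalIdeal (Rmu k μ) =
    Ideal.span {(tmu : Rmu k μ)} * maximalIdeal (Rmu k μ) := by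
  apply le_antisymm
  · rw [Ideal.mul_le]
    intro f hf g hg
    obtain ⟨f', hf'⟩ := (mem_max_iff_dvd hμ).1 hf
    obtain ⟨g', hg'⟩ := (mem_max_iff_dvd hμ).1 hg
    have h1 : (PowerSeries.X : PowerSeries k) ^ μ ∣ f' * (g : PowerSeries k) := by
      rw [hg']; exact ⟨f' * g', by ring⟩
    have h2 : f * g = tmu * (⟨f' * (g : PowerSeries k), mem_of_dvd h1⟩ : Rmu k μ) := by
      apply Subtype.ext
      show (f : PowerSeries k) * (g : PowerSeries k) = PowerSeries.X ^ μ * (f' * (g : PowerSeries k))
      rw [hf']; ring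
    rw [h2]
    exact Ideal.mul_mem_mul (Ideal.mem_span_singleton_self _) ((mem_max_iff_dvd hμ).2 h1)
  · exact Ideal.mul_mono_left ((Ideal.span_singleton_le_iff_mem _).2 (tmu_mem hμ))

end C

section D
variable {R : Type u} [CommRing R] [IsDomain R] [IsLocalRing R] [IsNoetherianRing R]

/-- lengths of `R / m ^ n` when `m² = x m` -/
theorem length_pow {x : R} (hx0 : x ≠ 0)
    (hsq : maximalIdeal R * maximalIdeal R = Ideal.span {x} * maximalIdeal R) (n : ℕ) :
    Module.length R (R ⧸ maximalIdeal R ^ (n + 1)) =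
      n * Module.length R (R ⧸ Ideal.span {x}) + 1 := by
  induction n with
  | zero =>
    rw [zero_add, pow_one, Nat.cast_zero, zero_mul, zero_add]
    have : IsSimpleModule R (R ⧸ maximalIdeal R) := by
      rw [isSimpleModule_iff_isCoatom, ← Ideal.isMaximal_def]
      exact maximalIdeal.isMaximal R
    exact Module.length_eq_one R _
  | succ n ih =>
    have h1 : maximalIdeal R ^ (n + 1 + 1) = Submodule.map (LinearMap.lsmul R R x) (maximalIdeal R ^ (n + 1)) := by
      have h2 : maximalIdeal R ^ (n + 1 + 1) = Ideal.span {x} * maximalIdeal R ^ (n + 1) := by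
        calc maximalIdeal R ^ (n + 1 + 1) = maximalIdeal R ^ n * (maximalIdeal R * maximalIdeal R) := by ring
          _ = maximalIdeal R ^ n * (Ideal.span {x} * maximalIdeal R) := by rw [hsq]
          _ = Ideal.span {x} * maximalIdeal R ^ (n + 1) := by ring
      rw [h2]
      ext y
      rw [Ideal.mem_span_singleton_mul, Submodule.mem_map]
      rfl
    have hinj : Function.Injective (LinearMap.lsmul R R x) := by
      intro a b hab
      simpa [hx0] using hab
    have hr : LinearMap.range (LinearMap.lsmul R R x) = Ideal.span {x} := by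
      ext y
      rw [LinearMap.mem_range, Ideal.mem_span_singleton']
      constructor
      · rintro ⟨a, ha⟩
        exact ⟨a, by rw [← ha]; simp [mul_comm]⟩
      · rintro ⟨a, ha⟩
        exact ⟨a, by rw [← ha]; simp [mul_comm]⟩
    rw [h1, length_quot_map _ hinj, ih, hr]
    push_cast
    ring

theorem isMultiplicity_of_length {x : R} (hx0 : x ≠ 0)
    (hsq : maximalIdeal R * maximalIdeal R = Ideal.span {x} * maximalIdeal R) {μ : ℕ}
    (hμ : Module.length R (R ⧸ Ideal.span {x}) = μ) : IsMultiplicity R 1 μ := by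
  unfold IsMultiplicity
  rw [← tendsto_add_atTop_iff_nat 1]
  have h1 : ∀ n : ℕ, ((1 : ℕ).factorial : ℝ) *
      ((Module.length R (R ⧸ maximalIdeal R ^ (n + 1))).toNat : ℝ) / ((n + 1 : ℕ) : ℝ) ^ 1 =
      μ + (1 - μ) * (1 / ((n : ℝ) + 1)) := by
    intro n
    rw [length_pow hx0 hsq n, hμ]
    have : ((n : ℕ∞) * (μ : ℕ∞) + 1).toNat = n * μ + 1 := by
      have : ((n : ℕ∞) * (μ : ℕ∞) + 1) = ((n * μ + 1 : ℕ) : ℕ∞) := by push_cast; rfl
      rw [this, ENat.toNat_natCast]
    rw [this]
    have hn : ((n : ℝ) + 1) ≠ 0 := by positivity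
    push_cast
    field_simp
    simp
    ring
  simp only [h1]
  have h2 := (tendsto_one_div_add_atTop_nhds_zero_nat (𝕜 := ℝ)).const_mul (1 - (μ : ℝ))
  have h3 := h2.const_add (μ : ℝ)
  rw [mul_zero, add_zero] at h3
  exact h3

end D

end Pool.Agent.H676R3.Tens
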