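import Pool.Agent.H676R3.TRing
import Pool.Agent.H676R3.TComb

set_option autoImplicit false
set_option linter.unusedSectionVars false
set_option linter.unusedSimpArgs false
open IsLocalRing
open scoped TensorProduct

namespace Pool.Agent.H676R3.Tens

universe u

theorem torsion_bot_of_ker {R : Type u} [CommRing R] [IsDomain R] {M : Type u} [AddCommGroup M]
    [Module R M] {P : Type u} [AddCommGroup P] [Module R P] [Module.IsTorsionFree R P]
    (f : M →ₗ[R] P) (hf : ∀ x, f x = 0 → x = 0) : Submodule.torsion R M = ⊥ := by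
  rw [← Submodule.isTorsionFree_iff_torsion_eq_bot]
  exact Function.Injective.moduleIsTorsionFree f ((injective_iff_map_eq_zero f).2 hf)
    (fun c x => map_smul f c x)

theorem torsion_bot_of_ker' {R : Type u} [CommRing R] [IsDomain R] {M : Type u} [AddCommGroup M]
    [Module R M] {P : Type u} [AddCommGroup P] [Module R P] [Module.IsTorsionFree R P] {e : ℕ}
    (f : TensorPower R e M →ₗ[R] P) (hf : ∀ x, f x = 0 → x = 0) :
    Submodule.torsion R (TensorPower R e M) = ⊥ := torsion_bot_of_ker f hf

section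
variable (k : Type u) [Field k] (r : ℕ)

/-- the module -/
noncomputable def Mo : Submodule (Rmu k (r + 1)) (Fin r → PowerSeries k) :=
  Submodule.span (Rmu k (r + 1)) (Set.range (gen k r))

variable {k r}

/-- generators in the module -/
noncomputable def ge (w : Fin (r + 1)) : Mo k r := ⟨gen k r w, Submodule.subset_span ⟨w, rfl⟩⟩

lemma ge_val (w : Fin (r + 1)) : (ge w : Mo k r).1 = gen k r w := rfl

lemma span_ge : Submodule.span (Rmu k (r + 1)) (Set.range (ge (k := k) (r := r))) = ⊤ := by
  have h := Submodule.span_range_subtype_eq_top_iff (Mo k r) (s := gen k r)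
    (fun i => Submodule.subset_span ⟨i, rfl⟩)
  exact h.2 rfl

instance : Module.Finite (Rmu k (r + 1)) (Mo k r) :=
  Module.Finite.of_fg (Submodule.fg_span (Set.finite_range _))

lemma smul_def' (c : Rmu k (r + 1)) (f : PowerSeries k) : c • f = (c : PowerSeries k) * f := rfl

instance instTF : Module.IsTorsionFree (Rmu k (r + 1)) (PowerSeries k) where
  isSMulRegular := by
    intro c hc a b hab
    have hc' : (c : PowerSeries k) ≠ 0 := fun h => hc.ne_zero (Subtype.ext h)
    exact mul_left_cancel₀ hc' hab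

lemma torsion_Mo : Submodule.torsion (Rmu k (r + 1)) (Mo k r) = ⊥ := by
  exact torsion_bot_of_ker (R := Rmu k (r + 1)) (M := Mo k r) (P := Fin r → PowerSeries k)
    (Mo k r).subtype (fun x hx => Subtype.ext hx)

/-- multiplying by an element of the maximal ideal -/
lemma smul_eq (m : Rmu k (r + 1)) (hm : (PowerSeries.X : PowerSeries k) ^ (r + 1) ∣ (m : PowerSeries k))
    (f : Mo k r) :
    m • f = ∑ j : Fin r, (⟨(m : PowerSeries k) * f.1 j, mem_of_dvd (hm.mul_right _)⟩ : Rmu k (r + 1)) •
      ge (k := k) j.succ := by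
  apply Subtype.ext
  funext i
  rw [Submodule.coe_sum, Finset.sum_apply]
  simp only [Submodule.coe_smul, Pi.smul_apply, ge_val, gen_succ, smul_def']
  simp

end

section T
variable {k : Type u} [Field k] {r e : ℕ}

lemma smul_tprod_mem (s : Finset (Fin e)) : ∀ (f : Fin e → Mo k r)
    (_ : ∀ p, p ∉ s → ∃ i : Fin r, f p = ge i.succ) (m : Rmu k (r + 1))
    (_ : (PowerSeries.X : PowerSeries k) ^ (r + 1) ∣ (m : PowerSeries k)),
    ∃ b : (Fin e → Fin r) → Rmu k (r + 1),
      (∀ J, (PowerSeries.X : PowerSeries k) ^ (r + 1) ∣ (b J : PowerSeries k)) ∧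
      m • PiTensorProduct.tprod (Rmu k (r + 1)) f =
        ∑ J : Fin e → Fin r, b J • PiTensorProduct.tprod (Rmu k (r + 1)) (fun p => ge (k := k) (J p).succ) := by
  classical
  induction s using Finset.induction with
  | empty =>
    intro f hf m hm
    choose J hJ using fun p => hf p (Finset.notMem_empty p)
    refine ⟨Pi.single J m, ?_, ?_⟩
    · intro J'
      by_cases h : J' = J
      · subst h; simpa using hm
      · rw [Pi.single_eq_of_ne h]; exact dvd_zero _
    · rw [Finset.sum_eq_single J]
      · rw [Pi.single_eq_same]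
        congr 2
        exact funext hJ
      · intro J' _ h
        rw [Pi.single_eq_of_ne h, zero_smul]
      · intro h; exact absurd (Finset.mem_univ _) h
  | insert p s hp ih =>
    intro f hf m hm
    have h1 : m • PiTensorProduct.tprod (Rmu k (r + 1)) f =
        ∑ j : Fin r, (⟨(m : PowerSeries k) * (f p).1 j, mem_of_dvd (hm.mul_right _)⟩ : Rmu k (r + 1)) •
          PiTensorProduct.tprod (Rmu k (r + 1)) (Function.update f p (ge j.succ)) := by
      have h2 : m • PiTensorProduct.tprod (Rmu k (r + 1)) f =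
          PiTensorProduct.tprod (Rmu k (r + 1)) (Function.update f p (m • f p)) := by
        rw [MultilinearMap.map_update_smul, Function.update_eq_self]
      rw [h2, smul_eq m hm (f p), MultilinearMap.map_update_sum]
      refine Finset.sum_congr rfl fun j _ => ?_
      rw [MultilinearMap.map_update_smul]
    have h3 : ∀ j : Fin r, ∃ b : (Fin e → Fin r) → Rmu k (r + 1),
      (∀ J, (PowerSeries.X : PowerSeries k) ^ (r + 1) ∣ (b J : PowerSeries k)) ∧
      (⟨(m : PowerSeries k) * (f p).1 j, mem_of_dvd (hm.mul_right _)⟩ : Rmu k (r + 1)) •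
          PiTensorProduct.tprod (Rmu k (r + 1)) (Function.update f p (ge j.succ)) =
        ∑ J : Fin e → Fin r, b J • PiTensorProduct.tprod (Rmu k (r + 1)) (fun p => ge (k := k) (J p).succ) := by
      intro j
      refine ih (Function.update f p (ge j.succ)) ?_ _ (hm.mul_right _)
      intro q hq
      by_cases hqp : q = p
      · subst hqp
        exact ⟨j, by simp⟩
      · rw [Function.update_of_ne hqp]
        exact hf q (by simp [hqp, hq])
    choose b hb1 hb2 using h3
    refine ⟨fun J => ∑ j, b j J, ?_, ?_⟩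
    · intro J
      have : ((∑ j, b j J : Rmu k (r + 1)) : PowerSeries k) = ∑ j, (b j J : PowerSeries k) := by
        simp
      rw [this]
      exact Finset.dvd_sum fun j _ => hb1 j J
    · rw [h1]
      simp only [hb2, Finset.sum_smul]
      rw [Finset.sum_comm]

lemma span_tprod : Submodule.span (Rmu k (r + 1)) (Set.range (fun w : Fin e → Fin (r + 1) =>
    PiTensorProduct.tprod (Rmu k (r + 1)) (fun p => ge (k := k) (w p)))) = ⊤ := by
  rw [eq_top_iff, ← PiTensorProduct.span_tprod_eq_top, Submodule.span_le]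
  rintro _ ⟨f, rfl⟩
  have h1 : ∀ p, ∃ a : Fin (r + 1) → Rmu k (r + 1), ∑ i, a i • ge i = f p := by
    intro p
    rw [← Submodule.mem_span_range_iff_exists_fun, span_ge]
    trivial
  choose a ha using h1
  have h2 : PiTensorProduct.tprod (Rmu k (r + 1)) f = ∑ w : Fin e → Fin (r + 1),
      (∏ p, a p (w p)) • PiTensorProduct.tprod (Rmu k (r + 1)) (fun p => ge (k := k) (w p)) := by
    have : f = fun p => ∑ i, a p i • ge i := funext fun p => (ha p).symm
    rw [this, MultilinearMap.map_sum]
    refine Finset.sum_congr rfl fun w _ => ?_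
    rw [MultilinearMap.map_smul_univ]
  show PiTensorProduct.tprod (Rmu k (r + 1)) f ∈ _
  rw [h2]
  exact Submodule.sum_mem _ fun w _ => Submodule.smul_mem _ _ (Submodule.subset_span ⟨w, rfl⟩)

lemma decomp (c : Rmu k (r + 1)) : ∃ a : k, ∃ m : Rmu k (r + 1),
    (PowerSeries.X : PowerSeries k) ^ (r + 1) ∣ (m : PowerSeries k) ∧
      c = algebraMap k (Rmu k (r + 1)) a + m := by
  refine ⟨PowerSeries.constantCoeff (c : PowerSeries k), c - algebraMap k (Rmu k (r + 1)) _, ?_, by ring⟩
  rw [← mem_max_iff_dvd (Nat.succ_pos r), mem_max]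
  simp

lemma normal_form (x : TensorPower (Rmu k (r + 1)) e (Mo k r)) :
    ∃ (c : (Fin e → Fin (r + 1)) → k) (b : (Fin e → Fin r) → Rmu k (r + 1)),
      (∀ J, (PowerSeries.X : PowerSeries k) ^ (r + 1) ∣ (b J : PowerSeries k)) ∧
      x = ∑ w : Fin e → Fin (r + 1), algebraMap k (Rmu k (r + 1)) (c w) •
          PiTensorProduct.tprod (Rmu k (r + 1)) (fun p => ge (k := k) (w p)) +
        ∑ J : Fin e → Fin r, b J •
          PiTensorProduct.tprod (Rmu k (r + 1)) (fun p => ge (k := k) (J p).succ) := by
  have hx : x ∈ Submodule.span (Rmu k (r + 1)) (Set.range (fun w : Fin e → Fin (r + 1) =>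
    PiTensorProduct.tprod (Rmu k (r + 1)) (fun p => ge (k := k) (w p)))) := by
    rw [span_tprod]; trivial
  rw [Submodule.mem_span_range_iff_exists_fun] at hx
  obtain ⟨d, hd⟩ := hx
  choose a m hm hdm using fun w => decomp (d w)
  choose b hb1 hb2 using fun w : Fin e → Fin (r + 1) =>
    smul_tprod_mem (k := k) (r := r) (Finset.univ) (fun p => ge (w p)) (by simp) (m w) (hm w)
  refine ⟨a, fun J => ∑ w, b w J, ?_, ?_⟩
  · intro J
    have : ((∑ j, b j J : Rmu k (r + 1)) : PowerSeries k) = ∑ j, (b j J : PowerSeries k) := by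
      simp
    rw [this]
    exact Finset.dvd_sum fun j _ => hb1 j J
  · rw [← hd]
    simp only [hdm, add_smul, Finset.sum_add_distrib, hb2, Finset.sum_smul]
    congr 1
    rw [Finset.sum_comm]

/-- evaluation in the power series ring -/
noncomputable def ev : TensorPower (Rmu k (r + 1)) e (Mo k r) →ₗ[Rmu k (r + 1)]
    ((Fin e → Fin r) → PowerSeries k) :=
  LinearMap.pi fun J => PiTensorProduct.lift
    ((MultilinearMap.mkPiAlgebra (Rmu k (r + 1)) (Fin e) (PowerSeries k)).compLinearMap
      (fun p => (LinearMap.proj (J p)).comp (Mo k r).subtype))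

lemma ev_tprod (f : Fin e → Mo k r) (J : Fin e → Fin r) :
    ev (PiTensorProduct.tprod (Rmu k (r + 1)) f) J = ∏ p, (f p).1 (J p) := by
  simp [ev, MultilinearMap.compLinearMap_apply]

theorem ev_ker (he : e ≤ r) (hr : 0 < r) (τ : Fin (r + 1) → k) (hτ : Function.Injective τ)
    (x : TensorPower (Rmu k (r + 1)) e (Mo k r)) (hx : ev (k := k) (r := r) (e := e) x = 0) : x = 0 := by
  obtain ⟨c, b, hb, rfl⟩ := normal_form x
  have hJ : ∀ J : Fin e → Fin r, ∑ w : Fin e → Fin (r + 1),
      PowerSeries.C (c w) * ∏ p, gen k r (w p) (J p) + (b J : PowerSeries k) = 0 := by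
    intro J
    have h1 := congrFun hx J
    rw [map_add, map_sum, map_sum, Pi.add_apply, Finset.sum_apply, Finset.sum_apply] at h1
    simp only [map_smul, Pi.smul_apply, ev_tprod, ge_val, smul_def', Pi.zero_apply] at h1
    rw [← h1]
    congr 1
    rw [Finset.sum_eq_single J]
    · simp [gen_succ]
    · intro J' _ hne
      obtain ⟨p, hp⟩ : ∃ p, J' p ≠ J p := by
        by_contra hcon
        push Not at hcon
        exact hne (funext hcon)
      rw [Finset.prod_eq_zero (Finset.mem_univ p), mul_zero]
      rw [gen_succ, if_neg (Ne.symm hp)]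
    · intro h; exact absurd (Finset.mem_univ _) h
  have hc : c = 0 := by
    refine c_eq_zero he hr τ hτ c fun J => ?_
    have : ∑ w : Fin e → Fin (r + 1), PowerSeries.C (c w) * ∏ p, gen k r (w p) (J p) =
      -(b J : PowerSeries k) := eq_neg_of_add_eq_zero_left (hJ J)
    rw [this]
    exact (hb J).neg_right
  have hb0 : ∀ J, b J = 0 := by
    intro J
    have := hJ J
    rw [hc] at this
    simp at this
    exact this
  simp [hc, hb0]

theorem torsion_eq_bot (he : e ≤ r) (hr : 0 < r) (τ : Fin (r + 1) → k) (hτ : Function.Injective τ) :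
    Submodule.torsion (Rmu k (r + 1)) (TensorPower (Rmu k (r + 1)) e (Mo k r)) = ⊥ := by
  exact torsion_bot_of_ker' (R := Rmu k (r + 1)) (M := Mo k r) ev (ev_ker he hr τ hτ)

end T

end Pool.Agent.H676R3.Tens
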