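import Pool.Agent.H676R3.Len

set_option autoImplicit false
set_option linter.unusedSectionVars false
set_option linter.unusedSimpArgs false
open IsLocalRing Polynomial

namespace Pool.Agent.H676R3.Tens

universe u

section A
variable {R : Type u} [CommRing R] [IsDomain R] [IsLocalRing R] [IsNoetherianRing R]

lemma mem_smul_top_pi (I : Ideal R) {p : ℕ} (f : Fin p → R) :
    f ∈ I • (⊤ : Submodule R (Fin p → R)) ↔ ∀ i, f i ∈ I := by
  constructor
  · intro h i
    induction h using Submodule.smul_induction_on' with
    | smul r hr n hn => exact I.mul_mem_right _ hr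
    | add x hx y hy ihx ihy => exact I.add_mem ihx ihy
  · intro h
    have : f = ∑ i, f i • (Pi.single i 1 : Fin p → R) := by
      funext j
      rw [Finset.sum_apply]
      simp [Pi.single_apply]
    rw [this]
    exact Submodule.sum_mem _ fun i _ => Submodule.smul_mem_smul (h i) trivial

/-- Artin-Rees for colons by the maximal ideal -/
theorem stepA (hm : maximalIdeal R ≠ ⊥) : ∃ n0, ∀ n ≥ n0, ∀ c : R,
    (∀ y ∈ maximalIdeal R, y * c ∈ maximalIdeal R ^ (n + 1)) → c ∈ maximalIdeal R ^ n := by
  obtain ⟨p, a, ha⟩ := Submodule.fg_iff_exists_fin_generating_family.1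
    (IsNoetherian.noetherian (maximalIdeal R))
  have ham : ∀ i, a i ∈ maximalIdeal R := fun i => by
    rw [← ha]; exact Submodule.subset_span ⟨i, rfl⟩
  obtain ⟨i0, hi0⟩ : ∃ i, a i ≠ 0 := by
    by_contra hcon
    push Not at hcon
    apply hm
    rw [← ha, Submodule.span_eq_bot]
    rintro _ ⟨i, rfl⟩
    exact hcon i
  let φ : R →ₗ[R] (Fin p → R) := LinearMap.pi fun i => LinearMap.mulLeft R (a i)
  have hφ : ∀ c i, φ c i = a i * c := fun c i => rfl
  have hinj : Function.Injective φ := by
    intro b c hbc
    have := congrFun hbc i0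
    rw [hφ, hφ] at this
    exact mul_left_cancel₀ hi0 this
  obtain ⟨κ, hκ⟩ := Ideal.exists_pow_inf_eq_pow_smul (I := maximalIdeal R) (LinearMap.range φ)
  refine ⟨κ + 1, ?_⟩
  intro n hn c hc
  have h1 : φ c ∈ maximalIdeal R ^ (n + 1) • (⊤ : Submodule R (Fin p → R)) ⊓ LinearMap.range φ := by
    refine ⟨(mem_smul_top_pi _ _).2 fun i => ?_, ⟨c, rfl⟩⟩
    rw [hφ]; exact hc _ (ham i)
  rw [hκ (n + 1) (by omega)] at h1
  let J : Ideal R := Submodule.comap φ (maximalIdeal R ^ κ • (⊤ : Submodule R (Fin p → R)))
  have h2 : maximalIdeal R ^ κ • (⊤ : Submodule R (Fin p → R)) ⊓ LinearMap.range φ = Submodule.map φ J := by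
    rw [inf_comm]
    exact (Submodule.map_comap_eq φ _).symm
  rw [h2, ← Submodule.map_smul''] at h1
  obtain ⟨c', hc', hcc⟩ := h1
  have hcc' : c' = c := hinj hcc
  subst hcc'
  have h3 : maximalIdeal R * J ≤ maximalIdeal R ^ κ := by
    rw [Ideal.mul_le]
    intro y hy j hj
    have hj' : ∀ i, a i * j ∈ maximalIdeal R ^ κ := by
      have : φ j ∈ maximalIdeal R ^ κ • (⊤ : Submodule R (Fin p → R)) := hj
      exact (mem_smul_top_pi _ _).1 this
    rw [← ha] at hy
    induction hy using Submodule.span_induction with
    | mem x hx => obtain ⟨i, rfl⟩ := hx; exact hj' i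
    | zero => rw [zero_mul]; exact Ideal.zero_mem _
    | add x y _ _ hx hy => rw [add_mul]; exact Ideal.add_mem _ hx hy
    | smul r x _ hx => rw [smul_eq_mul, mul_assoc]; exact Ideal.mul_mem_left _ _ hx
  have h4 : maximalIdeal R ^ (n + 1 - κ) * J ≤ maximalIdeal R ^ n := by
    have e1 : n + 1 - κ = (n - κ) + 1 := by omega
    have e2 : maximalIdeal R ^ n = maximalIdeal R ^ (n - κ) * maximalIdeal R ^ κ := by
      rw [← pow_add]; congr 1; omega
    rw [e1, pow_succ, mul_assoc, e2]
    exact Ideal.mul_mono_right h3
  exact h4 hc'

/-- the generic element -/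
noncomputable def yy {p : ℕ} (a : Fin p → R) : R[X] := ∑ i : Fin p, C (a i) * X ^ (i : ℕ)

lemma coeff_yy_mul {p : ℕ} (a : Fin p → R) (g : R[X]) (N : ℕ) :
    (yy a * g).coeff N = ∑ i : Fin p, a i * (if (i : ℕ) ≤ N then g.coeff (N - i) else 0) := by
  unfold yy
  rw [Finset.sum_mul, finsetSum_coeff]
  refine Finset.sum_congr rfl fun i _ => ?_
  rw [mul_assoc, coeff_C_mul, coeff_X_pow_mul']

/-- McCoy's argument in the associated graded ring -/
theorem stepB {n0 : ℕ} (hA : ∀ n ≥ n0, ∀ c : R,
    (∀ y ∈ maximalIdeal R, y * c ∈ maximalIdeal R ^ (n + 1)) → c ∈ maximalIdeal R ^ n)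
    {p : ℕ} (a : Fin p → R) (ha : Submodule.span R (Set.range a) = maximalIdeal R) :
    ∀ d n, n0 ≤ n → ∀ g : R[X], g.natDegree ≤ d → (∀ i, g.coeff i ∈ maximalIdeal R ^ n) →
      (∀ i, (yy a * g).coeff i ∈ maximalIdeal R ^ (n + 2)) → ∀ i, g.coeff i ∈ maximalIdeal R ^ (n + 1) := by
  have ham : ∀ i, a i ∈ maximalIdeal R := fun i => by
    rw [← ha]; exact Submodule.subset_span ⟨i, rfl⟩
  -- conclusion from the products
  have hconc : ∀ n, n0 ≤ n → ∀ g : R[X], (∀ (i : Fin p) l, a i * g.coeff l ∈ maximalIdeal R ^ (n + 2)) →
      ∀ l, g.coeff l ∈ maximalIdeal R ^ (n + 1) := by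
    intro n hn g h l
    refine hA (n + 1) (by omega) _ fun y hy => ?_
    rw [← ha] at hy
    induction hy using Submodule.span_induction with
    | mem x hx => obtain ⟨i, rfl⟩ := hx; exact h i l
    | zero => rw [zero_mul]; exact Ideal.zero_mem _
    | add x y _ _ hx hy => rw [add_mul]; exact Ideal.add_mem _ hx hy
    | smul r x _ hx => rw [smul_eq_mul, mul_assoc]; exact Ideal.mul_mem_left _ _ hx
  intro d
  induction d with
  | zero =>
    intro n hn g hg hgn hyg
    refine hconc n hn g ?_
    have hl : ∀ l, l ≠ 0 → g.coeff l = 0 := fun l hl =>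
      coeff_eq_zero_of_natDegree_lt (by omega)
    intro i l
    by_cases hl0 : l = 0
    · subst hl0
      have := hyg (i : ℕ)
      rw [coeff_yy_mul, Finset.sum_eq_single i] at this
      · simpa using this
      · intro j _ hj
        split_ifs with h
        · rw [hl, mul_zero]
          intro h'
          exact hj (Fin.ext (by omega))
        · rw [mul_zero]
      · intro h; exact absurd (Finset.mem_univ _) h
    · rw [hl l hl0, mul_zero]; exact Ideal.zero_mem _
  | succ d ih =>
    intro n hn g hg hgn hyg
    refine hconc n hn g ?_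
    have key : ∀ j : ℕ, ∀ i : Fin p, p ≤ i + j → ∀ l, a i * g.coeff l ∈ maximalIdeal R ^ (n + 2) := by
      intro j
      induction j with
      | zero =>
        intro i hi
        exact absurd i.2 (by omega)
      | succ j ihj =>
        intro i hi l
        by_cases hij : p ≤ i + j
        · exact ihj i hij l
        · -- top coefficient
          have htop : a i * g.coeff (d + 1) ∈ maximalIdeal R ^ (n + 2) := by
            have h1 := hyg (i + (d + 1))
            rw [coeff_yy_mul, ← Finset.add_sum_erase _ _ (Finset.mem_univ i)] at h1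
            have h2 : ∑ i' ∈ Finset.univ.erase i, a i' *
                (if (i' : ℕ) ≤ (i : ℕ) + (d + 1) then g.coeff ((i : ℕ) + (d + 1) - i') else 0) ∈
                maximalIdeal R ^ (n + 2) := by
              refine Ideal.sum_mem _ fun i' hi' => ?_
              split_ifs with h
              · rcases lt_trichotomy (i' : ℕ) (i : ℕ) with h3 | h3 | h3
                · rw [coeff_eq_zero_of_natDegree_lt (show g.natDegree < (i : ℕ) + (d + 1) - i' by omega),
                    mul_zero]
                  exact Ideal.zero_mem _
                · exact absurd (Fin.ext h3) (Finset.ne_of_mem_erase hi')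
                · exact ihj i' (by omega) _
              · rw [mul_zero]; exact Ideal.zero_mem _
            have h3 := (Ideal.add_mem_iff_left _ h2).1 h1
            rw [if_pos (by omega)] at h3
            rwa [show (i : ℕ) + (d + 1) - i = d + 1 by omega] at h3
          -- lower coefficients
          have hlow := ih (n + 1) (by omega) (C (a i) * g.erase (d + 1)) ?_ ?_ ?_
          · by_cases hl : l = d + 1
            · rw [hl]; exact htop
            · have := hlow l
              rw [coeff_C_mul, coeff_erase, if_neg hl] at this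
              exact this
          · refine (natDegree_C_mul_le _ _).trans ?_
            rw [natDegree_le_iff_coeff_eq_zero]
            intro N hN
            rw [coeff_erase]
            split_ifs with h
            · rfl
            · exact coeff_eq_zero_of_natDegree_lt (by omega)
          · intro l'
            rw [coeff_C_mul, coeff_erase]
            split_ifs with h
            · rw [mul_zero]; exact Ideal.zero_mem _
            · rw [pow_succ']
              exact Ideal.mul_mem_mul (ham i) (hgn l')
          · intro l'
            have e1 : yy a * (C (a i) * g.erase (d + 1)) =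
                C (a i) * (yy a * g) - C (a i * g.coeff (d + 1)) * (X ^ (d + 1) * yy a) := by
              have e2 : g = monomial (d + 1) (g.coeff (d + 1)) + g.erase (d + 1) :=
                (monomial_add_erase g (d + 1)).symm
              have e3 : (monomial (d + 1) (g.coeff (d + 1)) : R[X]) = C (g.coeff (d + 1)) * X ^ (d + 1) :=
                (C_mul_X_pow_eq_monomial).symm
              rw [e3] at e2
              have e4 : g.erase (d + 1) = g - C (g.coeff (d + 1)) * X ^ (d + 1) := by
                rw [eq_sub_iff_add_eq, add_comm]; exact e2.symm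
              rw [e4, C_mul]
              ring
            rw [e1, coeff_sub, coeff_C_mul, coeff_C_mul]
            refine Ideal.sub_mem _ ?_ ?_
            · rw [show n + 1 + 2 = (n + 2) + 1 by ring, pow_succ']
              exact Ideal.mul_mem_mul (ham i) (hyg l')
            · rw [show n + 1 + 2 = (n + 2) + 1 by ring, pow_succ]
              refine Ideal.mul_mem_mul htop ?_
              rw [coeff_X_pow_mul']
              split_ifs with h
              · unfold yy
                rw [finsetSum_coeff]
                refine Ideal.sum_mem _ fun i' _ => ?_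
                rw [coeff_C_mul]
                exact Ideal.mul_mem_right _ _ (ham i')
              · exact Ideal.zero_mem _
    intro i l
    exact key p i (by omega) l

end A

end Pool.Agent.H676R3.Tens
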