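import Pool.Agent.H676R3.TMult

set_option autoImplicit false
set_option linter.unusedSectionVars false
set_option linter.unusedSimpArgs false
open IsLocalRing Polynomial
open scoped TensorProduct

namespace Pool.Agent.H676R3.Tens

universe u

section A
variable {R : Type u} [CommRing R] [IsDomain R] [IsLocalRing R] [IsNoetherianRing R]

theorem exists_min_gens_ideal (J : Ideal R) :
    ∃ g : Fin (J.spanFinrank) → R, Submodule.span R (Set.range g) = J ∧
      ∀ h : Fin (J.spanFinrank) → R, ∑ l, h l * g l ∈ maximalIdeal R * J →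
        ∀ l, h l ∈ maximalIdeal R := by
  have hfg : Submodule.FG J := IsNoetherian.noetherian J
  have hfr : Module.finrank (ResidueField R) (ResidueField R ⊗[R] J) = J.spanFinrank := by
    rw [← TensorProduct.spanFinrank_top_eq_of_residueField J hfg, ← Module.finrank_eq_spanFinrank_of_free]
  let b := Module.finBasisOfFinrankEq (ResidueField R) (ResidueField R ⊗[R] J) hfr
  have hs : Function.Surjective (TensorProduct.mk R (ResidueField R) J 1) :=
    TensorProduct.mk_surjective R J (ResidueField R) residue_surjective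
  choose v hv using fun i => hs (b i)
  have hsp : Submodule.span R (Set.range v) = ⊤ :=
    IsLocalRing.span_eq_top_of_tmul_eq_basis v b (fun i => by simpa using hv i)
  let l : Fin (J.spanFinrank) → (J →ₗ[R] ResidueField R) :=
    fun i => ((b.coord i).restrictScalars R).comp (TensorProduct.mk R (ResidueField R) J 1)
  have hl : ∀ i j, l i (v j) = if i = j then 1 else 0 := by
    intro i j
    simp only [l, LinearMap.comp_apply, hv, LinearMap.coe_restrictScalars, Module.Basis.coord_apply,
      Module.Basis.repr_self, Finsupp.single_apply, eq_comm]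
  have hlm : ∀ i (x : J), x ∈ maximalIdeal R • (⊤ : Submodule R J) → l i x = 0 := by
    intro i x hx
    induction hx using Submodule.smul_induction_on' with
    | smul r hr n hn =>
      rw [map_smul, Algebra.smul_def]
      have : algebraMap R (ResidueField R) r = 0 := (residue_eq_zero_iff r).2 hr
      rw [this, zero_mul]
    | add x hx y hy ihx ihy => rw [map_add, ihx, ihy, add_zero]
  refine ⟨fun i => (v i : R), ?_, ?_⟩
  · have h := congrArg (Submodule.map J.subtype) hsp
    rw [Submodule.map_span, Submodule.map_top, Submodule.range_subtype, ← Set.range_comp] at h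
    exact h
  · intro h hh i
    have h1 : (∑ j, h j • v j) ∈ maximalIdeal R • (⊤ : Submodule R J) := by
      have h2 : Submodule.map J.subtype (maximalIdeal R • (⊤ : Submodule R J)) = maximalIdeal R * J := by
        rw [Submodule.map_smul'', Submodule.map_top, Submodule.range_subtype]
        rfl
      have h3 : J.subtype (∑ j, h j • v j) ∈ Submodule.map J.subtype (maximalIdeal R • (⊤ : Submodule R J)) := by
        rw [h2, map_sum]
        simpa using hh
      obtain ⟨z, hz, hz'⟩ := h3
      rwa [← J.injective_subtype hz']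
    have h4 := hlm i _ h1
    rw [map_sum] at h4
    simp only [map_smul, hl, smul_ite, smul_zero, Finset.sum_ite_eq, Finset.mem_univ, if_true] at h4
    rw [Algebra.smul_def, mul_one] at h4
    exact (residue_eq_zero_iff _).1 h4

theorem exists_matrix {n s t p : ℕ} (a : Fin p → R) (ham : ∀ i, a i ∈ maximalIdeal R) (g : Fin s → R)
    (hg : Submodule.span R (Set.range g) = maximalIdeal R ^ n) (f : Fin t → R)
    (hf : Submodule.span R (Set.range f) = maximalIdeal R ^ (n + 1)) :
    ∃ A : Matrix (Fin t) (Fin s) R[X], ∀ l, ∑ q, A q l * C (f q) = yy a * C (g l) := by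
  have h1 : ∀ (i : Fin p) (l : Fin s), ∃ c : Fin t → R, ∑ q, c q * f q = a i * g l := by
    intro i l
    have : a i * g l ∈ maximalIdeal R ^ (n + 1) := by
      rw [pow_succ']
      exact Ideal.mul_mem_mul (ham i) (by rw [← hg]; exact Submodule.subset_span ⟨l, rfl⟩)
    rw [← hf, Submodule.mem_span_range_iff_exists_fun] at this
    exact this
  choose c hc using h1
  refine ⟨fun q l => ∑ i : Fin p, C (c i l q) * X ^ (i : ℕ), ?_⟩
  intro l
  unfold yy
  simp only [Finset.sum_mul]
  rw [Finset.sum_comm]
  refine Finset.sum_congr rfl fun i _ => ?_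
  rw [mul_right_comm, ← C_mul, ← hc i l, map_sum, Finset.sum_mul]
  refine Finset.sum_congr rfl fun q _ => ?_
  rw [C_mul]
  ring

theorem matrix_injective {n0 n s t p : ℕ} (hA : ∀ n ≥ n0, ∀ c : R,
    (∀ y ∈ maximalIdeal R, y * c ∈ maximalIdeal R ^ (n + 1)) → c ∈ maximalIdeal R ^ n) (hn : n0 ≤ n)
    (a : Fin p → R) (ha : Submodule.span R (Set.range a) = maximalIdeal R) (g : Fin s → R)
    (hg : Submodule.span R (Set.range g) = maximalIdeal R ^ n)
    (hmin : ∀ h : Fin s → R, ∑ l, h l * g l ∈ maximalIdeal R * maximalIdeal R ^ n →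
        ∀ l, h l ∈ maximalIdeal R) (f : Fin t → R)
    (hf : Submodule.span R (Set.range f) = maximalIdeal R ^ (n + 1))
    (A : Matrix (Fin t) (Fin s) R[X]) (hAm : ∀ l, ∑ q, A q l * C (f q) = yy a * C (g l))
    (v : Fin s → (ResidueField R)[X])
    (hv : (A.map (mapRingHom (residue R))).mulVec v = 0) : v = 0 := by
  have hsur : Function.Surjective (mapRingHom (residue R)) :=
    Polynomial.map_surjective _ residue_surjective
  choose h hh using fun l => hsur (v l)
  have hgm : ∀ l, g l ∈ maximalIdeal R ^ n := fun l => by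
    rw [← hg]; exact Submodule.subset_span ⟨l, rfl⟩
  have hfm : ∀ l, f l ∈ maximalIdeal R ^ (n + 1) := fun l => by
    rw [← hf]; exact Submodule.subset_span ⟨l, rfl⟩
  have h1 : ∀ q i, (∑ l, A q l * h l).coeff i ∈ maximalIdeal R := by
    intro q i
    have h2 := congrFun hv q
    rw [Matrix.mulVec, dotProduct, Pi.zero_apply] at h2
    simp only [Matrix.map_apply, ← hh] at h2
    have h3 : mapRingHom (residue R) (∑ l, A q l * h l) = 0 := by
      rw [map_sum, ← h2]
      exact Finset.sum_congr rfl fun l _ => map_mul _ _ _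
    have h4 := congrArg (fun P => Polynomial.coeff P i) h3
    simp only [coe_mapRingHom, coeff_map, coeff_zero] at h4
    exact (residue_eq_zero_iff _).1 h4
  have h2 : yy a * (∑ l, h l * C (g l)) = ∑ q, (∑ l, A q l * h l) * C (f q) := by
    rw [Finset.mul_sum]
    simp only [Finset.sum_mul]
    rw [Finset.sum_comm]
    refine Finset.sum_congr rfl fun l _ => ?_
    calc yy a * (h l * C (g l)) = h l * (yy a * C (g l)) := by ring
      _ = h l * ∑ q, A q l * C (f q) := by rw [hAm l]
      _ = ∑ q, A q l * h l * C (f q) := by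
        rw [Finset.mul_sum]
        exact Finset.sum_congr rfl fun q _ => by ring
  have h3 := stepB hA a ha (∑ l, h l * C (g l)).natDegree n hn (∑ l, h l * C (g l)) le_rfl ?_ ?_
  · funext l
    rw [← hh l, Pi.zero_apply]
    ext i
    rw [coe_mapRingHom, coeff_map, coeff_zero]
    apply (residue_eq_zero_iff _).2
    refine hmin (fun l => (h l).coeff i) ?_ l
    have := h3 i
    rw [finsetSum_coeff, pow_succ'] at this
    simpa only [coeff_mul_C] using this
  · intro i
    rw [finsetSum_coeff]
    refine Ideal.sum_mem _ fun l _ => ?_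
    rw [coeff_mul_C]
    exact Ideal.mul_mem_left _ _ (hgm l)
  · intro i
    rw [h2, finsetSum_coeff]
    refine Ideal.sum_mem _ fun q _ => ?_
    rw [coeff_mul_C, show n + 2 = (n + 1) + 1 by ring, pow_succ']
    exact Ideal.mul_mem_mul (h1 q i) (hfm q)

theorem spanFinrank_mono {n0 n : ℕ} (hA : ∀ n ≥ n0, ∀ c : R,
    (∀ y ∈ maximalIdeal R, y * c ∈ maximalIdeal R ^ (n + 1)) → c ∈ maximalIdeal R ^ n) (hn : n0 ≤ n) :
    (maximalIdeal R ^ n).spanFinrank ≤ (maximalIdeal R ^ (n + 1)).spanFinrank := by
  obtain ⟨p, a, ha⟩ := Submodule.fg_iff_exists_fin_generating_family.1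
    (IsNoetherian.noetherian (maximalIdeal R))
  have ham : ∀ i, a i ∈ maximalIdeal R := fun i => by
    rw [← ha]; exact Submodule.subset_span ⟨i, rfl⟩
  obtain ⟨g, hg, hmin⟩ := exists_min_gens_ideal (maximalIdeal R ^ n)
  obtain ⟨f, hf, _⟩ := exists_min_gens_ideal (maximalIdeal R ^ (n + 1))
  obtain ⟨A, hAm⟩ := exists_matrix a ham g hg f hf
  have hinj : Function.Injective (A.map (mapRingHom (residue R))).mulVecLin := by
    rw [← LinearMap.ker_eq_bot, LinearMap.ker_eq_bot']
    intro v hv
    exact matrix_injective hA hn a ha g hg hmin f hf A hAm v hv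
  have := card_le_of_injective (ResidueField R)[X] _ hinj
  simpa using this

/-- the number of generators of `m ^ n` is eventually constant -/
theorem exists_const [Ring.KrullDimLE 1 R] (hm : maximalIdeal R ≠ ⊥) {n0 : ℕ} (hA : ∀ n ≥ n0, ∀ c : R,
    (∀ y ∈ maximalIdeal R, y * c ∈ maximalIdeal R ^ (n + 1)) → c ∈ maximalIdeal R ^ n) :
    ∃ n1 μ, n0 ≤ n1 ∧ ∀ n ≥ n1, (maximalIdeal R ^ n).spanFinrank = μ := by
  obtain ⟨x, hx, hx0⟩ := Submodule.exists_mem_ne_zero_of_ne_bot hm
  have hfin : Module.length R (R ⧸ Ideal.span {x}) ≠ ⊤ := length_quot_ne_top _ (by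
    rw [Ne, Ideal.span_singleton_eq_bot]; exact hx0)
  obtain ⟨N, hN⟩ := ENat.ne_top_iff_exists.1 hfin
  have hb : ∀ n, (maximalIdeal R ^ n).spanFinrank ≤ N := by
    intro n
    have := spanFinrank_le_of_mul hx hx0 (maximalIdeal R ^ n)
    rw [← hN] at this
    exact_mod_cast this
  have hmono : Monotone (fun n => (maximalIdeal R ^ (n0 + n)).spanFinrank) :=
    monotone_nat_of_le_succ fun n => spanFinrank_mono hA (by omega)
  -- choose the maximal value
  have hex : ∃ v, (∃ n, (maximalIdeal R ^ (n0 + n)).spanFinrank = v) ∧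
      ∀ n, (maximalIdeal R ^ (n0 + n)).spanFinrank ≤ v := by
    have hfinite : (Set.range (fun n => (maximalIdeal R ^ (n0 + n)).spanFinrank)).Finite :=
      (Set.finite_Iic N).subset (by rintro _ ⟨n, rfl⟩; exact hb _)
    obtain ⟨v, hv, hv'⟩ := Set.exists_max_image _ id hfinite ⟨_, ⟨0, rfl⟩⟩
    obtain ⟨n, rfl⟩ := hv
    exact ⟨_, ⟨n, rfl⟩, fun m => hv' _ ⟨m, rfl⟩⟩
  obtain ⟨v, ⟨n, hn⟩, hv⟩ := hex
  refine ⟨n0 + n, v, by omega, fun m hm => ?_⟩
  obtain ⟨j, rfl⟩ := Nat.exists_eq_add_of_le hm
  apply le_antisymm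
  · rw [add_assoc]; exact hv _
  · rw [← hn, add_assoc]; exact hmono (by omega)

end A

end Pool.Agent.H676R3.Tens
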