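import Pool.Agent.H676R3.TMult2

set_option autoImplicit false
set_option linter.unusedSectionVars false
set_option linter.unusedSimpArgs false
open IsLocalRing Polynomial
open scoped TensorProduct

namespace Pool.Agent.H676R3.Tens

universe u

section A
variable {R : Type u} [CommRing R] [IsDomain R] [IsLocalRing R] [IsNoetherianRing R]

/-- a monic polynomial modulo which `det A` is invertible -/
theorem exists_monic (D : R[X]) (hD : D.map (residue R) ≠ 0) :
    ∃ (G : R[X]) (w : R) (E : R[X]), G.Monic ∧ 0 < G.natDegree ∧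
      (∀ i, E.coeff i ∈ maximalIdeal R) ∧ X * D + 1 = C w * G + E := by
  set δ := D.map (residue R) with hδ
  set γ0 : (ResidueField R)[X] := X * δ + 1 with hγ0
  have hdeg : γ0.natDegree = δ.natDegree + 1 := by
    rw [hγ0, natDegree_add_eq_left_of_natDegree_lt]
    · rw [natDegree_X_mul hD]
    · rw [natDegree_one, natDegree_X_mul hD]; omega
  have hγ0' : γ0 ≠ 0 := by
    intro h; rw [h, natDegree_zero] at hdeg; omega
  set l := γ0.leadingCoeff with hl
  have hl0 : l ≠ 0 := leadingCoeff_ne_zero.2 hγ0'
  have hmonic : (C l⁻¹ * γ0).Monic := monic_C_mul_of_mul_leadingCoeff_eq_one (inv_mul_cancel₀ hl0)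
  have hlift : (C l⁻¹ * γ0) ∈ Polynomial.lifts (residue R) := by
    rw [Polynomial.mem_lifts]
    exact Polynomial.map_surjective _ residue_surjective _
  obtain ⟨G, hG1, hG2, hG3⟩ := lifts_and_natDegree_eq_and_monic hlift hmonic
  obtain ⟨w, hw⟩ := residue_surjective (R := R) l
  refine ⟨G, w, X * D + 1 - C w * G, hG3, ?_, ?_, by ring⟩
  · rw [hG2, natDegree_C_mul (inv_ne_zero hl0), hdeg]; omega
  · intro i
    apply (residue_eq_zero_iff _).1
    have h1 : (X * D + 1 - C w * G).map (residue R) = 0 := by
      rw [Polynomial.map_sub, Polynomial.map_add, Polynomial.map_mul, Polynomial.map_X,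
        Polynomial.map_one, Polynomial.map_mul, Polynomial.map_C, hw, hG1, ← hδ, ← mul_assoc, ← C_mul,
        mul_inv_cancel₀ hl0, C_1, one_mul, sub_self]
    have h2 := congrArg (fun P => Polynomial.coeff P i) h1
    simpa only [coeff_map, coeff_zero] using h2

variable (G : R[X])

lemma mk_mem (I : Ideal R) (E : R[X]) (hE : ∀ i, E.coeff i ∈ I) :
    AdjoinRoot.mk G E ∈ I • (⊤ : Submodule R (AdjoinRoot G)) := by
  rw [E.as_sum_support_C_mul_X_pow, map_sum]
  refine Submodule.sum_mem _ fun i _ => ?_
  have : AdjoinRoot.mk G (C (E.coeff i) * X ^ i) = E.coeff i • (AdjoinRoot.mk G (X ^ i)) := by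
    rw [← Polynomial.smul_eq_C_mul, ← AdjoinRoot.smul_mk]
  rw [this]
  exact Submodule.smul_mem_smul (hE i) trivial

lemma mul_mem_smul_top (I : Ideal R) {z : AdjoinRoot G} (hz : z ∈ I • (⊤ : Submodule R (AdjoinRoot G)))
    (p : AdjoinRoot G) : z * p ∈ I • (⊤ : Submodule R (AdjoinRoot G)) := by
  induction hz using Submodule.smul_induction_on' with
  | smul r hr n hn =>
    rw [smul_mul_assoc]
    exact Submodule.smul_mem_smul hr trivial
  | add x hx y hy ihx ihy => rw [add_mul]; exact Submodule.add_mem _ ihx ihy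

/-- multiplication by the generic element -/
noncomputable def YY {p : ℕ} (a : Fin p → R) : AdjoinRoot G →ₗ[R] AdjoinRoot G :=
  LinearMap.mulLeft R (AdjoinRoot.mk G (yy a))

lemma YY_apply {p : ℕ} (a : Fin p → R) (z : AdjoinRoot G) :
    YY G a z = AdjoinRoot.mk G (yy a) * z := rfl

lemma coeff_yy {p : ℕ} (a : Fin p → R) (ham : ∀ i, a i ∈ maximalIdeal R) (i : ℕ) :
    (yy a).coeff i ∈ maximalIdeal R := by
  unfold yy
  rw [finsetSum_coeff]
  refine Ideal.sum_mem _ fun i' _ => ?_
  rw [coeff_C_mul]
  exact Ideal.mul_mem_right _ _ (ham i')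

lemma map_YY_le {p : ℕ} (a : Fin p → R) (ham : ∀ i, a i ∈ maximalIdeal R) (I : Ideal R) :
    Submodule.map (YY G a) (I • (⊤ : Submodule R (AdjoinRoot G))) ≤
      (maximalIdeal R * I) • (⊤ : Submodule R (AdjoinRoot G)) := by
  rw [Submodule.map_smul'', mul_comm, Submodule.mul_smul]
  refine Submodule.smul_mono le_rfl ?_
  rintro _ ⟨z, _, rfl⟩
  rw [YY_apply]
  exact mul_mem_smul_top G _ (mk_mem G _ _ (coeff_yy a ham)) z

theorem length_quot_smul_top (hG : G.Monic) (I : Ideal R) :
    Module.length R (AdjoinRoot G ⧸ (I • (⊤ : Submodule R (AdjoinRoot G)))) =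
      Module.finrank R (AdjoinRoot G) * Module.length R (R ⧸ I) := by
  have := hG.free_adjoinRoot
  have := hG.finite_adjoinRoot
  let b := Module.finBasis R (AdjoinRoot G)
  have e1 := (TensorProduct.quotTensorEquivQuotSMul (AdjoinRoot G) I).length_eq
  have e2 := (LinearEquiv.lTensor (R ⧸ I) b.equivFun).length_eq
  have e3 := (TensorProduct.piScalarRight R R (R ⧸ I) (Fin (Module.finrank R (AdjoinRoot G)))).length_eq
  rw [← e1, e2, e3, Module.length_pi]
  simp

theorem surj_step (hne : maximalIdeal R ≠ ⊥) (hG : G.Monic) {n s p : ℕ} (a : Fin p → R) (ham : ∀ i, a i ∈ maximalIdeal R)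
    (g : Fin s → R) (hg : Submodule.span R (Set.range g) = maximalIdeal R ^ n) (f : Fin s → R)
    (hf : Submodule.span R (Set.range f) = maximalIdeal R ^ (n + 1)) (A : Matrix (Fin s) (Fin s) R[X])
    (hAm : ∀ l, ∑ q, A q l * C (f q) = yy a * C (g l)) (w : R) (E : R[X])
    (hE : ∀ i, E.coeff i ∈ maximalIdeal R) (hGE : X * A.det + 1 = C w * G + E) :
    Submodule.map (YY G a) ((maximalIdeal R ^ n) • (⊤ : Submodule R (AdjoinRoot G))) =
      (maximalIdeal R ^ (n + 1)) • (⊤ : Submodule R (AdjoinRoot G)) ∧
      Function.Injective (YY G a) := by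
  have hfree := hG.free_adjoinRoot
  have hfin := hG.finite_adjoinRoot
  have hgm : ∀ l, g l ∈ maximalIdeal R ^ n := fun l => by
    rw [← hg]; exact Submodule.subset_span ⟨l, rfl⟩
  have hfm : ∀ l, f l ∈ maximalIdeal R ^ (n + 1) := fun l => by
    rw [← hf]; exact Submodule.subset_span ⟨l, rfl⟩
  -- the adjugate identity
  have hadj : ∀ q', A.det * C (f q') = yy a * ∑ l, A.adjugate l q' * C (g l) := by
    intro q'
    have h1 : ∑ l, A.adjugate l q' * ∑ q, A q l * C (f q) = A.det * C (f q') := by
      simp only [Finset.mul_sum]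
      rw [Finset.sum_comm]
      have h2 : ∀ q, ∑ l, A.adjugate l q' * (A q l * C (f q)) = (A * A.adjugate) q q' * C (f q) := by
        intro q
        rw [Matrix.mul_apply, Finset.sum_mul]
        exact Finset.sum_congr rfl fun l _ => by ring
      simp only [h2, Matrix.mul_adjugate, Matrix.smul_apply, smul_eq_mul]
      rw [Finset.sum_eq_single q']
      · simp
      · intro q _ hq
        rw [Matrix.one_apply_ne hq]; ring
      · intro h; exact absurd (Finset.mem_univ _) h
    rw [← h1, Finset.mul_sum]
    refine Finset.sum_congr rfl fun l _ => ?_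
    rw [hAm l]; ring
  have hWm : ∀ q' i, (∑ l, A.adjugate l q' * C (g l)).coeff i ∈ maximalIdeal R ^ n := by
    intro q' i
    rw [finsetSum_coeff]
    refine Ideal.sum_mem _ fun l _ => ?_
    rw [coeff_mul_C]
    exact Ideal.mul_mem_left _ _ (hgm l)
  have hone : (1 : AdjoinRoot G) = AdjoinRoot.mk G E - AdjoinRoot.mk G X * AdjoinRoot.mk G A.det := by
    have h1 := congrArg (AdjoinRoot.mk G) hGE
    rw [map_add, map_mul, map_one, map_add, map_mul, AdjoinRoot.mk_self, mul_zero, zero_add] at h1
    rw [eq_sub_iff_add_eq, add_comm]; exact h1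
  have hsmul : ∀ (r : R) (z : AdjoinRoot G), r • z = AdjoinRoot.mk G (C r) * z := by
    intro r z
    rw [Algebra.smul_def]; rfl
  constructor
  · apply le_antisymm
    · have := map_YY_le G a ham (maximalIdeal R ^ n)
      rwa [← pow_succ'] at this
    · refine Submodule.le_of_le_smul_of_le_jacobson_bot (I := maximalIdeal R)
        (IsNoetherian.noetherian _) (by rw [IsLocalRing.jacobson_eq_maximalIdeal ⊥ bot_ne_top]) ?_
      rw [Submodule.smul_le]
      intro r hr z _
      rw [← hf] at hr
      induction hr using Submodule.span_induction with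
      | zero => rw [zero_smul]; exact Submodule.zero_mem _
      | add x y _ _ hx hy => rw [add_smul]; exact Submodule.add_mem _ hx hy
      | smul c x _ hx => rw [smul_assoc]; exact Submodule.smul_mem _ _ hx
      | mem x hx =>
        obtain ⟨q', rfl⟩ := hx
        have e1 : f q' • z = AdjoinRoot.mk G (yy a) *
            (-(AdjoinRoot.mk G X * AdjoinRoot.mk G (∑ l, A.adjugate l q' * C (g l)) * z)) +
            f q' • (AdjoinRoot.mk G E * z) := by
          have h1 := congrArg (AdjoinRoot.mk G) (hadj q')
          rw [map_mul, map_mul] at h1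
          calc f q' • z = (1 : AdjoinRoot G) * (f q' • z) := by rw [one_mul]
            _ = (AdjoinRoot.mk G E - AdjoinRoot.mk G X * AdjoinRoot.mk G A.det) * (f q' • z) := by
                rw [← hone]
            _ = _ := by
                rw [hsmul, hsmul]
                linear_combination (-(AdjoinRoot.mk G X * z)) * h1
        rw [e1]
        refine Submodule.add_mem_sup ⟨_, ?_, rfl⟩ ?_
        · have := mul_mem_smul_top G _ (mk_mem G (maximalIdeal R ^ n) _ (hWm q')) (-(AdjoinRoot.mk G X * z))
          have e2 : -(AdjoinRoot.mk G X * AdjoinRoot.mk G (∑ l, A.adjugate l q' * C (g l)) * z) =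
              AdjoinRoot.mk G (∑ l, A.adjugate l q' * C (g l)) * (-(AdjoinRoot.mk G X * z)) := by ring
          rw [e2]
          exact this
        · rw [← Submodule.mul_smul, mul_comm, Submodule.mul_smul]
          refine Submodule.smul_mem_smul (hfm q') ?_
          exact mul_mem_smul_top G _ (mk_mem G _ _ hE) z
  · rw [← LinearMap.ker_eq_bot, LinearMap.ker_eq_bot']
    intro z hz
    rw [YY_apply] at hz
    -- some `f q ≠ 0`, or the maximal ideal power vanishes
    have hdet : AdjoinRoot.mk G A.det * z = 0 ∨ maximalIdeal R ^ (n + 1) = ⊥ := by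
      by_cases hall : ∀ q, f q = 0
      · right
        rw [← hf, Submodule.span_eq_bot]
        rintro _ ⟨q, rfl⟩
        exact hall q
      · left
        push Not at hall
        obtain ⟨q, hq⟩ := hall
        have h1 := congrArg (AdjoinRoot.mk G) (hadj q)
        rw [map_mul, map_mul] at h1
        have h2 : f q • (AdjoinRoot.mk G A.det * z) = 0 := by
          rw [hsmul]
          calc AdjoinRoot.mk G (C (f q)) * (AdjoinRoot.mk G A.det * z)
              = (AdjoinRoot.mk G A.det * AdjoinRoot.mk G (C (f q))) * z := by ring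
            _ = AdjoinRoot.mk G (∑ l, A.adjugate l q * C (g l)) * (AdjoinRoot.mk G (yy a) * z) := by
                rw [h1]; ring
            _ = 0 := by rw [hz, mul_zero]
        exact (smul_eq_zero.1 h2).resolve_left hq
    -- Nakayama
    have hNak : ∀ z : AdjoinRoot G, (∀ c : AdjoinRoot G, c * z ∈ maximalIdeal R •
        (Submodule.restrictScalars R (Ideal.span {z}))) → z = 0 := by
      intro z h
      have hN : Submodule.restrictScalars R (Ideal.span {z}) = ⊥ := by
        refine Submodule.eq_bot_of_le_smul_of_le_jacobson_bot (maximalIdeal R) _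
          (IsNoetherian.noetherian _) ?_ (by rw [IsLocalRing.jacobson_eq_maximalIdeal ⊥ bot_ne_top])
        intro x hx
        have hx' : x ∈ Ideal.span {z} := hx
        obtain ⟨c, rfl⟩ := Ideal.mem_span_singleton'.1 hx'
        exact h c
      have : z ∈ Submodule.restrictScalars R (Ideal.span {z}) := Ideal.mem_span_singleton_self z
      rw [hN] at this
      exact (Submodule.mem_bot R).1 this
    have hEmem : ∀ c : AdjoinRoot G, AdjoinRoot.mk G E * (c * z) ∈ maximalIdeal R •
        (Submodule.restrictScalars R (Ideal.span {z})) := by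
      intro c
      have h1 : ∀ e : AdjoinRoot G, e ∈ maximalIdeal R • (⊤ : Submodule R (AdjoinRoot G)) →
          e * (c * z) ∈ maximalIdeal R • (Submodule.restrictScalars R (Ideal.span {z})) := by
        intro e he
        induction he using Submodule.smul_induction_on' with
        | smul r hr n hn =>
          rw [smul_mul_assoc]
          refine Submodule.smul_mem_smul hr ?_
          show n * (c * z) ∈ Ideal.span {z}
          rw [← mul_assoc]
          exact Ideal.mul_mem_left _ _ (Ideal.mem_span_singleton_self z)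
        | add x hx y hy ihx ihy => rw [add_mul]; exact Submodule.add_mem _ ihx ihy
      exact h1 _ (mk_mem G _ _ hE)
    rcases hdet with hdet | hbot
    · apply hNak z
      intro c
      have e1 : c * z = AdjoinRoot.mk G E * (c * z) := by
        calc c * z = (1 : AdjoinRoot G) * (c * z) := by rw [one_mul]
          _ = (AdjoinRoot.mk G E - AdjoinRoot.mk G X * AdjoinRoot.mk G A.det) * (c * z) := by rw [← hone]
          _ = AdjoinRoot.mk G E * (c * z) - AdjoinRoot.mk G X * c * (AdjoinRoot.mk G A.det * z) := by ring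
          _ = AdjoinRoot.mk G E * (c * z) := by rw [hdet, mul_zero, sub_zero]
      rw [e1]
      exact hEmem c
    · exact absurd hbot (pow_ne_zero _ hne)

theorem length_mul (I : Ideal R) : Module.length R (R ⧸ (maximalIdeal R * I)) =
    I.spanFinrank + Module.length R (R ⧸ I) := by
  have h1 := length_quot_add (R := R) (P := R) (A := maximalIdeal R * I) (B := I) Ideal.mul_le_right
  rw [h1, ← length_quot_smul I]
  congr 1
  have h2 : Submodule.comap (Submodule.subtype I) (maximalIdeal R * I : Ideal R) =
      maximalIdeal R • (⊤ : Submodule R I) := by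
    have h3 : (maximalIdeal R * I : Ideal R) =
        Submodule.map (Submodule.subtype I) (maximalIdeal R • (⊤ : Submodule R I)) := by
      rw [Submodule.map_smul'', Submodule.map_top, Submodule.range_subtype]
      rfl
    rw [h3, Submodule.comap_map_eq_of_injective (Submodule.injective_subtype I)]
  rw [h2]

/-- all ideals have at most `s` generators, where `s` is the number of generators of `m ^ n` -/
theorem spanFinrank_le_mult [Ring.KrullDimLE 1 R] (hne : maximalIdeal R ≠ ⊥) {n0 n : ℕ}
    (hA : ∀ n ≥ n0, ∀ c : R,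
      (∀ y ∈ maximalIdeal R, y * c ∈ maximalIdeal R ^ (n + 1)) → c ∈ maximalIdeal R ^ n)
    (hn : n0 ≤ n) (heq : (maximalIdeal R ^ (n + 1)).spanFinrank = (maximalIdeal R ^ n).spanFinrank)
    (I : Ideal R) : I.spanFinrank ≤ (maximalIdeal R ^ n).spanFinrank := by
  by_cases hI : I = ⊥
  · subst hI; simp
  obtain ⟨p, a, ha⟩ := Submodule.fg_iff_exists_fin_generating_family.1
    (IsNoetherian.noetherian (maximalIdeal R))
  have ham : ∀ i, a i ∈ maximalIdeal R := fun i => by
    rw [← ha]; exact Submodule.subset_span ⟨i, rfl⟩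
  obtain ⟨g, hg, hmin⟩ := exists_min_gens_ideal (maximalIdeal R ^ n)
  obtain ⟨f, hf⟩ : ∃ f : Fin ((maximalIdeal R ^ n).spanFinrank) → R,
      Submodule.span R (Set.range f) = maximalIdeal R ^ (n + 1) := by
    rw [← heq]
    obtain ⟨f, hf, _⟩ := exists_min_gens_ideal (maximalIdeal R ^ (n + 1))
    exact ⟨f, hf⟩
  obtain ⟨A, hAm⟩ := exists_matrix a ham g hg f hf
  have hdet : A.det.map (residue R) ≠ 0 := by
    have h1 : A.det.map (residue R) = (A.map (mapRingHom (residue R))).det := by
      have := RingHom.map_det (mapRingHom (residue R)) A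
      rw [← coe_mapRingHom, this]
      rfl
    rw [h1]
    intro h
    obtain ⟨v, hv0, hv⟩ := Matrix.exists_mulVec_eq_zero_iff.2 h
    exact hv0 (matrix_injective hA hn a ha g hg hmin f hf A hAm v hv)
  obtain ⟨G, w, E, hG, hGd, hE, hGE⟩ := exists_monic A.det hdet
  obtain ⟨hsurj, hinj⟩ := surj_step G hne hG a ham g hg f hf A hAm w E hE hGE
  have hfree := hG.free_adjoinRoot
  have hfin := hG.finite_adjoinRoot
  set D := Module.finrank R (AdjoinRoot G) with hD
  have hDpos : 0 < D := by
    have : Nontrivial (AdjoinRoot G) := AdjoinRoot.nontrivial G (natDegree_pos_iff_degree_pos.1 hGd).ne'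
    exact Module.finrank_pos
  set T := Module.length R (AdjoinRoot G ⧸ LinearMap.range (YY G a)) with hT
  have e1 := length_quot_map (YY G a) hinj ((maximalIdeal R ^ n) • (⊤ : Submodule R (AdjoinRoot G)))
  rw [hsurj, length_quot_smul_top G hG, length_quot_smul_top G hG, ← hD, ← hT, pow_succ',
    length_mul] at e1
  have e2 := length_quot_map (YY G a) hinj (I • (⊤ : Submodule R (AdjoinRoot G)))
  have e3 : Module.length R (AdjoinRoot G ⧸ ((maximalIdeal R * I) • (⊤ : Submodule R (AdjoinRoot G)))) ≤
      Module.length R (AdjoinRoot G ⧸ Submodule.map (YY G a) (I • (⊤ : Submodule R (AdjoinRoot G)))) :=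
    Module.length_le_of_surjective (Submodule.factor (map_YY_le G a ham I))
      (Submodule.factor_surjective _)
  rw [e2, length_quot_smul_top G hG, length_quot_smul_top G hG, ← hD, ← hT, length_mul] at e3
  obtain ⟨L1, hL1⟩ := ENat.ne_top_iff_exists.1 (length_quot_ne_top (maximalIdeal R ^ n) (pow_ne_zero _ hne))
  obtain ⟨L2, hL2⟩ := ENat.ne_top_iff_exists.1 (length_quot_ne_top I hI)
  rw [← hL1] at e1
  rw [← hL2] at e3
  have hTtop : T ≠ ⊤ := by
    intro h
    rw [h, add_top] at e1
    have : ((D : ℕ∞) * (((maximalIdeal R ^ n).spanFinrank : ℕ∞) + (L1 : ℕ∞))) ≠ ⊤ := by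
      have : ((D : ℕ∞) * (((maximalIdeal R ^ n).spanFinrank : ℕ∞) + (L1 : ℕ∞))) =
        ((D * ((maximalIdeal R ^ n).spanFinrank + L1) : ℕ) : ℕ∞) := by push_cast; rfl
      rw [this]; exact ENat.natCast_ne_top _
    exact this e1
  obtain ⟨T', hT'⟩ := ENat.ne_top_iff_exists.1 hTtop
  rw [← hT'] at e1 e3
  have e1' : D * ((maximalIdeal R ^ n).spanFinrank + L1) = D * L1 + T' := by exact_mod_cast e1
  have e3' : D * (I.spanFinrank + L2) ≤ D * L2 + T' := by exact_mod_cast e3
  have e4 : D * I.spanFinrank ≤ D * (maximalIdeal R ^ n).spanFinrank := by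
    rw [mul_add] at e1' e3'
    omega
  exact Nat.le_of_mul_le_mul_left e4 hDpos

end A

end Pool.Agent.H676R3.Tens
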