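import Pool.Agent.H676R3.TMult3
import Pool.Agent.H676R3.TFin

set_option autoImplicit false
set_option linter.unusedSectionVars false
set_option linter.unusedSimpArgs false
open IsLocalRing Filter
open scoped Topology

namespace Pool.Agent.H676R3.Tens

universe u

section A
variable {R : Type u} [CommRing R] [IsDomain R] [IsLocalRing R] [IsNoetherianRing R]

theorem exists_mult [Ring.KrullDimLE 1 R] (hne : maximalIdeal R ≠ ⊥) :
    ∃ μ : ℕ, 1 ≤ μ ∧ IsMultiplicity R 1 μ ∧ ∀ I : Ideal R, I.spanFinrank ≤ μ := by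
  obtain ⟨n0, hA⟩ := stepA (R := R) hne
  obtain ⟨n1, μ, hn1, hμ⟩ := exists_const hne hA
  refine ⟨μ, ?_, ?_, ?_⟩
  · rw [Nat.one_le_iff_ne_zero]
    intro h0
    have h1 := hμ n1 le_rfl
    rw [h0, Submodule.spanFinrank_eq_zero_iff_eq_bot (IsNoetherian.noetherian _)] at h1
    exact pow_ne_zero n1 hne h1
  · obtain ⟨L, hL⟩ := ENat.ne_top_iff_exists.1
      (length_quot_ne_top (maximalIdeal R ^ n1) (pow_ne_zero _ hne))
    have hlen : ∀ j : ℕ, Module.length R (R ⧸ maximalIdeal R ^ (j + n1)) = ((L + μ * j : ℕ) : ℕ∞) := by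
      intro j
      induction j with
      | zero => rw [zero_add, ← hL, mul_zero, add_zero]
      | succ j ih =>
        rw [show j + 1 + n1 = (j + n1) + 1 by ring, pow_succ', length_mul, ih, hμ (j + n1) (by omega)]
        push_cast
        ring
    unfold IsMultiplicity
    rw [← tendsto_add_atTop_iff_nat (n1 + 1)]
    have h1 : ∀ j : ℕ, ((1 : ℕ).factorial : ℝ) *
        ((Module.length R (R ⧸ maximalIdeal R ^ (j + (n1 + 1)))).toNat : ℝ) / ((j + (n1 + 1) : ℕ) : ℝ) ^ 1 =
        μ + ((L : ℝ) - μ * n1) / ((j + (n1 + 1) : ℕ) : ℝ) := by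
      intro j
      rw [show j + (n1 + 1) = (j + 1) + n1 by ring, hlen (j + 1), ENat.toNat_natCast]
      have hn : (((j + 1 + n1 : ℕ) : ℝ)) ≠ 0 := by positivity
      field_simp
      push_cast
      simp
      ring
    simp only [h1]
    have h2 := (tendsto_const_div_atTop_nhds_zero_nat ((L : ℝ) - μ * n1)).comp
      (tendsto_add_atTop_nat (n1 + 1))
    have h3 := h2.const_add (μ : ℝ)
    rw [add_zero] at h3
    exact h3
  · intro I
    have := spanFinrank_le_mult hne hA hn1 (by rw [hμ _ le_rfl, hμ _ (by omega)]) I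
    rwa [hμ _ le_rfl] at this

theorem oneDim (hdim : ringKrullDim R = 1) :
    ∃ μ : ℕ, 1 ≤ μ ∧ IsMultiplicity R 1 μ ∧ ∀ e, μ ≤ e → TestExponent R e := by
  have hd : Ring.KrullDimLE 1 R := by
    rw [Ring.krullDimLE_iff, hdim]; exact le_rfl
  have hne : maximalIdeal R ≠ ⊥ := by
    intro h
    exact (ringKrullDim_eq_one_iff_of_isLocalRing_isDomain.1 hdim).1
      (IsLocalRing.isField_iff_maximalIdeal_eq.2 h)
  obtain ⟨μ, h1, hμ, hI⟩ := exists_mult (R := R) hne
  exact ⟨μ, h1, hμ, fun e he => testExponent_of_gens (N := μ) (fun I => exists_gens I (hI I)) he⟩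

end A

end Pool.Agent.H676R3.Tens
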