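import Pool.Agent.H676R3.Len

set_option autoImplicit false
set_option linter.unusedSectionVars false
set_option linter.unusedSimpArgs false
open IsLocalRing PowerSeries

namespace Pool.Agent.H676R3.Tens

universe u

section
variable (k : Type u) [Field k] (μ : ℕ)

/-- the ring `k + t ^ μ k[[t]]`: power series whose coefficients of degree `1, ..., μ - 1` vanish -/
def Rmu : Subalgebra k (PowerSeries k) where
  carrier := {f | ∀ i, 0 < i → i < μ → coeff i f = 0}
  mul_mem' := by
    intro f g hf hg i hi hiμ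
    rw [coeff_mul]
    refine Finset.sum_eq_zero fun p hp => ?_
    rw [Finset.HasAntidiagonal.mem_antidiagonal] at hp
    rcases Nat.eq_zero_or_pos p.1 with h | h
    · rw [hg p.2 (by omega) (by omega), mul_zero]
    · rw [hf p.1 h (by omega), zero_mul]
  add_mem' := by
    intro f g hf hg i hi hiμ
    rw [map_add, hf i hi hiμ, hg i hi hiμ, add_zero]
  algebraMap_mem' := by
    intro r i hi hiμ
    rw [PowerSeries.algebraMap_apply, Algebra.algebraMap_self_apply, coeff_C, if_neg (by omega)]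

variable {k μ}

lemma mem_Rmu {f : PowerSeries k} : f ∈ Rmu k μ ↔ ∀ i, 0 < i → i < μ → coeff i f = 0 := Iff.rfl

lemma mem_of_dvd {f : PowerSeries k} (h : (X : PowerSeries k) ^ μ ∣ f) : f ∈ Rmu k μ := by
  intro i _ hi
  exact (X_pow_dvd_iff.1 h) i hi

lemma inv_mem {f : PowerSeries k} (hf : f ∈ Rmu k μ) (h0 : constantCoeff f ≠ 0) : f⁻¹ ∈ Rmu k μ := by
  intro i
  induction i using Nat.strong_induction_on with
  | _ i ih =>
    intro hi hiμ
    have h1 : f * f⁻¹ = 1 := PowerSeries.mul_inv_cancel f h0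
    have h2 := congrArg (coeff i) h1
    rw [coeff_mul, coeff_one, if_neg (by omega)] at h2
    rw [Finset.sum_eq_single (0, i)] at h2
    · rw [coeff_zero_eq_constantCoeff_apply] at h2
      exact (mul_eq_zero.1 h2).resolve_left h0
    · intro p hp hne
      rw [Finset.HasAntidiagonal.mem_antidiagonal] at hp
      rcases Nat.eq_zero_or_pos p.1 with h | h
      · exact absurd (Prod.ext h (by omega)) hne
      · rw [hf p.1 h (by omega), zero_mul]
    · intro h
      exact absurd (Finset.HasAntidiagonal.mem_antidiagonal.2 (Nat.zero_add i)) h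

lemma isUnit_iff {f : Rmu k μ} : IsUnit f ↔ constantCoeff (f : PowerSeries k) ≠ 0 := by
  constructor
  · rintro h h0
    have := (h.map (Rmu k μ).val)
    rw [Subalgebra.coe_val] at this
    have := this.map (constantCoeff (R := k))
    rw [h0] at this
    exact not_isUnit_zero this
  · intro h
    refine IsUnit.of_mul_eq_one ⟨(f : PowerSeries k)⁻¹, inv_mem f.2 h⟩ ?_
    apply Subtype.ext
    exact PowerSeries.mul_inv_cancel _ h

instance : IsLocalRing (Rmu k μ) := by
  refine IsLocalRing.of_nonunits_add ?_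
  intro a b ha hb
  rw [mem_nonunits_iff, isUnit_iff, not_not] at ha hb ⊢
  rw [Subalgebra.coe_add, map_add, ha, hb, add_zero]

lemma mem_max {f : Rmu k μ} : f ∈ maximalIdeal (Rmu k μ) ↔ constantCoeff (f : PowerSeries k) = 0 := by
  rw [mem_maximalIdeal, mem_nonunits_iff, isUnit_iff, not_not]

lemma mem_max_iff_dvd (hμ : 0 < μ) {f : Rmu k μ} :
    f ∈ maximalIdeal (Rmu k μ) ↔ (X : PowerSeries k) ^ μ ∣ (f : PowerSeries k) := by
  rw [mem_max, X_pow_dvd_iff]
  constructor
  · intro h i hi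
    rcases Nat.eq_zero_or_pos i with h0 | h0
    · rw [h0, coeff_zero_eq_constantCoeff_apply]; exact h
    · exact f.2 i h0 hi
  · intro h
    have := h 0 hμ
    rwa [coeff_zero_eq_constantCoeff_apply] at this

/-- elements of large order are multiples of a given nonzero element -/
lemma exists_order (x : PowerSeries k) (hx : x ≠ 0) :
    ∃ d : ℕ, ∀ f : PowerSeries k, (X : PowerSeries k) ^ (d + μ) ∣ f → ∃ g, (X : PowerSeries k) ^ μ ∣ g ∧ f = g * x := by
  obtain ⟨d, u, hu⟩ := IsDiscreteValuationRing.eq_unit_mul_pow_irreducible hx PowerSeries.X_irreducible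
  refine ⟨d, ?_⟩
  rintro f ⟨f', rfl⟩
  refine ⟨X ^ μ * f' * ((u⁻¹ : (PowerSeries k)ˣ) : PowerSeries k), ⟨f' * ((u⁻¹ : (PowerSeries k)ˣ) : PowerSeries k), by ring⟩, ?_⟩
  rw [hu]
  have : ((u⁻¹ : (PowerSeries k)ˣ) : PowerSeries k) * (u : PowerSeries k) = 1 := Units.inv_mul u
  rw [pow_add]
  linear_combination (-(X ^ d * X ^ μ * f')) * this

/-- the coefficient map -/
noncomputable def coeffs (s : ℕ → ℕ) (n : ℕ) : Rmu k μ →ₗ[k] (Fin n → k) :=
  LinearMap.pi fun i => (coeff (s i)).comp (Rmu k μ).val.toLinearMap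

lemma coeffs_apply (s : ℕ → ℕ) (n : ℕ) (f : Rmu k μ) (i : Fin n) :
    coeffs s n f i = coeff (s i) (f : PowerSeries k) := rfl

lemma finite_quot (I : Ideal (Rmu k μ)) (s : ℕ → ℕ) (n : ℕ)
    (h : ∀ f : Rmu k μ, (∀ i < n, coeff (s i) (f : PowerSeries k) = 0) → f ∈ I) :
    Module.Finite k (Rmu k μ ⧸ I) ∧ Module.finrank k (Rmu k μ ⧸ I) ≤ n := by
  have hle : LinearMap.ker (coeffs (k := k) (μ := μ) s n) ≤ I.restrictScalars k := by
    intro f hf
    rw [LinearMap.mem_ker] at hf
    refine h f fun i hi => ?_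
    exact congrFun hf ⟨i, hi⟩
  have hf1 : Module.Finite k (Rmu k μ ⧸ LinearMap.ker (coeffs (k := k) (μ := μ) s n)) :=
    Module.Finite.equiv (LinearMap.quotKerEquivRange _).symm
  let φ : (Rmu k μ ⧸ LinearMap.ker (coeffs (k := k) (μ := μ) s n)) →ₗ[k] (Rmu k μ ⧸ I) :=
    (Submodule.Quotient.restrictScalarsEquiv k I).toLinearMap.comp (Submodule.factor hle)
  have hφ : Function.Surjective φ :=
    (Submodule.Quotient.restrictScalarsEquiv k I).surjective.comp (Submodule.factor_surjective hle)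
  refine ⟨Module.Finite.of_surjective φ hφ, ?_⟩
  calc Module.finrank k (Rmu k μ ⧸ I) ≤
      Module.finrank k (Rmu k μ ⧸ LinearMap.ker (coeffs (k := k) (μ := μ) s n)) :=
        LinearMap.finrank_le_finrank_of_surjective hφ
    _ = Module.finrank k (LinearMap.range (coeffs (k := k) (μ := μ) s n)) :=
        (LinearMap.quotKerEquivRange _).finrank_eq
    _ ≤ Module.finrank k (Fin n → k) := Submodule.finrank_le _
    _ = n := by simp

instance : IsNoetherianRing (Rmu k μ) := by
  refine ⟨fun I => ?_⟩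
  by_cases hI : I = ⊥
  · rw [hI]; exact Submodule.fg_bot
  · obtain ⟨x, hxI, hx⟩ := Submodule.exists_mem_ne_zero_of_ne_bot hI
    have hx' : (x : PowerSeries k) ≠ 0 := fun h => hx (Subtype.ext h)
    obtain ⟨d, hd⟩ := exists_order (μ := μ) (x : PowerSeries k) hx'
    have hfin := (finite_quot (Ideal.span {x}) id (d + μ) (by
      intro f hf
      obtain ⟨g, hg, hfg⟩ := hd f (X_pow_dvd_iff.2 hf)
      rw [Ideal.mem_span_singleton']
      exact ⟨⟨g, mem_of_dvd hg⟩, Subtype.ext hfg.symm⟩)).1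
    have hn : IsNoetherian k (Rmu k μ ⧸ (Ideal.span {x})) := inferInstance
    have hn' : IsNoetherian (Rmu k μ) (Rmu k μ ⧸ (Ideal.span {x})) := isNoetherian_of_tower k hn
    refine Submodule.fg_of_fg_map_of_fg_inf_ker (Submodule.mkQ (Ideal.span {x})) (hn'.noetherian _) ?_
    rw [Submodule.ker_mkQ, inf_eq_right.2 (by
      rw [Ideal.span_le]
      intro y hy
      rw [Set.mem_singleton_iff] at hy
      rw [hy]; exact hxI)]
    exact Submodule.fg_span_singleton x

/-- the element `t ^ μ` -/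
noncomputable def tmu : Rmu k μ := ⟨X ^ μ, mem_of_dvd dvd_rfl⟩

lemma tmu_mem (hμ : 0 < μ) : (tmu : Rmu k μ) ∈ maximalIdeal (Rmu k μ) :=
  (mem_max_iff_dvd hμ).2 dvd_rfl

lemma tmu_ne_zero : (tmu : Rmu k μ) ≠ 0 := by
  intro h
  have := congrArg (Subtype.val) h
  exact pow_ne_zero μ (PowerSeries.X_ne_zero (R := k)) this

theorem ringKrullDim_Rmu (hμ : 0 < μ) : ringKrullDim (Rmu k μ) = 1 := by
  rw [ringKrullDim_eq_one_iff_of_isLocalRing_isDomain]
  constructor
  · intro h
    obtain ⟨b, hb⟩ := h.mul_inv_cancel (tmu_ne_zero (k := k) (μ := μ))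
    exact (mem_maximalIdeal _).1 (tmu_mem (k := k) hμ) (IsUnit.of_mul_eq_one b hb)
  · intro x hx y hy
    have hx' : (x : PowerSeries k) ≠ 0 := fun h => hx (Subtype.ext h)
    obtain ⟨d, hd⟩ := exists_order (μ := μ) (x : PowerSeries k) hx'
    rw [mem_max_iff_dvd hμ] at hy
    obtain ⟨y', hy'⟩ := hy
    obtain ⟨g, hg, hfg⟩ := hd ((y : PowerSeries k) ^ (d + 1)) (by
      rw [hy', mul_pow, ← pow_mul]
      refine Dvd.dvd.mul_right (pow_dvd_pow _ ?_) _
      nlinarith)
    refine ⟨d + 1, ?_⟩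
    rw [Ideal.mem_span_singleton']
    exact ⟨⟨g, mem_of_dvd hg⟩, Subtype.ext hfg.symm⟩

theorem length_quot_tmu (hμ : 0 < μ) :
    Module.length (Rmu k μ) (Rmu k μ ⧸ Ideal.span {(tmu : Rmu k μ)}) ≤ μ := by
  obtain ⟨h1, h2⟩ := finite_quot (Ideal.span {(tmu : Rmu k μ)})
    (fun i => if i = 0 then 0 else μ + i) μ (by
    intro f hf
    have h0 : constantCoeff (f : PowerSeries k) = 0 := by
      have := hf 0 hμ
      simpa using this
    obtain ⟨g, hg⟩ := (mem_max_iff_dvd hμ).1 (mem_max.2 h0)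
    rw [Ideal.mem_span_singleton']
    refine ⟨⟨g, ?_⟩, ?_⟩
    · intro i hi hiμ
      have := hf i hiμ
      simp only [if_neg (show ¬ i = 0 by omega)] at this
      rw [hg, add_comm, coeff_X_pow_mul] at this
      exact this
    · apply Subtype.ext
      show g * X ^ μ = _
      rw [hg, mul_comm])
  have h3 := Submodule.length_le_length_restrictScalars k
    (⊤ : Submodule (Rmu k μ) (Rmu k μ ⧸ Ideal.span {(tmu : Rmu k μ)}))
  rw [Module.length_top, Submodule.restrictScalars_top, Module.length_top,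
    Module.length_eq_finrank] at h3
  exact h3.trans (by exact_mod_cast h2)

end

end Pool.Agent.H676R3.Tens
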