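import Mathlib

set_option autoImplicit false
set_option linter.unusedSectionVars false
set_option linter.unusedSimpArgs false
open scoped TensorProduct
open IsLocalRing

namespace Pool.Agent.H676R3.Tens

universe u

/-- `e` is a test exponent for `R`: the `e`-th tensor power of every finitely generated torsionfree
module which is not free has nontrivial torsion. -/
def TestExponent (R : Type u) [CommRing R] (e : ℕ) : Prop :=
  ∀ (M : Type u) [AddCommGroup M] [Module R M], Module.Finite R M →
    Submodule.torsion R M = ⊥ → ¬ Module.Free R M → Submodule.torsion R (TensorPower R e M) ≠ ⊥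

section A
variable {R : Type u} [CommRing R] [IsDomain R] [IsLocalRing R]
variable {M : Type u} [AddCommGroup M] [Module R M]

/-- extension of a family indexed by `Fin h` to `Fin e` -/
def extd {e h : ℕ} {X : Type*} (t : X) (x : Fin h → X) (p : Fin e) : X :=
  if hp : (p : ℕ) < h then x ⟨p, hp⟩ else t

lemma extd_update {e h : ℕ} (hle : h ≤ e) {X : Type*} (t : X) (x : Fin h → X) (i : Fin h) (a : X) :
    extd (e := e) t (Function.update x i a) = Function.update (extd t x) (Fin.castLE hle i) a := by
  ext1 p
  unfold extd
  by_cases hp : (p : ℕ) < h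
  · by_cases hpi : (⟨p, hp⟩ : Fin h) = i
    · have : p = Fin.castLE hle i := by
        rw [← hpi]; rfl
      subst this
      simp [hp, hpi]
    · have : p ≠ Fin.castLE hle i := by
        intro h'
        apply hpi
        subst h'
        rfl
      rw [Function.update_of_ne this]
      simp [hp, Function.update_of_ne hpi]
  · have : p ≠ Fin.castLE hle i := by
      intro h'
      apply hp
      rw [h']; exact i.2
    rw [Function.update_of_ne this]
    simp [hp]

/-- the multilinear map used for alternation -/
noncomputable def multi {e h : ℕ} (hle : h ≤ e) (t : M) :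
    MultilinearMap R (fun _ : Fin h => M) (TensorPower R e M) :=
  MultilinearMap.mk' (fun x => PiTensorProduct.tprod R (extd t x))
    (fun x i a b => by
      have := extd_update hle t x i
      rw [this, this, this, MultilinearMap.map_update_add])
    (fun x i c a => by
      have := extd_update hle t x i
      rw [this, this, MultilinearMap.map_update_smul])

lemma multi_apply {e h : ℕ} (hle : h ≤ e) (t : M) (x : Fin h → M) :
    multi (R := R) hle t x = PiTensorProduct.tprod R (extd t x) := rfl

theorem torsion_of_relation {e h : ℕ} (hle : h ≤ e) (h0 : 0 < h) (v : Fin h → M)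
    (hv : ¬ LinearIndependent R v) (l : Fin h → (M →ₗ[R] ResidueField R))
    (hl : ∀ i j, l i (v j) = if i = j then 1 else 0) :
    Submodule.torsion R (TensorPower R e M) ≠ ⊥ := by
  intro htor
  have htf : Module.IsTorsionFree R (TensorPower R e M) :=
    Submodule.isTorsionFree_iff_torsion_eq_bot.2 htor
  set A := (multi (R := R) hle (v ⟨0, h0⟩)).alternatization with hA
  have hA0 : A v = 0 := A.map_linearDependent v hv
  set L : TensorPower R e M →ₗ[R] ResidueField R := PiTensorProduct.lift
    ((MultilinearMap.mkPiAlgebra R (Fin e) (ResidueField R)).compLinearMap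
      (fun p => extd (e := e) (l ⟨0, h0⟩) l p)) with hL
  have hval : ∀ x : Fin h → M, L (multi (R := R) hle (v ⟨0, h0⟩) x) =
      ∏ p : Fin e, (extd (e := e) (l ⟨0, h0⟩) l p) (extd (v ⟨0, h0⟩) x p) := by
    intro x
    rw [hL, multi_apply, PiTensorProduct.lift.tprod]
    simp [MultilinearMap.compLinearMap_apply]
  have h1 : L (A v) = 1 := by
    rw [hA, MultilinearMap.alternatization_apply, map_sum]
    rw [Finset.sum_eq_single 1]
    · rw [Equiv.Perm.sign_one, one_smul, MultilinearMap.domDomCongr_apply, hval]
      apply Finset.prod_eq_one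
      intro p _
      unfold extd
      by_cases hp : (p : ℕ) < h
      · simp [hp, hl]
      · simp [hp, hl]
    · intro σ _ hσ
      obtain ⟨i, hi⟩ : ∃ i, σ i ≠ i := by
        by_contra hcon
        push Not at hcon
        exact hσ (Equiv.ext hcon)
      rw [MultilinearMap.domDomCongr_apply, Units.smul_def, map_zsmul, hval]
      have : ∏ p : Fin e, (extd (e := e) (l ⟨0, h0⟩) l p) (extd (v ⟨0, h0⟩) (fun i => v (σ i)) p) = 0 := by
        apply Finset.prod_eq_zero (Finset.mem_univ (Fin.castLE hle i))
        unfold extd
        have : ((Fin.castLE hle i : Fin e) : ℕ) < h := i.2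
        simp only [this, dif_pos]
        have e1 : (⟨((Fin.castLE hle i : Fin e) : ℕ), this⟩ : Fin h) = i := rfl
        rw [e1, hl, if_neg (Ne.symm hi)]
      rw [this, smul_zero]
    · intro h'; exact absurd (Finset.mem_univ _) h'
  rw [hA0, map_zero] at h1
  exact zero_ne_one h1

/-- a family of more than `N` elements is redundant if every ideal has `N` generators -/
lemma exists_redundant {N h : ℕ} (hN : ∀ I : Ideal R, ∃ g : Fin N → R, I = Ideal.span (Set.range g))
    (hh : N < h) (a : Fin h → R) : ∃ i, ∃ c : Fin h → R, c i = 0 ∧ a i = ∑ j, c j * a j := by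
  obtain ⟨g, hg⟩ := hN (Ideal.span (Set.range a))
  have h1 : ∀ i, ∃ b : Fin N → R, a i = ∑ j, b j * g j := by
    intro i
    have : a i ∈ Ideal.span (Set.range g) := by
      rw [← hg]; exact Ideal.subset_span ⟨i, rfl⟩
    obtain ⟨c, hc⟩ := (Submodule.mem_span_range_iff_exists_fun R).1 this
    exact ⟨c, by rw [← hc]; simp⟩
  have h2 : ∀ j, ∃ b : Fin h → R, g j = ∑ i, b i * a i := by
    intro j
    have : g j ∈ Ideal.span (Set.range a) := by
      rw [hg]; exact Ideal.subset_span ⟨j, rfl⟩
    obtain ⟨c, hc⟩ := (Submodule.mem_span_range_iff_exists_fun R).1 this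
    exact ⟨c, by rw [← hc]; simp⟩
  choose B hB using h1
  choose C hC using h2
  -- linear dependence over the residue field
  have hdep : ¬ LinearIndependent (ResidueField R) (fun i : Fin h => (fun j : Fin N => residue R (B i j))) := by
    intro hli
    have := hli.fintype_card_le_finrank
    simp at this
    omega
  rw [Fintype.not_linearIndependent_iff] at hdep
  obtain ⟨c, hc, i0, hi0⟩ := hdep
  choose d hd using fun i => residue_surjective (R := R) (c i)
  -- ∑ d i * a i = ∑ j (∑ i d i * B i j) g j, with inner sums in the maximal ideal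
  set s : Fin N → R := fun j => ∑ i, d i * B i j with hs
  have hsm : ∀ j, residue R (s j) = 0 := by
    intro j
    have := congrFun hc j
    simp only [Finset.sum_apply, Pi.smul_apply, smul_eq_mul, Pi.zero_apply] at this
    rw [hs]
    simp only [map_sum, map_mul, hd]
    exact this
  have hsum : ∑ i, d i * a i = ∑ i, (∑ j, s j * C j i) * a i := by
    have e1 : ∑ i, d i * a i = ∑ j, s j * g j := by
      simp only [hs, Finset.sum_mul]
      rw [Finset.sum_comm]
      refine Finset.sum_congr rfl fun i _ => ?_
      rw [hB i, Finset.mul_sum]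
      refine Finset.sum_congr rfl fun j _ => by ring
    rw [e1]
    simp only [Finset.sum_mul]
    rw [Finset.sum_comm]
    refine Finset.sum_congr rfl fun j _ => ?_
    rw [hC j, Finset.mul_sum]
    refine Finset.sum_congr rfl fun i _ => by ring
  set f : Fin h → R := fun i => d i - ∑ j, s j * C j i with hf
  have hf0 : ∑ i, f i * a i = 0 := by
    simp only [hf, sub_mul, Finset.sum_sub_distrib]
    rw [hsum, sub_self]
  have hfu : IsUnit (f i0) := by
    rw [← residue_ne_zero_iff_isUnit]
    rw [hf]
    simp only [map_sub, map_sum, map_mul, hsm, zero_mul, Finset.sum_const_zero, sub_zero, hd]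
    exact hi0
  obtain ⟨w, hw⟩ := hfu
  refine ⟨i0, fun j => if j = i0 then 0 else -((w⁻¹ : Rˣ) : R) * f j, by simp, ?_⟩
  have e2 : f i0 * a i0 + ∑ j ∈ Finset.univ.erase i0, f j * a j = 0 := by
    rw [Finset.add_sum_erase _ (fun j => f j * a j) (Finset.mem_univ i0)]
    exact hf0
  have e3 : ∑ j, (if j = i0 then (0:R) else -((w⁻¹ : Rˣ) : R) * f j) * a j
      = -((w⁻¹ : Rˣ) : R) * ∑ j ∈ Finset.univ.erase i0, f j * a j := by
    rw [← Finset.add_sum_erase _ _ (Finset.mem_univ i0)]
    simp only [if_true, zero_mul, zero_add, Finset.mul_sum]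
    refine Finset.sum_congr rfl fun j hj => ?_
    rw [if_neg (Finset.ne_of_mem_erase hj)]; ring
  rw [e3]
  have e4 : ∑ j ∈ Finset.univ.erase i0, f j * a j = -(f i0 * a i0) := by
    rw [← sub_eq_zero, sub_neg_eq_add, add_comm]; exact e2
  rw [e4, ← hw]
  have : ((w⁻¹ : Rˣ) : R) * (w : R) = 1 := Units.inv_mul w
  linear_combination (-a i0) * this

end A

end Pool.Agent.H676R3.Tens
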