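import Pool.Agent.H676R3.Tens

set_option autoImplicit false
set_option linter.unusedSectionVars false
set_option linter.unusedSimpArgs false
open scoped TensorProduct
open IsLocalRing

namespace Pool.Agent.H676R3.Tens

universe u

section B
variable {R : Type u} [CommRing R] [IsDomain R] [IsLocalRing R]
variable {M : Type u} [AddCommGroup M] [Module R M]

/-- a relation among elements of a minimal generating system yields torsion -/
theorem torsion_of_dep {N e : ℕ}
    (hN : ∀ I : Ideal R, ∃ g : Fin N → R, I = Ideal.span (Set.range g)) (hNe : N ≤ e) :
    ∀ (h : ℕ) (v : Fin h → M) (a : Fin h → R) (l : Fin h → (M →ₗ[R] ResidueField R)),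
      (∀ i j, l i (v j) = if i = j then 1 else 0) → a ≠ 0 → ∑ i, a i • v i = 0 →
      Submodule.torsion R (TensorPower R e M) ≠ ⊥ := by
  intro h
  induction h with
  | zero =>
    intro v a l hl ha _
    exact absurd (Subsingleton.elim a 0) ha
  | succ h ih =>
    intro v a l hl ha hsum
    by_cases hh : h + 1 ≤ N
    · refine torsion_of_relation (hh.trans hNe) (Nat.succ_pos h) v ?_ l hl
      rw [Fintype.not_linearIndependent_iff]
      refine ⟨a, hsum, ?_⟩
      by_contra hcon
      push Not at hcon
      exact ha (funext hcon)
    · push Not at hh
      obtain ⟨i0, c, hc0, hc⟩ := exists_redundant hN hh a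
      refine ih (fun j => v (i0.succAbove j) + c (i0.succAbove j) • v i0)
        (fun j => a (i0.succAbove j)) (fun j => l (i0.succAbove j)) ?_ ?_ ?_
      · intro i j
        have h1 : i0.succAbove i ≠ i0 := Fin.succAbove_ne i0 i
        simp only [map_add, map_smul, hl, if_neg h1, smul_zero, add_zero,
          (Fin.succAbove_right_injective (p := i0)).eq_iff]
      · intro h0
        apply ha
        funext i
        have h2 : ∀ j, a (i0.succAbove j) = 0 := fun j => congrFun h0 j
        by_cases hi : i = i0
        · subst hi
          rw [hc, Fin.sum_univ_succAbove _ i, hc0]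
          simp [h2]
        · obtain ⟨j, rfl⟩ := Fin.exists_succAbove_eq hi
          exact h2 j
      · rw [Fin.sum_univ_succAbove _ i0] at hsum
        simp only [smul_add, Finset.sum_add_distrib, smul_smul]
        rw [← Finset.sum_smul]
        have h3 : ∑ j, a (i0.succAbove j) * c (i0.succAbove j) = a i0 := by
          rw [hc, Fin.sum_univ_succAbove _ i0, hc0, zero_mul, zero_add]
          exact Finset.sum_congr rfl fun j _ => mul_comm _ _
        rw [h3, add_comm]
        exact hsum

/-- minimal generating systems with dual functionals to the residue field -/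
theorem exists_min_gens [Module.Finite R M] :
    ∃ (n : ℕ) (v : Fin n → M) (l : Fin n → (M →ₗ[R] ResidueField R)),
      (∀ i j, l i (v j) = if i = j then 1 else 0) ∧ Submodule.span R (Set.range v) = ⊤ := by
  let b := Module.finBasis (ResidueField R) (ResidueField R ⊗[R] M)
  have hs : Function.Surjective (TensorProduct.mk R (ResidueField R) M 1) :=
    TensorProduct.mk_surjective R M (ResidueField R) residue_surjective
  choose v hv using fun i => hs (b i)
  refine ⟨_, v, fun i => ((b.coord i).restrictScalars R).comp (TensorProduct.mk R (ResidueField R) M 1),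
    ?_, ?_⟩
  · intro i j
    simp only [LinearMap.comp_apply, hv, LinearMap.coe_restrictScalars, Module.Basis.coord_apply,
      Module.Basis.repr_self, Finsupp.single_apply, eq_comm]
  · exact IsLocalRing.span_eq_top_of_tmul_eq_basis v b (fun i => by
      have := hv i
      simpa using this)

theorem testExponent_of_gens {N e : ℕ}
    (hN : ∀ I : Ideal R, ∃ g : Fin N → R, I = Ideal.span (Set.range g)) (hNe : N ≤ e) :
    TestExponent R e := by
  intro M _ _ hfin htf hnf
  obtain ⟨n, v, l, hl, hsp⟩ := exists_min_gens (R := R) (M := M)
  have hdep : ¬ LinearIndependent R v := by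
    intro hli
    exact hnf (Module.Free.of_basis (Module.Basis.mk hli hsp.ge))
  rw [Fintype.not_linearIndependent_iff] at hdep
  obtain ⟨a, ha, i, hi⟩ := hdep
  exact torsion_of_dep hN hNe n v a l hl (fun h => hi (by rw [h]; rfl)) ha

end B

end Pool.Agent.H676R3.Tens
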